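import Pool.Agent.Helper91.HM.Inv

/-!
The action of matrices on coordinates of tensors.
-/

set_option autoImplicit false
set_option linter.unusedSectionVars false

namespace Pool.Agent.Helper91.HM

section

variable {R : Type*} [CommRing R] {n : ℕ} {P : Type} [Fintype P] [DecidableEq P]

/-- the coordinates, with respect to the rows of `g`, of the tensor with the coordinates `T` -/
def act (g : Matrix (Fin n) (Fin n) R) (T : (P → Fin n) → R) : (P → Fin n) → R :=
  fun J => ∑ I, (∏ k, g (J k) (I k)) * T I

theorem act_mul (g h : Matrix (Fin n) (Fin n) R) (T : (P → Fin n) → R) :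
    act (g * h) T = act g (act h T) := by
  funext J
  simp only [act]
  have h1 : ∀ I : P → Fin n, ∏ k, (g * h) (J k) (I k) =
      ∑ L : P → Fin n, (∏ k, g (J k) (L k)) * ∏ k, h (L k) (I k) := by
    intro I
    have := congrFun (congrFun (rho_mul (P := P) g h) J) I
    rw [Matrix.mul_apply] at this
    exact this
  simp only [h1, Finset.sum_mul, Finset.mul_sum]
  rw [Finset.sum_comm]
  refine Finset.sum_congr rfl fun L _ => Finset.sum_congr rfl fun I _ => ?_
  ring

theorem act_one (T : (P → Fin n) → R) : act (1 : Matrix (Fin n) (Fin n) R) T = T := by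
  funext J
  simp only [act]
  have h1 : ∀ I : P → Fin n, ∏ k, (1 : Matrix (Fin n) (Fin n) R) (J k) (I k) =
      if J = I then 1 else 0 := by
    intro I
    have := congrFun (congrFun (rho_one (P := P) (n := n) (R := R)) J) I
    rw [Matrix.one_apply] at this
    exact this
  simp only [h1, ite_mul, one_mul, zero_mul]
  simp

theorem act_map {S : Type*} [CommRing S] (f : R →+* S) (g : Matrix (Fin n) (Fin n) R)
    (T : (P → Fin n) → R) (J : P → Fin n) :
    act (g.map f) (fun I => f (T I)) J = f (act g T J) := by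
  simp only [act, map_sum, map_mul, map_prod, Matrix.map_apply]

end

/-- the product of the tensors `T (ν q)` -/
def wordT {R : Type*} [CommRing R] {n : ℕ} {ι : Type} {N : ι → ℕ}
    (T : ∀ i, (Fin (N i) → Fin n) → R) {Q : Type} [Fintype Q] (ν : Q → ι) :
    ((Σ q, Fin (N (ν q))) → Fin n) → R :=
  fun I => ∏ q, T (ν q) (fun l => I ⟨q, l⟩)

theorem act_word {R : Type*} [CommRing R] {n : ℕ} {ι : Type} {N : ι → ℕ}
    (T : ∀ i, (Fin (N i) → Fin n) → R) {Q : Type} [Fintype Q] [DecidableEq Q] (ν : Q → ι)
    (g : Matrix (Fin n) (Fin n) R) (J : (Σ q, Fin (N (ν q))) → Fin n) :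
    act g (wordT T ν) J = ∏ q, act g (T (ν q)) (fun l => J ⟨q, l⟩) := by
  simp only [act, wordT]
  rw [Finset.prod_univ_sum]
  simp only [Fintype.piFinset_univ]
  refine Fintype.sum_equiv (Equiv.piCurry fun (q : Q) (_ : Fin (N (ν q))) => Fin n) _ _
    fun I => ?_
  rw [Finset.prod_mul_distrib, Fintype.prod_sigma]
  rfl

end Pool.Agent.Helper91.HM
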