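import Pool.Agent.Helper91.HM.Val

/-!
If all invariants vanish then the tensors are destabilised over the algebraic closure.
-/

set_option autoImplicit false
set_option linter.unusedSectionVars false

namespace Pool.Agent.Helper91.HM

open MvPolynomial

variable {K : Type} [Field K] [Algebra ℝ K] {n : ℕ} {ι : Type} {N : ι → ℕ}

theorem alg_step (hn : 0 < n) [Finite ι] (T : ∀ i, (Fin (N i) → Fin n) → K) (hT : NoInv T) :
    ∃ (E : Matrix (Fin n) (Fin n) (AlgebraicClosure K)) (a : Fin n → ℤ),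
      E.det ≠ 0 ∧ ∑ j, a j = 0 ∧
        ∀ i J, act E (fun I => algebraMap K (AlgebraicClosure K) (T i I)) J ≠ 0 →
          ∑ k, a (J k) < 0 := by
  classical
  obtain ⟨κ, _, f, E, a, hE, ha, hact⟩ := val_step hn T hT
  let S := MvPolynomial (Option (Fin n × Fin n)) K
  let φ : S →+* κ := MvPolynomial.eval₂Hom f
    (fun o => Option.elim o (E.det)⁻¹ fun p => E p.1 p.2)
  obtain ⟨Y, hY⟩ : ∃ Y : Matrix (Fin n) (Fin n) S, ∀ i j, Y i j = X (some (i, j)) :=
    ⟨fun i j => X (some (i, j)), fun _ _ => rfl⟩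
  have hφY : Y.map φ = E := by
    ext i j
    rw [Matrix.map_apply, hY]
    exact MvPolynomial.eval₂Hom_X' f _ (some (i, j))
  have hφC : ∀ x, φ (C x) = f x := fun x => MvPolynomial.eval₂Hom_C f _ x
  have hker : RingHom.ker φ ≠ ⊤ := RingHom.ker_ne_top φ
  obtain ⟨M, hM, hle⟩ := Ideal.exists_le_maximal _ hker
  let _ : Field (S ⧸ M) := Ideal.Quotient.field M
  have hfin : Module.Finite K (S ⧸ M) := finite_of_finite_type_of_isJacobsonRing K (S ⧸ M)
  let ψ : (S ⧸ M) →ₐ[K] AlgebraicClosure K := IsAlgClosed.lift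
  let θ : S →+* AlgebraicClosure K := (ψ : (S ⧸ M) →+* AlgebraicClosure K).comp (Ideal.Quotient.mk M)
  have hθ : ∀ x, φ x = 0 → θ x = 0 := by
    intro x hx
    have h1 : Ideal.Quotient.mk M x = 0 := Ideal.Quotient.eq_zero_iff_mem.2 (hle hx)
    change ψ (Ideal.Quotient.mk M x) = 0
    rw [h1, map_zero]
  have hθC : ∀ x : K, θ (C x) = algebraMap K (AlgebraicClosure K) x := by
    intro x
    change ψ (algebraMap K (S ⧸ M) x) = _
    exact ψ.commutes x
  refine ⟨Y.map θ, a, ?_, ha, fun i J hne => ?_⟩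
  · intro h0
    have h1 : φ (Y.det * X none - 1) = 0 := by
      rw [map_sub, map_mul, map_one, RingHom.map_det]
      have h2 : φ.mapMatrix Y = E := hφY
      rw [h2]
      have h3 : φ (X none) = (E.det)⁻¹ := MvPolynomial.eval₂Hom_X' f _ none
      rw [h3, mul_inv_cancel₀ hE, sub_self]
    have h4 := hθ _ h1
    rw [map_sub, map_mul, map_one, RingHom.map_det] at h4
    have h5 : (θ.mapMatrix Y).det = 0 := h0
    rw [h5, zero_mul, zero_sub, neg_eq_zero] at h4
    exact one_ne_zero h4
  · refine hact i J fun h0 => hne ?_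
    have h1 := act_map φ Y (fun I => C (T i I)) J
    rw [hφY] at h1
    simp only [hφC] at h1
    rw [h0] at h1
    have h2 := hθ _ h1.symm
    have h3 := act_map θ Y (fun I => C (T i I)) J
    simp only [hθC] at h3
    rw [h3, h2]

end Pool.Agent.Helper91.HM
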