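import Pool.Agent.Helper91.HM.Conv

/-!
All tensors of bounded degree.
-/

set_option autoImplicit false
set_option linter.unusedSectionVars false

namespace Pool.Agent.Helper91.HM

open Module FF Pool.Agent.W602.GT Pool.Agent.W603.LV Pool.Agent.TH143.GT Pool.Agent.Y220.OG
  Pool.Agent.Helper12.BL

theorem bounded {K : Type} [Field K] [Algebra ℂ K] {n : ℕ} (hn : Algebra.trdeg ℂ K = n)
    (hn0 : 0 < n) {X : Set (Place ℂ K)} {δ : Place ℂ K → ℝ}
    (hδ : ∀ P ∈ X, 0 ≤ δ P)
    {κ : ℕ} (hκ : ¬ KodairaGe n X δ κ) (d : ℕ) :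
    ∃ (b : Fin n → Derivation ℂ K K) (a : Fin n → ℤ), LinearIndependent K b ∧
      Submodule.span K (Set.range b) = ⊤ ∧ ∑ j, a j = 0 ∧ ∀ N, 0 < N → N ≤ d →
        ∀ s : MultilinearMap K (fun _ : Fin N => Derivation ℂ K K) K,
          IsMovable n X δ κ s → Destabilises b a s := by
  classical
  obtain ⟨e, he, hes⟩ := exists_basis (K := K) hn
  have hfin : Module.Finite K (Derivation ℂ K K) := ⟨⟨Finset.univ.image e, by
    rw [Finset.coe_image, Finset.coe_univ, Set.image_univ]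
    exact hes⟩⟩
  have h1 : ∀ N : ℕ, ∃ F : Finset (MultilinearMap K (fun _ : Fin N => Derivation ℂ K K) K),
      (∀ s ∈ F, IsMovable n X δ κ s) ∧
      ∀ s : MultilinearMap K (fun _ : Fin N => Derivation ℂ K K) K,
        IsMovable n X δ κ s → s ∈ Submodule.span K (F : Set _) := by
    intro N
    obtain ⟨F, hF1, hF2⟩ := (Submodule.fg_span_iff_fg_span_finset_subset (R := K)
      {s : MultilinearMap K (fun _ : Fin N => Derivation ℂ K K) K |
        IsMovable n X δ κ s}).1 (IsNoetherian.noetherian _)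
    refine ⟨F, fun s hs => hF1 hs, fun s hs => ?_⟩
    rw [← hF2]
    exact Submodule.subset_span hs
  choose F hF1 hF2 using h1
  obtain ⟨b, a, hb, hbs, ha, hdes⟩ := hm_main hn hn0 (ι := Σ N : Fin d, {x // x ∈ F (N + 1)})
    (N := fun i => i.1 + 1) hδ (fun i => Nat.succ_pos _) (fun i => i.2.1)
    (fun i => hF1 _ _ i.2.2) hκ
  refine ⟨b, a, hb, hbs, ha, fun N hN hNd s hs J hne => ?_⟩
  obtain ⟨N, rfl⟩ : ∃ N', N = N' + 1 := ⟨N - 1, by omega⟩
  by_contra hlt
  apply hne
  have h2 := hF2 _ s hs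
  clear hs hne
  induction h2 using Submodule.span_induction with
  | mem t ht =>
    by_contra hne'
    exact hlt (hdes ⟨⟨N, by omega⟩, ⟨t, ht⟩⟩ J hne')
  | zero => rfl
  | add t u _ _ ht hu => rw [add_apply, ht, hu, add_zero]
  | smul c t _ ht => rw [smul_apply, ht, smul_zero]

end Pool.Agent.Helper91.HM
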