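import Pool.Agent.Helper91.HM.Conj

/-!
A canonical distribution along which all tensors vanish to high order.
-/

set_option autoImplicit false
set_option linter.unusedSectionVars false

namespace Pool.Agent.Helper91.HM

open Module

section alg

variable {K V : Type} [Field K] [AddCommGroup V] [Module K V] {n : ℕ}

/-- the polynomial which expresses the value of `s` on linear combinations and members of the basis
-/
noncomputable def poly (e : Fin n → V) {d N : ℕ} (s : MultilinearMap K (fun _ : Fin N => V) K)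
    (J : Fin N → Fin d ⊕ Fin n) : MvPolynomial (Fin d × Fin n) K :=
  ∑ I : Fin N → Fin n, MvPolynomial.C (s (fun k => e (I k))) *
    ∏ k, Sum.elim (fun r => MvPolynomial.X (r, I k)) (fun j => if I k = j then 1 else 0) (J k)

/-- the vectors -/
noncomputable def vv (e : Fin n → V) {d : ℕ} (u : Fin d → Fin n → K) : Fin d ⊕ Fin n → V :=
  Sum.elim (fun r => ∑ i, u r i • e i) e

theorem eval_poly (e : Fin n → V) {d N : ℕ} (s : MultilinearMap K (fun _ : Fin N => V) K)
    (J : Fin N → Fin d ⊕ Fin n) (u : Fin d → Fin n → K) :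
    MvPolynomial.eval (fun q : Fin d × Fin n => u q.1 q.2) (poly e s J) =
      s (fun k => vv e u (J k)) := by
  classical
  obtain ⟨c, hc⟩ : ∃ c : Fin N → Fin n → K, ∀ k i, c k i =
    Sum.elim (fun r => u r i) (fun j => if i = j then 1 else 0) (J k) := ⟨_, fun _ _ => rfl⟩
  have h1 : (fun k => vv e u (J k)) = fun k => ∑ i, c k i • e i := by
    funext k
    simp only [hc]
    rcases J k with r | j
    · rfl
    · simp [vv]
  rw [h1, MultilinearMap.map_sum, poly, map_sum]
  refine Finset.sum_congr rfl fun I _ => ?_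
  rw [map_mul, MvPolynomial.eval_C, map_prod]
  have h2 := s.map_smul_univ (fun k => c k (I k)) (fun k => e (I k))
  rw [h2, smul_eq_mul, mul_comm]
  congr 1
  refine Finset.prod_congr rfl fun k _ => ?_
  rw [hc]
  rcases J k with r | j
  · simp
  · simp only [Sum.elim_inr]
    split_ifs
    · simp
    · simp

/-- expansion of a multilinear form -/
theorem expand {ι : Type} [Fintype ι] [DecidableEq ι] {N : ℕ}
    (s : MultilinearMap K (fun _ : Fin N => V) K)
    (v : ι → V) (x : Fin N → V) (c : Fin N → ι → K) (hx : ∀ k, x k = ∑ j, c k j • v j)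
    (h : ∀ J : Fin N → ι, (∀ k, c k (J k) ≠ 0) → s (fun k => v (J k)) = 0) : s x = 0 := by
  have h1 : x = fun k => ∑ j, c k j • v j := funext hx
  rw [h1, MultilinearMap.map_sum]
  refine Finset.sum_eq_zero fun J _ => ?_
  have h2 := s.map_smul_univ (fun k => c k (J k)) (fun k => v (J k))
  rw [h2]
  by_cases h3 : ∀ k, c k (J k) ≠ 0
  · rw [h J h3, smul_zero]
  · push Not at h3
    obtain ⟨k, hk⟩ := h3
    rw [Finset.prod_eq_zero (Finset.mem_univ k) hk, zero_smul]

/-- a destabilising weighted flag: the tensors vanish to high order along its first member -/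
theorem top_vanish {𝒮 : ∀ d : ℕ, Set (MultilinearMap K (fun _ : Fin d => V) K)} (hn : 0 < n)
    {g : Fin n → V} {a : Fin n → ℝ} (hg : Dest 𝒮 g a) {t : ℝ} (ht : ∀ j, a j ≤ t)
    {N : ℕ} {s : MultilinearMap K (fun _ : Fin N => V) K} (hs : s ∈ 𝒮 N) (x : Fin N → V)
    (hx : (n - 1) * N ≤ n * Nat.card {k : Fin N // x k ∈ (flag g a t : Submodule K V)}) :
    s x = 0 := by
  classical
  -- all weights are at least `-(n - 1) t`
  have h0 : 0 ≤ t := by
    have h1 : ∑ j, a j ≤ ∑ _j : Fin n, t := Finset.sum_le_sum fun j _ => ht j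
    rw [hg.2.2.1, Finset.sum_const, Finset.card_univ, Fintype.card_fin, nsmul_eq_mul] at h1
    have h2 : (0 : ℝ) < n := by exact_mod_cast hn
    by_contra h3
    push Not at h3
    nlinarith
  have hlow : ∀ j, -((n - 1 : ℕ) * t) ≤ a j := by
    intro j
    have h1 := hg.2.2.1
    rw [← Finset.add_sum_erase _ _ (Finset.mem_univ j)] at h1
    have h2 : ∑ i ∈ Finset.univ.erase j, a i ≤ ∑ _i ∈ Finset.univ.erase j, t :=
      Finset.sum_le_sum fun j _ => ht j
    rw [Finset.sum_const, Finset.card_erase_of_mem (Finset.mem_univ j), Finset.card_univ,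
      Fintype.card_fin, nsmul_eq_mul] at h2
    linarith
  have h1 : ∀ k, ∃ c : Fin n → K, x k = ∑ j, c j • g j ∧
      ∀ j, c j ≠ 0 → x k ∈ (flag g a t : Submodule K V) → t ≤ a j := by
    intro k
    by_cases hk : x k ∈ (flag g a t : Submodule K V)
    · obtain ⟨c, hc, hcx⟩ := flag_coord hk
      exact ⟨c, hcx.symm, fun j hj _ => hc j hj⟩
    · obtain ⟨c, hc⟩ := mem_span_fam.1 (hg.2.1 ▸ Submodule.mem_top :
        x k ∈ Submodule.span K (Set.range g))
      exact ⟨c, hc.symm, fun j _ h => absurd h hk⟩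
  choose c hcx hc using h1
  refine expand s g x c hcx fun J hJ => ?_
  by_contra hne
  have h2 := hg.2.2.2 N s hs J hne
  obtain ⟨p, hp⟩ : ∃ p : ℕ, p = Nat.card {k : Fin N // x k ∈ (flag g a t : Submodule K V)} :=
    ⟨_, rfl⟩
  rw [← hp] at hx
  have h3 : ∑ k, (if x k ∈ (flag g a t : Submodule K V) then t else -((n - 1 : ℕ) * t)) ≤
      ∑ k, a (J k) := by
    refine Finset.sum_le_sum fun k _ => ?_
    split_ifs with hk
    · exact hc k (J k) (hJ k) hk
    · exact hlow _
  have h4 : ∑ k, (if x k ∈ (flag g a t : Submodule K V) then t else -((n - 1 : ℕ) * t)) =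
      (p : ℝ) * t - (N - p) * ((n - 1 : ℕ) * t) := by
    rw [Finset.sum_ite, Finset.sum_const, Finset.sum_const, nsmul_eq_mul, nsmul_eq_mul]
    have h5 : (Finset.univ.filter fun k => x k ∈ (flag g a t : Submodule K V)).card = p := by
      rw [hp, Nat.card_eq_fintype_card, Fintype.card_subtype]
    have h6 := Finset.card_filter_add_card_filter_not (s := Finset.univ)
      (fun k : Fin N => x k ∈ (flag g a t : Submodule K V))
    rw [h5, Finset.card_univ, Fintype.card_fin] at h6
    have h7 : ((Finset.univ.filter fun k => ¬ x k ∈ (flag g a t : Submodule K V)).card : ℝ) =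
        N - p := by
      rw [eq_sub_iff_add_eq, add_comm]
      exact_mod_cast h6
    rw [h5, h7]
    ring
  have h5 : (n - 1 : ℕ) = (n : ℝ) - 1 := by
    rw [Nat.cast_sub hn]
    simp
  have h6 : ((n - 1 : ℕ) : ℝ) * N ≤ n * p := by exact_mod_cast hx
  rw [h4] at h3
  rw [h5] at h3 h6
  nlinarith

/-- **Stabilisation.**  Among subspaces along which the tensors of bounded degree vanish to high
order there is one for all degrees. -/
theorem stabilise {𝒯 : ∀ d : ℕ, Set (MultilinearMap K (fun _ : Fin d => V) K)} {e : Fin n → V}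
    (he : LinearIndependent K e) (hes : Submodule.span K (Set.range e) = ⊤)
    (U : ℕ → Submodule K V)
    (hU : ∀ m : ℕ, ∀ N, N ≤ m → ∀ s ∈ 𝒯 N, ∀ x : Fin N → V,
      (n - 1) * N ≤ n * Nat.card {k : Fin N // x k ∈ U m} → s x = 0) :
    ∃ m : ℕ, ∀ N, ∀ s ∈ 𝒯 N, ∀ x : Fin N → V,
      (n - 1) * N ≤ n * Nat.card {k : Fin N // x k ∈ U m} → s x = 0 := by
  classical
  have hfin : Module.Finite K V := ⟨⟨Finset.univ.image e, by
    rw [Finset.coe_image, Finset.coe_univ, Set.image_univ]
    exact hes⟩⟩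
  have hfr : finrank K V = n := by
    rw [finrank_eq_card_basis (Basis.mk he hes.ge), Fintype.card_fin]
  -- the equations of bounded degree
  let E : ∀ d : ℕ, ℕ → Set (MvPolynomial (Fin d × Fin n) K) := fun d m =>
    {F | ∃ N, N ≤ m ∧ ∃ s ∈ 𝒯 N, ∃ J : Fin N → Fin d ⊕ Fin n,
      (n - 1) * N ≤ n * Nat.card {k : Fin N // (J k).isLeft = true} ∧ F = poly e s J}
  let I : ∀ d : ℕ, ℕ →o Ideal (MvPolynomial (Fin d × Fin n) K) := fun d =>
    ⟨fun m => Ideal.span (E d m), fun m m' hm => Ideal.span_mono (by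
      rintro F ⟨N, hN, h⟩
      exact ⟨N, hN.trans hm, h⟩)⟩
  have hst : ∀ d : ℕ, ∃ m0, ∀ m, m0 ≤ m → I d m0 = I d m := fun d =>
    monotone_stabilizes_iff_noetherian.2 (inferInstance :
      IsNoetherian (MvPolynomial (Fin d × Fin n) K) (MvPolynomial (Fin d × Fin n) K)) (I d)
  choose m0 hm0 using hst
  obtain ⟨m, hm⟩ : ∃ m, ∀ d ≤ n, m0 d ≤ m :=
    ⟨(Finset.range (n + 1)).sup m0, fun d hd => Finset.le_sup (f := m0)
      (Finset.mem_range.2 (by omega))⟩
  obtain ⟨d, hd⟩ : ∃ d, d = finrank K (U m) := ⟨_, rfl⟩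
  have hdn : d ≤ n := by
    rw [hd, ← hfr]
    exact Submodule.finrank_le _
  have hI : ∀ m', m ≤ m' → I d m' = I d m := fun m' hm' => by
    rw [← hm0 d m' ((hm d hdn).trans hm'), ← hm0 d m (hm d hdn)]
  -- coordinates
  let b := finBasisOfFinrankEq K (U m) hd.symm
  let B := Basis.mk he hes.ge
  obtain ⟨u, hu⟩ : ∃ u : Fin d → Fin n → K, ∀ r i, u r i = B.repr (b r : V) i :=
    ⟨_, fun _ _ => rfl⟩
  have hub : ∀ r, ∑ i, u r i • e i = (b r : V) := by
    intro r
    have h1 := B.sum_repr (b r : V)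
    simp only [B, Basis.mk_apply] at h1
    rw [← h1]
    exact Finset.sum_congr rfl fun i _ => by rw [hu]
  have hvl : ∀ r : Fin d, vv e u (Sum.inl r) ∈ U m := by
    intro r
    change ∑ i, u r i • e i ∈ U m
    rw [hub]
    exact (b r).2
  have hzero : ∀ m', ∀ F ∈ E d m', MvPolynomial.eval (fun q : Fin d × Fin n => u q.1 q.2) F = 0 := by
    intro m'
    have h1 : I d (max m m') = I d m := hI _ (le_max_left _ _)
    have h2 : I d m ≤ RingHom.ker (MvPolynomial.eval (fun q : Fin d × Fin n => u q.1 q.2)) := by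
      change Ideal.span (E d m) ≤ _
      rw [Ideal.span_le]
      rintro F ⟨N, hN, s, hs, J, hJ, rfl⟩
      change _ ∈ RingHom.ker _
      rw [RingHom.mem_ker, eval_poly]
      refine hU m N hN s hs _ (hJ.trans (Nat.mul_le_mul_left _ ?_))
      refine Nat.card_le_card_of_injective
        (fun k : {k : Fin N // (J k).isLeft = true} => (⟨k.1, ?_⟩ : {k : Fin N //
          vv e u (J k) ∈ U m})) fun k k' hkk => ?_
      · obtain ⟨r, hr⟩ := Sum.isLeft_iff.1 k.2
        rw [hr]
        exact hvl r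
      · exact Subtype.ext (congrArg (fun x : {k : Fin N // vv e u (J k) ∈ U m} => x.1) hkk)
    intro F hF
    have h3 : F ∈ I d (max m m') := by
      obtain ⟨N, hN, h⟩ := hF
      exact Ideal.subset_span ⟨N, hN.trans (le_max_right _ _), h⟩
    rw [h1] at h3
    exact RingHom.mem_ker.1 (h2 h3)
  refine ⟨m, fun N s hs x hx => ?_⟩
  have h1 : ∀ k, ∃ c : Fin d ⊕ Fin n → K, x k = ∑ j, c j • vv e u j ∧
      ∀ j, c j ≠ 0 → x k ∈ U m → j.isLeft = true := by
    intro k
    by_cases hk : x k ∈ U m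
    · refine ⟨Sum.elim (fun r => b.repr ⟨x k, hk⟩ r) (fun _ => 0), ?_, ?_⟩
      · rw [Fintype.sum_sum_type]
        simp only [Sum.elim_inl, Sum.elim_inr, zero_smul, Finset.sum_const_zero, add_zero]
        have h2 := congrArg (Submodule.subtype (U m)) (b.sum_repr ⟨x k, hk⟩)
        rw [map_sum] at h2
        have h3 : ∀ r, (U m).subtype (b.repr ⟨x k, hk⟩ r • b r) =
            b.repr ⟨x k, hk⟩ r • vv e u (Sum.inl r) := by
          intro r
          rw [map_smul]
          congr 1
          exact (hub r).symm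
        rw [Finset.sum_congr rfl fun r _ => h3 r] at h2
        exact h2.symm
      · rintro (r | j) hj _
        · rfl
        · exact absurd rfl hj
    · refine ⟨Sum.elim (fun _ => 0) (fun i => B.repr (x k) i), ?_, fun _ _ h => absurd h hk⟩
      rw [Fintype.sum_sum_type]
      simp only [Sum.elim_inl, Sum.elim_inr, zero_smul, Finset.sum_const_zero, zero_add]
      have h2 := B.sum_repr (x k)
      simp only [B, Basis.mk_apply] at h2
      exact h2.symm
  choose c hcx hc using h1
  refine expand s (vv e u) x c hcx fun J hJ => ?_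
  rw [← eval_poly e s J u]
  refine hzero N _ ⟨N, le_rfl, s, hs, J, hx.trans (Nat.mul_le_mul_left _ ?_), rfl⟩
  refine Nat.card_le_card_of_injective
    (fun k : {k : Fin N // x k ∈ U m} => (⟨k.1, hc k.1 (J k.1) (hJ k.1) k.2⟩ :
      {k : Fin N // (J k).isLeft = true})) fun k k' hkk => ?_
  exact Subtype.ext (congrArg (fun x : {k : Fin N // (J k).isLeft = true} => x.1) hkk)

end alg

end Pool.Agent.Helper91.HM
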