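import Pool.Agent.Helper91.HM.Bound

/-!
Automorphisms of the function field and tensors.
-/

set_option autoImplicit false
set_option linter.unusedSectionVars false

namespace Pool.Agent.Helper91.HM

open Module FF Pool.Agent.W602.GT

variable {K : Type} [Field K] [Algebra ℂ K]

/-- The automorphism `φ` of the field `K`, which may act on the constants by an automorphism of the
field of complex numbers, preserves the pair `(X, Δ)`: it maps the places which belong to `X` to
such places with the same coefficients. -/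
def Preserves (X : Set (Place ℂ K)) (δ : Place ℂ K → ℝ) (φ : K ≃+* K) : Prop :=
  (∃ τ : ℂ ≃+* ℂ, ∀ c, φ (algebraMap ℂ K c) = algebraMap ℂ K (τ c)) ∧
    ∀ P ∈ X, ∀ P' : Place ℂ K, (∀ f, P'.ord (φ f) = P.ord f) → P' ∈ X ∧ δ P' = δ P

variable {φ : K ≃+* K} {τ : ℂ ≃+* ℂ} (h : ∀ c, φ (algebraMap ℂ K c) = algebraMap ℂ K (τ c))

include h in
theorem symm_const (c : ℂ) : φ.symm (algebraMap ℂ K c) = algebraMap ℂ K (τ.symm c) := by
  rw [RingEquiv.symm_apply_eq, h, RingEquiv.apply_symm_apply]

include h in
theorem aeval_conj {I : Type} (u : I → K) (F : MvPolynomial I ℂ) :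
    φ (MvPolynomial.aeval u F) =
      MvPolynomial.aeval (fun i => φ (u i)) (MvPolynomial.map (τ : ℂ →+* ℂ) F) := by
  induction F using MvPolynomial.induction_on with
  | C c =>
    rw [MvPolynomial.map_C, MvPolynomial.aeval_C, MvPolynomial.aeval_C, h]
    rfl
  | add p q hp hq => rw [map_add, map_add, hp, hq, map_add, map_add]
  | mul_X p i hp =>
    rw [map_mul, map_mul, hp, map_mul, map_mul, MvPolynomial.map_X, MvPolynomial.aeval_X,
      MvPolynomial.aeval_X]

include h in
theorem algInd_conj {κ : ℕ} {f : Fin κ → K} (hf : AlgebraicIndependent ℂ f) :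
    AlgebraicIndependent ℂ (fun j => φ.symm (f j)) := by
  rw [algebraicIndependent_iff] at hf ⊢
  intro p hp
  have h1 := aeval_conj h (fun j => φ.symm (f j)) p
  rw [hp, map_zero] at h1
  simp only [RingEquiv.apply_symm_apply] at h1
  have h2 := hf _ h1.symm
  exact (MvPolynomial.map_injective (τ : ℂ →+* ℂ) τ.injective)
    (by rw [h2, map_zero])

/-- the image of a place -/
def mapPlace (P : Place ℂ K) : Place ℂ K where
  ord y := P.ord (φ.symm y)
  ord_zero := by rw [map_zero, P.ord_zero]
  ord_mul {f g} hf hg := by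
    rw [map_mul, P.ord_mul]
    · exact (map_ne_zero φ.symm).2 hf
    · exact (map_ne_zero φ.symm).2 hg
  ord_add {f g} hf hg hfg := by
    rw [map_add]
    refine P.ord_add ((map_ne_zero φ.symm).2 hf) ((map_ne_zero φ.symm).2 hg) ?_
    rw [← map_add]
    exact (map_ne_zero φ.symm).2 hfg
  ord_const {c} hc := by
    rw [symm_const h]
    exact P.ord_const ((map_ne_zero τ.symm).2 hc)
  surj := by
    obtain ⟨t, ht0, ht⟩ := P.surj
    refine ⟨φ t, (map_ne_zero φ).2 ht0, ?_⟩
    rw [RingEquiv.symm_apply_apply]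
    exact ht

theorem mapPlace_ord (P : Place ℂ K) (y : K) : (mapPlace h P).ord y = P.ord (φ.symm y) := rfl

/-- the image of a derivation -/
def cj (D : Derivation ℂ K K) : Derivation ℂ K K :=
  Derivation.mk'
    { toFun := fun y => φ (D (φ.symm y))
      map_add' := fun x y => by rw [map_add, map_add, map_add]
      map_smul' := fun c y => by
        rw [Algebra.smul_def, map_mul, symm_const h, ← Algebra.smul_def, Derivation.map_smul,
          Algebra.smul_def, map_mul, h, RingEquiv.apply_symm_apply, ← Algebra.smul_def]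
        rfl }
    (fun x y => by
      change φ (D (φ.symm (x * y))) = x • φ (D (φ.symm y)) + y • φ (D (φ.symm x))
      rw [map_mul, Derivation.leibniz, map_add, smul_eq_mul, smul_eq_mul, map_mul, map_mul,
        RingEquiv.apply_symm_apply, RingEquiv.apply_symm_apply, smul_eq_mul, smul_eq_mul])

theorem cj_apply (D : Derivation ℂ K K) (y : K) : cj h D y = φ (D (φ.symm y)) := rfl

theorem cj_smul (c : K) (D : Derivation ℂ K K) : cj h (c • D) = φ c • cj h D := by
  ext y
  rw [Derivation.smul_apply, cj_apply, cj_apply, Derivation.smul_apply, smul_eq_mul, map_mul,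
    smul_eq_mul]

theorem cj_add (D D' : Derivation ℂ K K) : cj h (D + D') = cj h D + cj h D' := by
  ext y
  rw [Derivation.add_apply, cj_apply, cj_apply, cj_apply, Derivation.add_apply, map_add]

/-- the image of derivations as an equivalence -/
def cjE : Derivation ℂ K K ≃+ Derivation ℂ K K where
  toFun := cj h
  invFun := cj (φ := φ.symm) (τ := τ.symm) (symm_const h)
  left_inv D := by
    ext y
    rw [cj_apply, cj_apply, RingEquiv.symm_symm, RingEquiv.symm_apply_apply,
      RingEquiv.symm_apply_apply]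
  right_inv D := by
    ext y
    rw [cj_apply, cj_apply, RingEquiv.symm_symm, RingEquiv.apply_symm_apply,
      RingEquiv.apply_symm_apply]
  map_add' := cj_add h

/-- the pull-back of a tensor -/
def pullT {N : ℕ} (s : MultilinearMap K (fun _ : Fin N => Derivation ℂ K K) K) :
    MultilinearMap K (fun _ : Fin N => Derivation ℂ K K) K where
  toFun x := φ.symm (s fun i => cj h (x i))
  map_update_add' := by
    intro inst x i v w
    have h1 : ∀ u, (fun j => cj h (Function.update x i u j)) =
        Function.update (fun j => cj h (x j)) i (cj h u) := by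
      intro u
      funext j
      by_cases hj : j = i
      · subst hj
        rw [Function.update_self, Function.update_self]
      · rw [Function.update_of_ne hj, Function.update_of_ne hj]
    rw [h1, h1, h1, cj_add, s.map_update_add, map_add]
  map_update_smul' := by
    intro inst x i c v
    have h1 : ∀ u, (fun j => cj h (Function.update x i u j)) =
        Function.update (fun j => cj h (x j)) i (cj h u) := by
      intro u
      funext j
      by_cases hj : j = i
      · subst hj
        rw [Function.update_self, Function.update_self]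
      · rw [Function.update_of_ne hj, Function.update_of_ne hj]
    rw [h1, h1, cj_smul, s.map_update_smul, smul_eq_mul, map_mul, RingEquiv.symm_apply_apply,
      smul_eq_mul]

theorem pullT_apply {N : ℕ} (s : MultilinearMap K (fun _ : Fin N => Derivation ℂ K K) K)
    (x : Fin N → Derivation ℂ K K) : pullT h s x = φ.symm (s fun i => cj h (x i)) := rfl

theorem divisorial_map {n : ℕ} {P : Place ℂ K} (hP : Divisorial n P) :
    Divisorial n (mapPlace h P) := by
  obtain ⟨u, hu⟩ := hP
  refine ⟨fun i => φ (u i), fun F hF => ?_⟩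
  have h1 : MvPolynomial.map (τ.symm : ℂ →+* ℂ) F ≠ 0 := fun h0 => hF
    ((MvPolynomial.map_injective (τ.symm : ℂ →+* ℂ) τ.symm.injective) (by rw [h0, map_zero]))
  have h2 := aeval_conj h u (MvPolynomial.map (τ.symm : ℂ →+* ℂ) F)
  rw [MvPolynomial.map_map] at h2
  have h3 : (τ : ℂ →+* ℂ).comp (τ.symm : ℂ →+* ℂ) = RingHom.id ℂ := by
    ext c
    simp
  rw [h3, MvPolynomial.map_id] at h2
  rw [← h2]
  refine ⟨(map_ne_zero φ).2 (hu _ h1).1, ?_⟩
  rw [mapPlace_ord, RingEquiv.symm_apply_apply]
  exact (hu _ h1).2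

theorem reg_map {P : Place ℂ K} {y : K} : (mapPlace h P).Reg y ↔ P.Reg (φ.symm y) := by
  change (y = 0 ∨ _) ↔ (φ.symm y = 0 ∨ _)
  rw [mapPlace_ord, map_eq_zero_iff _ φ.symm.injective]

theorem derReg_map {P : Place ℂ K} {D : Derivation ℂ K K} (hD : DerReg P D) :
    DerReg (mapPlace h P) (cj h D) := by
  intro y hy
  rw [reg_map] at hy ⊢
  rw [cj_apply, RingEquiv.symm_apply_apply]
  exact hD _ hy

theorem derLog_map {P : Place ℂ K} {D : Derivation ℂ K K} (hD : DerLog P D) :
    DerLog (mapPlace h P) (cj h D) := by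
  intro y
  rw [reg_map, map_div₀, cj_apply, RingEquiv.symm_apply_apply]
  exact hD _

theorem isTensor_pull {n : ℕ} {X : Set (Place ℂ K)} {δ : Place ℂ K → ℝ}
    (hX : ∀ P ∈ X, ∀ P' : Place ℂ K, (∀ f, P'.ord (φ f) = P.ord f) → P' ∈ X ∧ δ P' = δ P)
    (hδ : ∀ P ∈ X, 0 ≤ δ P) {N : ℕ}
    {s : MultilinearMap K (fun _ : Fin N => Derivation ℂ K K) K} (hs : IsTensor n X δ s) :
    IsTensor n X δ (pullT h s) := by
  intro P hP hdiv D hD
  obtain ⟨h1, h2⟩ := hX P hP (mapPlace h P) fun f => by
    rw [mapPlace_ord, RingEquiv.symm_apply_apply]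
  have h3 := hs (mapPlace h P) h1 (divisorial_map h hdiv) (fun j => cj h (D j))
    fun j => derReg_map h (hD j)
  rw [pullT_apply]
  rcases h3 with h3 | h3
  · left
    rw [h3, map_zero]
  · right
    rw [mapPlace_ord, h2] at h3
    refine le_trans ?_ h3
    rw [neg_le_neg_iff]
    refine mul_le_mul_of_nonneg_right ?_ (hδ P hP)
    have h4 : Nat.card {j : Fin N // ¬ DerLog (mapPlace h P) (cj h (D j))} ≤
        Nat.card {j : Fin N // ¬ DerLog P (D j)} := by
      refine Nat.card_le_card_of_injective
        (fun j => (⟨j.1, fun hlog => j.2 (derLog_map h hlog)⟩ : {j : Fin N // ¬ DerLog P (D j)}))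
        fun j j' hjj => ?_
      exact Subtype.ext (congrArg (fun x : {j : Fin N // ¬ DerLog P (D j)} => x.1) hjj)
    exact_mod_cast h4

theorem isMovable_pull {n : ℕ} {X : Set (Place ℂ K)} {δ : Place ℂ K → ℝ}
    (hX : ∀ P ∈ X, ∀ P' : Place ℂ K, (∀ f, P'.ord (φ f) = P.ord f) → P' ∈ X ∧ δ P' = δ P)
    (hδ : ∀ P ∈ X, 0 ≤ δ P) {κ N : ℕ}
    {s : MultilinearMap K (fun _ : Fin N => Derivation ℂ K K) K} (hs : IsMovable n X δ κ s) :
    IsMovable n X δ κ (pullT h s) := by
  obtain ⟨h1, f, hf, hfs⟩ := hs
  refine ⟨isTensor_pull h hX hδ h1, fun j => φ.symm (f j), algInd_conj h hf, fun j => ?_⟩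
  have h2 : φ.symm (f j) • pullT h s = pullT h (f j • s) := by
    ext x
    rw [smul_apply, pullT_apply, pullT_apply, smul_apply, smul_eq_mul, smul_eq_mul, map_mul]
  rw [h2]
  exact isTensor_pull h hX hδ (hfs j)

end Pool.Agent.Helper91.HM
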