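import Pool.Agent.Helper91.HM.Geo2

/-!
Semistable orbifold tensor differentials from sections of multiples of the log canonical divisor.
-/

set_option autoImplicit false
set_option linter.unusedSectionVars false

namespace Pool.Agent.Helper91.HM

open Module FF Pool.Agent.W602.GT Pool.Agent.W603.LV Pool.Agent.TH143.GT Pool.Agent.Y220.OG
  Pool.Agent.Helper12.BL

section tens

variable {K V : Type} [Field K] [AddCommGroup V] [Module K V] {n : ℕ}

/-- the blocks of a family of vectors -/
def blk {m : ℕ} (E : Fin (m * n) → V) (j : Fin m) : Fin n → V :=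
  fun i => E (finProdFinEquiv (j, i))

theorem blk_update_same {m : ℕ} (E : Fin (m * n) → V) (j : Fin m) (i : Fin n) (v : V) :
    blk (Function.update E (finProdFinEquiv (j, i)) v) j = Function.update (blk E j) i v := by
  funext i'
  rw [blk, Function.update_apply, Function.update_apply]
  by_cases h : i' = i
  · rw [if_pos h, if_pos (by rw [h])]
  · rw [if_neg h, if_neg (by
      rw [finProdFinEquiv.apply_eq_iff_eq, Prod.mk.injEq]
      exact fun h' => h h'.2)]
    rfl

theorem blk_update_ne {m : ℕ} (E : Fin (m * n) → V) {j j' : Fin m} (hj : j' ≠ j) (i : Fin n)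
    (v : V) : blk (Function.update E (finProdFinEquiv (j, i)) v) j' = blk E j' := by
  funext i'
  rw [blk, Function.update_apply, if_neg (by
      rw [finProdFinEquiv.apply_eq_iff_eq, Prod.mk.injEq]
      exact fun h' => hj h'.1)]
  rfl

/-- the product of the determinants of the blocks, with a factor `c` -/
noncomputable def tens (b : Basis (Fin n) K V) (m : ℕ) (c : K) :
    MultilinearMap K (fun _ : Fin (m * n) => V) K where
  toFun E := c * ∏ j : Fin m, b.det (blk E j)
  map_update_add' := by
    intro inst E x v w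
    obtain ⟨⟨j, i⟩, rfl⟩ := finProdFinEquiv.surjective x
    have hinst : inst = instDecidableEqFin (m * n) := Subsingleton.elim _ _
    subst hinst
    have h1 : ∀ u, ∏ j' : Fin m, b.det (blk (Function.update E (finProdFinEquiv (j, i)) u) j') =
        b.det (Function.update (blk E j) i u) * ∏ j' ∈ Finset.univ.erase j, b.det (blk E j') := by
      intro u
      rw [← Finset.mul_prod_erase _ _ (Finset.mem_univ j), blk_update_same]
      congr 1
      refine Finset.prod_congr rfl fun j' hj' => ?_
      rw [blk_update_ne _ (Finset.ne_of_mem_erase hj')]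
    rw [h1, h1, h1, AlternatingMap.map_update_add]
    ring
  map_update_smul' := by
    intro inst E x r v
    obtain ⟨⟨j, i⟩, rfl⟩ := finProdFinEquiv.surjective x
    have hinst : inst = instDecidableEqFin (m * n) := Subsingleton.elim _ _
    subst hinst
    have h1 : ∀ u, ∏ j' : Fin m, b.det (blk (Function.update E (finProdFinEquiv (j, i)) u) j') =
        b.det (Function.update (blk E j) i u) * ∏ j' ∈ Finset.univ.erase j, b.det (blk E j') := by
      intro u
      rw [← Finset.mul_prod_erase _ _ (Finset.mem_univ j), blk_update_same]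
      congr 1
      refine Finset.prod_congr rfl fun j' hj' => ?_
      rw [blk_update_ne _ (Finset.ne_of_mem_erase hj')]
    rw [h1, h1, AlternatingMap.map_update_smul, smul_eq_mul, smul_eq_mul]
    ring

theorem tens_apply (b : Basis (Fin n) K V) (m : ℕ) (c : K) (E : Fin (m * n) → V) :
    tens b m c E = c * ∏ j : Fin m, b.det (blk E j) := rfl

end tens

section

variable {K : Type} [Field K] [Algebra ℂ K] {n : ℕ}

theorem pluri_basis {m : ℕ} {ω : (Fin n → Derivation ℂ K K) → K} (hω : IsPluri m ω)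
    (b : Basis (Fin n) K (Derivation ℂ K K)) (D : Fin n → Derivation ℂ K K) :
    ω D = b.det D ^ m * ω b := by
  have h1 : D = fun i => ∑ j, (b.toMatrix D).transpose i j • b j := by
    funext i
    exact (b.sum_repr (D i)).symm
  conv_lhs => rw [h1]
  rw [hω, Matrix.det_transpose, Basis.det_apply]

theorem tens_pow {m : ℕ} {ω : (Fin n → Derivation ℂ K K) → K} (hω : IsPluri m ω)
    (b : Basis (Fin n) K (Derivation ℂ K K)) (E : Fin (m * n) → Derivation ℂ K K) :
    tens b m (ω b) E ^ m = ∏ j : Fin m, ω (blk E j) := by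
  rw [tens_apply, mul_pow, ← Finset.prod_pow]
  have h1 : ∀ j : Fin m, ω (blk E j) = b.det (blk E j) ^ m * ω b := fun j => pluri_basis hω b _
  rw [Finset.prod_congr rfl fun j _ => h1 j, Finset.prod_mul_distrib, Finset.prod_const,
    Finset.card_univ, Fintype.card_fin]
  ring

theorem log_est [Algebra.EssFiniteType ℂ K] (hn : Algebra.trdeg ℂ K = n) {m : ℕ} {δ : ℝ}
    {ω : (Fin n → Derivation ℂ K K) → K} (hω : IsPluri m ω) {P : Place ℂ K} (hP : Divisorial n P)
    (h : ∀ D : Fin n → Derivation ℂ K K, (∀ i, DerReg P (D i)) → Gr P (-(m * δ)) (ω D))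
    {D : Fin n → Derivation ℂ K K} (hD : ∀ i, DerLog P (D i)) : Gr P (m * (1 - δ)) (ω D) := by
  classical
  obtain ⟨y, E, i0, hb, hE, hi0, hyr, hpres⟩ := Pool.Agent.W240.PG.Frame.main
    Pool.Agent.W762.PG.main ℂ K n hn (fun y hy => fin_adjoin y hy) P hP
  have hDual : Dual y E := ⟨hb, hE⟩
  have hy0 : y i0 ≠ 0 := by
    intro h0
    rw [h0, P.ord_zero] at hi0
    omega
  obtain ⟨A, hA⟩ : ∃ A : Matrix (Fin n) (Fin n) K, A = Matrix.of fun i l =>
    if l = i0 then D i (y i0) / y i0 else D i (y l) := ⟨_, rfl⟩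
  have h1 : D = fun i => ∑ l, (A.updateCol i0 (y i0 • fun i => A i i0)) i l • E l := by
    funext i
    conv_lhs => rw [hDual.expand (D i)]
    refine Finset.sum_congr rfl fun l _ => ?_
    congr 1
    rw [Matrix.updateCol_apply]
    split_ifs with hl
    · rw [hl, Pi.smul_apply, hA, Matrix.of_apply, if_pos rfl, smul_eq_mul, mul_div_cancel₀ _ hy0]
    · rw [hA, Matrix.of_apply, if_neg hl]
  have h2 : (A.updateCol i0 (y i0 • fun i => A i i0)).det = y i0 * A.det := by
    rw [Matrix.det_updateCol_smul]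
    congr 1
    have h3 : A.updateCol i0 (fun i => A i i0) = A := Matrix.updateCol_eq_self A i0
    rw [h3]
  have h3 : Gr P 0 A.det := by
    rw [Matrix.det_apply']
    refine Gr.sum _ _ fun σ _ => ?_
    have h4 : Gr P 0 (((Equiv.Perm.sign σ : ℤˣ) : ℤ) : K) := by
      have := Gr.const (P := P) ((((Equiv.Perm.sign σ : ℤˣ) : ℤ) : ℂ))
      rwa [map_intCast] at this
    have h5 : ∀ i l, Gr P 0 (A i l) := by
      intro i l
      rw [hA, Matrix.of_apply]
      split_ifs with hl
      · have h6 : P.Reg (D i (y i0) / y i0) := hD i _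
        rcases h6 with h6 | h6
        · exact Or.inl h6
        · exact Or.inr (by exact_mod_cast h6)
      · have h6 : Ge P 0 (D i (y l)) := ge_der_log (hD i) (hyr l)
        rcases h6 with h6 | h6
        · exact Or.inl h6
        · exact Or.inr (by exact_mod_cast h6)
    have h6 := h4.mul (Gr.prod Finset.univ (fun i => A (σ i) i) (fun _ => (0 : ℝ))
      fun i _ => h5 _ _)
    simpa using h6
  have h4 : Gr P 1 (y i0) := Or.inr (by rw [hi0]; simp)
  have hpow : ∀ {c : ℝ} {f : K}, Gr P c f → Gr P (m * c) (f ^ m) := by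
    intro c f hf
    have h := Gr.prod (P := P) (Finset.range m) (fun _ => f) (fun _ => c) fun _ _ => hf
    simpa using h
  have h5 : ω D = (y i0 * A.det) ^ m * ω E := by
    conv_lhs => rw [h1]
    rw [hω, h2]
  rw [h5]
  have h6 := (hpow (h4.mul h3)).mul (h E hpres)
  refine Gr.mono (le_of_eq ?_) h6
  ring

theorem tens_isTensor [Algebra.EssFiniteType ℂ K] (hn : Algebra.trdeg ℂ K = n)
    {X : Set (Place ℂ K)} {δ : Place ℂ K → ℝ}
    (hδ : ∀ P ∈ X, 0 ≤ δ P ∧ δ P ≤ 1) {m : ℕ} (hm : 0 < m)
    {ω : (Fin n → Derivation ℂ K K) → K} (hω : IsSection n X δ m ω)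
    (b : Basis (Fin n) K (Derivation ℂ K K)) : IsTensor n X δ (tens b m (ω b)) := by
  classical
  intro P hP hdiv E hE
  change Gr P _ _
  refine Gr.root hm ?_
  rw [tens_pow hω.1]
  have h1 : ∀ j : Fin m, Gr P (if ∀ i, DerLog P (blk E j i) then 0 else -(m * δ P))
      (ω (blk E j)) := by
    intro j
    split_ifs with hlog
    · refine Gr.mono ?_ (log_est hn hω.1 hdiv (fun D hD => hω.2 P hP hdiv D hD) hlog)
      have h2 := (hδ P hP).2
      have h3 : (0 : ℝ) ≤ m := Nat.cast_nonneg m
      nlinarith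
    · exact hω.2 P hP hdiv _ fun i => hE _
  have h2 := Gr.prod Finset.univ _ _ fun j _ => h1 j
  refine Gr.mono ?_ h2
  rw [← Finset.sum_filter_add_sum_filter_not Finset.univ (fun j => ∀ i, DerLog P (blk E j i)),
    Finset.sum_congr rfl (g := fun _ => (0 : ℝ)) (fun j hj => if_pos (Finset.mem_filter.1 hj).2),
    Finset.sum_congr rfl (g := fun _ => (-(m * δ P) : ℝ))
      (fun j hj => if_neg (Finset.mem_filter.1 hj).2),
    Finset.sum_const_zero, zero_add, Finset.sum_const, nsmul_eq_mul]
  have h3 : (Finset.univ.filter fun j : Fin m => ¬ ∀ i, DerLog P (blk E j i)).card ≤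
      Nat.card {x : Fin (m * n) // ¬ DerLog P (E x)} := by
    rw [Nat.card_eq_fintype_card, Fintype.card_subtype]
    have h4 : (Finset.univ.filter fun j : Fin m => ¬ ∀ i, DerLog P (blk E j i)) ⊆
        (Finset.univ.filter fun x => ¬ DerLog P (E x)).image
          (fun x => (finProdFinEquiv.symm x).1) := by
      intro j hj
      have h5 := (Finset.mem_filter.1 hj).2
      push Not at h5
      obtain ⟨i, hi⟩ := h5
      refine Finset.mem_image.2 ⟨finProdFinEquiv (j, i), Finset.mem_filter.2
        ⟨Finset.mem_univ _, hi⟩, ?_⟩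
      rw [Equiv.symm_apply_apply]
    exact (Finset.card_le_card h4).trans Finset.card_image_le
  have h4 : ((Finset.univ.filter fun j : Fin m => ¬ ∀ i, DerLog P (blk E j i)).card : ℝ) ≤
      Nat.card {x : Fin (m * n) // ¬ DerLog P (E x)} := by exact_mod_cast h3
  have h5 : 0 ≤ (m : ℝ) * δ P := mul_nonneg (Nat.cast_nonneg m) (hδ P hP).1
  nlinarith

/-- Pairs of Kodaira dimension at least `κ` have semistable tensors. -/
theorem conv [Algebra.EssFiniteType ℂ K] (hn : Algebra.trdeg ℂ K = n) (hn0 : 0 < n)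
    {X : Set (Place ℂ K)} {δ : Place ℂ K → ℝ}
    (hδ : ∀ P ∈ X, 0 ≤ δ P ∧ δ P ≤ 1) {κ : ℕ} (hκ : KodairaGe n X δ κ) :
    ∃ N : ℕ, 0 < N ∧ ∃ s : MultilinearMap K (fun _ : Fin N => Derivation ℂ K K) K,
      Semistable n s ∧ IsMovable n X δ κ s := by
  classical
  obtain ⟨m, hm, ω, hω, D, hD0, hD⟩ := hκ
  obtain ⟨e, he, hes⟩ := exists_basis (K := K) hn
  let b := Basis.mk he hes.ge
  have h1 : ∀ j, ω j D = b.det D ^ m * ω j b := fun j => pluri_basis (hω j).1 b D
  have h2 : b.det D ^ m ≠ 0 := by
    intro h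
    rw [h1, h, zero_mul] at hD0
    exact hD0 rfl
  have h3 : ω 0 b ≠ 0 := by
    intro h
    rw [h1, h, mul_zero] at hD0
    exact hD0 rfl
  refine ⟨m * n, Nat.mul_pos hm hn0, tens b m (ω 0 b), fun b' a hb' hbs ha => ?_,
    tens_isTensor hn hδ hm (hω 0) b, fun j => ω j.succ b / ω 0 b, ?_, fun j => ?_⟩
  · refine ⟨fun x => (finProdFinEquiv.symm x).2, ?_, ?_⟩
    · rw [tens_apply]
      refine mul_ne_zero h3 (Finset.prod_ne_zero_iff.2 fun j _ => ?_)
      have h5 : blk (fun k : Fin (m * n) => b' (finProdFinEquiv.symm k).2) j = b' := by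
        funext i
        rw [blk, Equiv.symm_apply_apply]
      rw [h5]
      exact ((Basis.is_basis_iff_det b).1 ⟨hb', hbs⟩).ne_zero
    · have h5 : ∑ k : Fin (m * n), a (finProdFinEquiv.symm k).2 = 0 := by
        rw [← Equiv.sum_comp finProdFinEquiv]
        simp only [Equiv.symm_apply_apply]
        rw [Fintype.sum_prod_type]
        simp [ha]
      rw [h5]
  · have h4 : (fun j : Fin κ => ω j.succ b / ω 0 b) = fun j => ω j.succ D / ω 0 D := by
      funext j
      rw [h1, h1, mul_div_mul_left _ _ h2]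
    rw [h4]
    exact hD
  · have h4 : (ω j.succ b / ω 0 b) • tens b m (ω 0 b) = tens b m (ω j.succ b) := by
      ext E
      rw [smul_apply, tens_apply, tens_apply, smul_eq_mul, ← mul_assoc, div_mul_cancel₀ _ h3]
    rw [h4]
    exact tens_isTensor hn hδ hm (hω j.succ) b

end

end Pool.Agent.Helper91.HM
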