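import Pool.Agent.Helper12.BL.Loc

/-!
Pairs, sections of multiples of the log canonical divisor, and orbifold tensor differentials.
-/

set_option autoImplicit false

namespace Pool.Agent.Helper91.HM

open Module FF Pool.Agent.W602.GT

variable {K : Type} [Field K] [Algebra ℂ K]

/-- `ω` is a section of `m (K_X + Δ)`, where `n` is the dimension of `X`, `X` is the set of places
of the function field `K` which belong to `X`, and `Δ` has the coefficient `δ P` at the prime
divisor `P`: an `m`-canonical form whose pole at each prime divisor `P` in `X` has order at most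
`m δ P`. -/
def IsSection (n : ℕ) (X : Set (Place ℂ K)) (δ : Place ℂ K → ℝ) (m : ℕ)
    (ω : (Fin n → Derivation ℂ K K) → K) : Prop :=
  IsPluri m ω ∧ ∀ P ∈ X, Divisorial n P → ∀ D : Fin n → Derivation ℂ K K,
    (∀ i, DerReg P (D i)) → ω D = 0 ∨ -(m * δ P) ≤ (P.ord (ω D) : ℝ)

/-- The Kodaira dimension of `(X, Δ)` is at least `κ`: for some `m > 0` there are sections of
`m (K_X + Δ)` whose quotients contain `κ` algebraically independent functions. -/
def KodairaGe (n : ℕ) (X : Set (Place ℂ K)) (δ : Place ℂ K → ℝ) (κ : ℕ) : Prop :=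
  ∃ m : ℕ, 0 < m ∧ ∃ ω : Fin (κ + 1) → (Fin n → Derivation ℂ K K) → K,
    (∀ j, IsSection n X δ m (ω j)) ∧
    ∃ D, ω 0 D ≠ 0 ∧ AlgebraicIndependent ℂ (fun i : Fin κ => ω i.succ D / ω 0 D)

/-- `s` is an orbifold tensor differential of degree `N` on the pair `(X, Δ)`: a `K`-multilinear
function of `N` rational vector fields (no symmetry is required) such that, at each prime divisor
`P` of `X`, its value on vector fields which are regular at `P` and of which `q` are not
logarithmic at `P` has a pole of order at most `q δ P`. -/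
def IsTensor (n : ℕ) (X : Set (Place ℂ K)) (δ : Place ℂ K → ℝ) {N : ℕ}
    (s : MultilinearMap K (fun _ : Fin N => Derivation ℂ K K) K) : Prop :=
  ∀ P ∈ X, Divisorial n P → ∀ D : Fin N → Derivation ℂ K K, (∀ j, DerReg P (D j)) →
    s D = 0 ∨ -((Nat.card {j : Fin N // ¬ DerLog P (D j)} : ℝ) * δ P) ≤ (P.ord (s D) : ℝ)

/-- The Iitaka dimension of the tensor `s` on the pair `(X, Δ)` is at least `κ`: there are
algebraically independent functions `f 1, ..., f κ` such that `s, f 1 s, ..., f κ s` are orbifold
tensor differentials on `(X, Δ)`. -/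
def IsMovable (n : ℕ) (X : Set (Place ℂ K)) (δ : Place ℂ K → ℝ) (κ : ℕ) {N : ℕ}
    (s : MultilinearMap K (fun _ : Fin N => Derivation ℂ K K) K) : Prop :=
  IsTensor n X δ s ∧ ∃ f : Fin κ → K, AlgebraicIndependent ℂ f ∧ ∀ j, IsTensor n X δ (f j • s)

/-- The weighted flag which is given by the rational vector fields `b j` and their weights `a j`
destabilises the tensor `s`: the sum of the weights of `b (J 0), ..., b (J (N - 1))` is negative
whenever the value of `s` on them is nonzero. -/
def Destabilises {n N : ℕ} (b : Fin n → Derivation ℂ K K) (a : Fin n → ℤ)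
    (s : MultilinearMap K (fun _ : Fin N => Derivation ℂ K K) K) : Prop :=
  ∀ J : Fin N → Fin n, s (fun k => b (J k)) ≠ 0 → ∑ k, a (J k) < 0

/-- The tensor `s` on the rational vector fields is semistable over the function field `K`, `n` being
the dimension: for every basis `b` of the rational vector fields over `K` and all integral weights
`a` with sum zero some coordinate `s (b (J 0), ..., b (J (N - 1)))` with weight
`a (J 0) + ... + a (J (N - 1)) ≥ 0` is nonzero. -/
def Semistable (n : ℕ) {N : ℕ} (s : MultilinearMap K (fun _ : Fin N => Derivation ℂ K K) K) :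
    Prop :=
  ∀ (b : Fin n → Derivation ℂ K K) (a : Fin n → ℤ), LinearIndependent K b →
    Submodule.span K (Set.range b) = ⊤ → ∑ j, a j = 0 →
      ∃ J : Fin N → Fin n, s (fun k => b (J k)) ≠ 0 ∧ 0 ≤ ∑ k, a (J k)

end Pool.Agent.Helper91.HM
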