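import Pool.Agent.Helper91.HM.Act

/-!
The generic matrix, and the ideal generated by the normalised coordinates of the tensors.
-/

set_option autoImplicit false
set_option linter.unusedSectionVars false

namespace Pool.Agent.Helper91.HM

open MvPolynomial

section

variable {K : Type} [Field K] {n : ℕ} {ι : Type} {N : ι → ℕ}

/-- the index set of the coordinates -/
abbrev Om (n : ℕ) {ι : Type} (N : ι → ℕ) : Type := Σ i, (Fin (N i) → Fin n)

/-- the field of rational functions in the entries of a matrix -/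
abbrev RF (n : ℕ) (K : Type) [Field K] : Type := FractionRing (MvPolynomial (Fin n × Fin n) K)

/-- the generic matrix -/
noncomputable def gen (n : ℕ) (K : Type) [Field K] :
    Matrix (Fin n) (Fin n) (MvPolynomial (Fin n × Fin n) K) :=
  Matrix.mvPolynomialX (Fin n) (Fin n) K

/-- the coordinates with respect to the generic matrix -/
noncomputable def fco (T : ∀ i, (Fin (N i) → Fin n) → K) (ω : Om n N) :
    MvPolynomial (Fin n × Fin n) K :=
  act (gen n K) (fun I => C (T ω.1 I)) ω.2

/-- the normalised coordinates -/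
noncomputable def uco (T : ∀ i, (Fin (N i) → Fin n) → K) (ω : Om n N) : RF n K :=
  (algebraMap _ (RF n K) (fco T ω)) ^ n /
    (algebraMap _ (RF n K) (gen n K).det) ^ (N ω.1)

theorem det_gen_ne : (gen n K).det ≠ 0 := Matrix.det_mvPolynomialX_ne_zero (Fin n) K

theorem det_gen_ne' : algebraMap _ (RF n K) (gen n K).det ≠ 0 := by
  intro h
  rw [← map_zero (algebraMap (MvPolynomial (Fin n × Fin n) K) (RF n K))] at h
  exact det_gen_ne (IsFractionRing.injective _ _ h)

/-- evaluation of the generic matrix at a real matrix -/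
noncomputable def ev [Algebra ℝ K] (g : Matrix (Fin n) (Fin n) ℝ) :
    MvPolynomial (Fin n × Fin n) K →+* K :=
  (MvPolynomial.eval fun p => algebraMap ℝ K (g p.1 p.2))

theorem ev_gen [Algebra ℝ K] (g : Matrix (Fin n) (Fin n) ℝ) :
    (gen n K).map (ev g) = g.map (algebraMap ℝ K) := by
  ext i j
  simp [gen, ev]

theorem ev_det [Algebra ℝ K] (g : Matrix (Fin n) (Fin n) ℝ) (hg : g.det = 1) :
    ev g (gen n K).det = 1 := by
  rw [RingHom.map_det]
  have h1 : (ev g).mapMatrix (gen n K) = g.map (algebraMap ℝ K) := ev_gen g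
  rw [h1]
  have h2 := (RingHom.map_det (algebraMap ℝ K) g).symm
  rw [hg, map_one] at h2
  exact h2

theorem ev_fco [Algebra ℝ K] (g : Matrix (Fin n) (Fin n) ℝ)
    (T : ∀ i, (Fin (N i) → Fin n) → K) (ω : Om n N) :
    ev g (fco T ω) = act (g.map (algebraMap ℝ K)) (T ω.1) ω.2 := by
  rw [fco, ← act_map (ev g), ev_gen]
  congr 1
  funext I
  simp [ev]

variable [Algebra ℝ K]

/-- all invariants vanish on the products of the tensors -/
def NoInv (T : ∀ i, (Fin (N i) → Fin n) → K) : Prop :=
  ∀ (Q : Type) [Fintype Q] [DecidableEq Q] [Nonempty Q] (ν : Q → ι)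
    (p : ((Σ q, Fin (N (ν q))) → Fin n) → ℝ), SLInv p →
      ∑ I, algebraMap ℝ K (p I) * wordT T ν I = 0

theorem one_notMem (hn : 0 < n) (T : ∀ i, (Fin (N i) → Fin n) → K) (hT : NoInv T) :
    (1 : RF n K) ∉ Submodule.span K
      (Set.range fun z : (Σ r : ℕ, Fin (r + 1) → Om n N) => ∏ k, uco T (z.2 k)) := by
  classical
  intro h1
  obtain ⟨c, hc⟩ := Finsupp.mem_span_range_iff_exists_finsupp.1 h1
  rw [Finsupp.sum] at hc
  obtain ⟨D, hD⟩ : ∃ D, D = algebraMap _ (RF n K) (gen n K).det := ⟨_, rfl⟩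
  have hD0 : D ≠ 0 := hD ▸ det_gen_ne'
  obtain ⟨e, he⟩ : ∃ e : (Σ r : ℕ, Fin (r + 1) → Om n N) → ℕ,
      ∀ z, e z = ∑ k, N (z.2 k).1 := ⟨_, fun _ => rfl⟩
  obtain ⟨E, hE⟩ : ∃ E, E = ∑ z ∈ c.support, e z := ⟨_, rfl⟩
  have heE : ∀ z ∈ c.support, e z ≤ E := fun z hz => by
    rw [hE]
    exact Finset.single_le_sum (f := e) (fun _ _ => Nat.zero_le _) hz
  -- the polynomial identity
  have hpoly : ∑ z ∈ c.support, C (c z) * ((gen n K).det ^ (E - e z) *
      ∏ k, fco T (z.2 k) ^ n) = (gen n K).det ^ E := by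
    apply IsFractionRing.injective _ (RF n K)
    rw [map_sum, map_pow, ← hD, ← mul_one (D ^ E), ← hc, Finset.mul_sum]
    refine Finset.sum_congr rfl fun z hz => ?_
    rw [map_mul, map_mul, map_pow, map_prod, ← hD, Algebra.smul_def]
    have h2 : ∏ k, uco T (z.2 k) = (∏ k, algebraMap _ (RF n K) (fco T (z.2 k) ^ n)) / D ^ e z := by
      rw [he, ← Finset.prod_pow_eq_pow_sum, ← Finset.prod_div_distrib]
      refine Finset.prod_congr rfl fun k _ => ?_
      rw [uco, hD, map_pow]
    have h3 : algebraMap (MvPolynomial (Fin n × Fin n) K) (RF n K) (C (c z)) = algebraMap K (RF n K) (c z) := by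
      rw [IsScalarTower.algebraMap_apply K (MvPolynomial (Fin n × Fin n) K) (RF n K)]
      rfl
    have h4 : D ^ E = D ^ (E - e z) * D ^ e z := by
      rw [← pow_add, Nat.sub_add_cancel (heE z hz)]
    rw [h2, h3, h4]
    field_simp
  -- evaluation
  have heval : ∀ g : Matrix (Fin n) (Fin n) ℝ, g.det = 1 → ∑ z ∈ c.support, c z *
      ∏ k, act (g.map (algebraMap ℝ K)) (T (z.2 k).1) (z.2 k).2 ^ n = 1 := by
    intro g hg
    have h2 := congrArg (ev g) hpoly
    rw [map_sum, map_pow, ev_det g hg, one_pow] at h2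
    rw [← h2]
    refine Finset.sum_congr rfl fun z _ => ?_
    rw [map_mul, map_mul, map_pow, ev_det g hg, one_pow, one_mul, map_prod]
    congr 1
    · simp [ev]
    · refine Finset.prod_congr rfl fun k _ => ?_
      rw [map_pow, ev_fco]
  obtain ⟨φ, p, hp, hne⟩ := reynolds (n := n) (K := K) (Φ := {z // z ∈ c.support})
    (fun z => Σ q : Fin (z.1.1 + 1) × Fin n, Fin (N (z.1.2 q.1).1))
    (fun z => wordT T fun q : Fin (z.1.1 + 1) × Fin n => (z.1.2 q.1).1)
    (fun z x => (z.1.2 x.1.1).2 x.2)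
    (fun z => c z.1) (by
      intro g hg
      rw [← heval g hg, ← Finset.sum_coe_sort c.support]
      refine Finset.sum_congr rfl fun z _ => ?_
      congr 1
      have h3 := act_word T (fun q : Fin (z.1.1 + 1) × Fin n => (z.1.2 q.1).1)
        (g.map (algebraMap ℝ K)) (fun x => (z.1.2 x.1.1).2 x.2)
      have h4 : ∏ q : Fin (z.1.1 + 1) × Fin n,
          act (g.map (algebraMap ℝ K)) (T (z.1.2 q.1).1) (fun l => (z.1.2 q.1).2 l) =
          ∏ k, act (g.map (algebraMap ℝ K)) (T (z.1.2 k).1) (z.1.2 k).2 ^ n := by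
        rw [Fintype.prod_prod_type]
        refine Finset.prod_congr rfl fun k _ => ?_
        have h5 := Finset.prod_const (s := (Finset.univ : Finset (Fin n)))
          (act (g.map (algebraMap ℝ K)) (T (z.1.2 k).1) (fun l => (z.1.2 k).2 l))
        rw [Finset.card_univ, Fintype.card_fin] at h5
        exact h5
      rw [h4] at h3
      rw [← h3]
      simp only [act, Matrix.map_apply, map_prod])
  have : Nonempty (Fin (φ.1.1 + 1) × Fin n) := ⟨(0, ⟨0, hn⟩)⟩
  exact hne (hT (Fin (φ.1.1 + 1) × Fin n) (fun q => (φ.1.2 q.1).1) p hp)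

/-- the algebra generated by the normalised coordinates -/
noncomputable def Rco (T : ∀ i, (Fin (N i) → Fin n) → K) : Subalgebra K (RF n K) :=
  Algebra.adjoin K (Set.range (uco T))

theorem exists_valuation (hn : 0 < n) (T : ∀ i, (Fin (N i) → Fin n) → K) (hT : NoInv T) :
    ∃ B : ValuationSubring (RF n K), (∀ x : K, algebraMap K (RF n K) x ∈ B) ∧
      ∀ ω, B.valuation (uco T ω) < 1 := by
  classical
  obtain ⟨M, hM⟩ : ∃ M, M = Submodule.span K
      (Set.range fun z : (Σ r : ℕ, Fin (r + 1) → Om n N) => ∏ k, uco T (z.2 k)) := ⟨_, rfl⟩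
  have h1M : (1 : RF n K) ∉ M := hM ▸ one_notMem hn T hT
  have huM : ∀ ω, uco T ω ∈ M := by
    intro ω
    rw [hM]
    refine Submodule.subset_span ⟨⟨0, fun _ => ω⟩, ?_⟩
    simp
  have hmul : ∀ x ∈ Rco T, ∀ y ∈ M, x * y ∈ M := by
    intro x hx
    induction hx using Algebra.adjoin_induction with
    | mem x hx =>
      obtain ⟨ω, rfl⟩ := hx
      intro y hy
      rw [hM] at hy ⊢
      induction hy using Submodule.span_induction with
      | mem y hy =>
        obtain ⟨z, rfl⟩ := hy
        refine Submodule.subset_span ⟨⟨z.1 + 1, Fin.cons ω z.2⟩, ?_⟩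
        dsimp only
        rw [Fin.prod_univ_succ]
        simp
      | zero => rw [mul_zero]; exact Submodule.zero_mem _
      | add a b _ _ ha hb => rw [mul_add]; exact Submodule.add_mem _ ha hb
      | smul r a _ ha => rw [mul_smul_comm]; exact Submodule.smul_mem _ _ ha
    | algebraMap r =>
      intro y hy
      rw [← Algebra.smul_def]
      exact M.smul_mem r hy
    | add a b _ _ ha hb =>
      intro y hy
      rw [add_mul]
      exact M.add_mem (ha y hy) (hb y hy)
    | mul a b _ _ ha hb =>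
      intro y hy
      rw [mul_assoc]
      exact ha _ (hb y hy)
  let J : Ideal (Rco T).toSubring :=
    { carrier := {x | (x : RF n K) ∈ M}
      zero_mem' := M.zero_mem
      add_mem' := fun {a b} ha hb => M.add_mem ha hb
      smul_mem' := fun a b hb => hmul a.1 a.2 b.1 hb }
  have hJ : J ≠ ⊤ := by
    intro h
    have h2 : (1 : (Rco T).toSubring) ∈ J := by rw [h]; exact Submodule.mem_top
    exact h1M h2
  obtain ⟨B, hB, hJB⟩ := Ideal.image_subset_nonunits_valuationSubring J hJ
  refine ⟨B, fun x => hB ((Rco T).algebraMap_mem x), fun ω => ?_⟩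
  have h2 : uco T ω ∈ B.nonunits := hJB ⟨⟨uco T ω, Algebra.subset_adjoin ⟨ω, rfl⟩⟩, huM ω, rfl⟩
  exact (B.mem_nonunits_iff).1 h2

end

end Pool.Agent.Helper91.HM
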