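import Pool.Agent.Helper91.HM.Norm

/-!
Optimal destabilising weighted flags are unique (Kempf).
-/

set_option autoImplicit false
set_option linter.unusedSectionVars false

namespace Pool.Agent.Helper91.HM

open Module

/-- the trivial valuation -/
noncomputable def tv (M : Type*) [Field M] : Valuation M (WithZero (Multiplicative ℝ)) := by
  classical
  exact
  { toFun := fun x => if x = 0 then 0 else 1
    map_zero' := if_pos rfl
    map_one' := if_neg one_ne_zero
    map_mul' := fun x y => by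
      by_cases hx : x = 0
      · simp [hx]
      · by_cases hy : y = 0
        · simp [hy]
        · simp [hx, hy]
    map_add_le_max' := fun x y => by
      by_cases hx : x = 0
      · simp [hx]
      · rw [if_neg hx]
        refine le_trans ?_ (le_max_left _ _)
        split_ifs
        · exact zero_le
        · exact le_rfl }

theorem tv_zero {M : Type*} [Field M] : tv M 0 = 0 := map_zero _

theorem tv_ne {M : Type*} [Field M] {x : M} (hx : x ≠ 0) : tv M x = 1 := by
  simp [tv, hx]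

/-- the norm value which corresponds to the weight `t` -/
noncomputable def W (t : ℝ) : WithZero (Multiplicative ℝ) := ((Multiplicative.ofAdd (-t) : Multiplicative ℝ) : WithZero _)

theorem W_ne (t : ℝ) : W t ≠ 0 := WithZero.coe_ne_zero

theorem W_le {s t : ℝ} : W s ≤ W t ↔ t ≤ s := by
  rw [W, W, WithZero.coe_le_coe, Multiplicative.ofAdd_le, neg_le_neg_iff]

theorem exists_W {x : WithZero (Multiplicative ℝ)} (hx : x ≠ 0) : ∃ t, x = W t := by
  obtain ⟨y, rfl⟩ := WithZero.ne_zero_iff_exists.1 hx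
  exact ⟨-(Multiplicative.toAdd y), by rw [W, neg_neg]; rfl⟩

section

variable {M V : Type} [Field M] [AddCommGroup V] [Module M V] {n : ℕ}

/-- the weighted flag given by the basis `g` with the weights `a` destabilises the tensors in `𝒮`
-/
def Dest (𝒮 : ∀ d : ℕ, Set (MultilinearMap M (fun _ : Fin d => V) M)) (g : Fin n → V)
    (a : Fin n → ℝ) : Prop :=
  LinearIndependent M g ∧ Submodule.span M (Set.range g) = ⊤ ∧ ∑ j, a j = 0 ∧
    ∀ d, ∀ s ∈ 𝒮 d, ∀ J : Fin d → Fin n, s (fun k => g (J k)) ≠ 0 → ∑ k, a (J k) ≤ -1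

/-- the members of the weighted flag -/
def flag (g : Fin n → V) (a : Fin n → ℝ) (t : ℝ) : Submodule M V :=
  Submodule.span M (g '' {j | t ≤ a j})

theorem ne_univ' (hn : 0 < n) : (Finset.univ : Finset (Fin n)).Nonempty :=
  ⟨⟨0, hn⟩, Finset.mem_univ _⟩

/-- the norm of a weighted basis -/
noncomputable def nrm (hn : 0 < n) (g : Fin n → V) (hg : LinearIndependent M g)
    (hs : Submodule.span M (Set.range g) = ⊤) (a : Fin n → ℝ) (x : V) :
    WithZero (Multiplicative ℝ) :=
  Finset.univ.sup' (ne_univ' hn)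
    (fun j => tv M ((Basis.mk hg hs.ge).repr x j) * W (a j))

theorem split_nrm (hn : 0 < n) (g : Fin n → V) (hg : LinearIndependent M g)
    (hs : Submodule.span M (Set.range g) = ⊤) (a : Fin n → ℝ) :
    Split (tv M) (nrm hn g hg hs a) g (fun j => W (a j)) := by
  refine ⟨fun j => W_ne _, fun c γ => ?_⟩
  have h1 : ∀ j, (Basis.mk hg hs.ge).repr (∑ i, c i • g i) j = c j := by
    intro j
    have h2 : ∑ i, c i • g i = ∑ i, c i • (Basis.mk hg hs.ge) i := by
      simp only [Basis.mk_apply]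
    rw [h2, Basis.repr_sum_self]
  rw [nrm, Finset.sup'_le_iff]
  simp only [h1, Finset.mem_univ, true_implies]

theorem mem_flag_iff {ν : V → WithZero (Multiplicative ℝ)} {g : Fin n → V} {a : Fin n → ℝ}
    (h : Split (tv M) ν g (fun j => W (a j))) (hs : Submodule.span M (Set.range g) = ⊤) (t : ℝ)
    (x : V) : x ∈ (flag g a t : Submodule M V) ↔ ν x ≤ W t := by
  classical
  constructor
  · intro hx
    rw [flag] at hx
    induction hx using Submodule.span_induction with
    | mem x hx =>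
      obtain ⟨j, hj, rfl⟩ := hx
      rw [h.apply]
      exact W_le.2 hj
    | zero => rw [h.zero]; exact zero_le
    | add x y _ _ hx hy =>
      exact h.add_le (hs ▸ Submodule.mem_top) (hs ▸ Submodule.mem_top) hx hy
    | smul c x _ hx =>
      rw [h.smul (hs ▸ Submodule.mem_top)]
      by_cases hc : c = 0
      · rw [hc, tv_zero, zero_mul]
        exact zero_le
      · rwa [tv_ne hc, one_mul]
  · intro hx
    obtain ⟨c, rfl⟩ := mem_span_fam.1 (hs ▸ Submodule.mem_top : x ∈ Submodule.span M (Set.range g))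
    refine Submodule.sum_mem _ fun j _ => ?_
    by_cases hc : c j = 0
    · rw [hc, zero_smul]
      exact Submodule.zero_mem _
    · refine Submodule.smul_mem _ _ (Submodule.subset_span ⟨j, ?_, rfl⟩)
      have h1 := (h.2 c _).1 hx j
      rw [tv_ne hc, one_mul] at h1
      exact W_le.1 h1

theorem flag_eq_of_split {ν : V → WithZero (Multiplicative ℝ)} {g g' : Fin n → V}
    {a a' : Fin n → ℝ} (h : Split (tv M) ν g (fun j => W (a j)))
    (h' : Split (tv M) ν g' (fun j => W (a' j))) (hs : Submodule.span M (Set.range g) = ⊤)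
    (hs' : Submodule.span M (Set.range g') = ⊤) (t : ℝ) :
    (flag g a t : Submodule M V) = flag g' a' t := by
  ext x
  rw [mem_flag_iff h hs, mem_flag_iff h' hs']

theorem finrank_flag {g : Fin n → V} (hg : LinearIndependent M g) (a : Fin n → ℝ) (t : ℝ) :
    finrank M (flag g a t : Submodule M V) = (Finset.univ.filter fun j => t ≤ a j).card := by
  classical
  have h1 : (flag g a t : Submodule M V) =
      Submodule.span M (Set.range (g ∘ (Subtype.val : {j // t ≤ a j} → Fin n))) := by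
    rw [flag]
    congr 1
    ext x
    simp
  rw [h1, finrank_span_eq_card (hg.comp _ Subtype.val_injective), Fintype.card_subtype]

/-- functions with the same flags have the same values, up to the order -/
theorem sum_eq_of_flag {g g' : Fin n → V} (hg : LinearIndependent M g)
    (hg' : LinearIndependent M g') {a a' : Fin n → ℝ}
    (h : ∀ t, (flag g a t : Submodule M V) = flag g' a' t) (f : ℝ → ℝ) :
    ∑ j, f (a j) = ∑ j, f (a' j) := by
  classical
  have h1 : ∀ t, (Finset.univ.filter fun j => t ≤ a j).card =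
      (Finset.univ.filter fun j => t ≤ a' j).card := fun t => by
    rw [← finrank_flag hg, ← finrank_flag hg', h]
  -- the number of weights greater than `t`
  have h2 : ∀ (b : Fin n → ℝ) (t : ℝ), ∃ t' > t, ∀ t'' , t < t'' → t'' ≤ t' →
      (Finset.univ.filter fun j => t'' ≤ b j) = Finset.univ.filter fun j => t < b j := by
    intro b t
    obtain ⟨t', ht1, ht2⟩ := Order.exists_between_finsets {t}
      ((Finset.univ.filter fun j => t < b j).image b) (by
        intro x hx y hy
        obtain ⟨j, hj, rfl⟩ := Finset.mem_image.1 hy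
        rw [Finset.mem_singleton] at hx
        rw [hx]
        exact (Finset.mem_filter.1 hj).2)
    refine ⟨t', ht1 t (Finset.mem_singleton_self _), fun t'' h3 h4 => ?_⟩
    ext j
    rw [Finset.mem_filter, Finset.mem_filter]
    refine ⟨fun h5 => ⟨h5.1, lt_of_lt_of_le h3 h5.2⟩, fun h5 => ⟨h5.1, ?_⟩⟩
    exact h4.trans (ht2 (b j) (Finset.mem_image.2 ⟨j, Finset.mem_filter.2 h5, rfl⟩)).le
  have h3 : ∀ t, (Finset.univ.filter fun j => t < a j).card =
      (Finset.univ.filter fun j => t < a' j).card := by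
    intro t
    obtain ⟨t1, ht1, h4⟩ := h2 a t
    obtain ⟨t2, ht2, h5⟩ := h2 a' t
    rw [← h4 (min t1 t2) (lt_min ht1 ht2) (min_le_left _ _),
      ← h5 (min t1 t2) (lt_min ht1 ht2) (min_le_right _ _), h1]
  have h4 : ∀ (b : Fin n → ℝ) (t : ℝ), (Finset.univ.filter fun j => t = b j).card +
      (Finset.univ.filter fun j => t < b j).card = (Finset.univ.filter fun j => t ≤ b j).card := by
    intro b t
    rw [← Finset.card_union_of_disjoint]
    · congr 1
      ext j
      simp only [Finset.mem_union, Finset.mem_filter, Finset.mem_univ, true_and]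
      constructor
      · rintro (h5 | h5)
        · exact h5.le
        · exact h5.le
      · intro h5
        exact eq_or_lt_of_le h5
    · rw [Finset.disjoint_filter]
      intro j _ h5 h6
      exact absurd h5 h6.ne
  have h5 : Multiset.map a Finset.univ.val = Multiset.map a' Finset.univ.val := by
    ext t
    rw [Multiset.count_map, Multiset.count_map]
    have h6 := h4 a t
    have h7 := h4 a' t
    rw [h1, h3] at h6
    have h8 : (Finset.univ.filter fun j => t = a j).card =
      (Finset.univ.filter fun j => t = a' j).card := by omega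
    exact h8
  have h6 := congrArg (fun m => (Multiset.map f m).sum) h5
  simp only [Multiset.map_map] at h6
  exact h6

theorem flag_coord {g : Fin n → V} {a : Fin n → ℝ} {t : ℝ} {x : V}
    (hx : x ∈ (flag g a t : Submodule M V)) :
    ∃ c : Fin n → M, (∀ l, c l ≠ 0 → t ≤ a l) ∧ ∑ l, c l • g l = x := by
  classical
  rw [flag] at hx
  induction hx using Submodule.span_induction with
  | mem x hx =>
    obtain ⟨j, hj, rfl⟩ := hx
    refine ⟨fun l => if l = j then 1 else 0, fun l hl => ?_, ?_⟩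
    · by_cases h : l = j
      · rw [h]; exact hj
      · exact absurd (if_neg h) hl
    · simp [ite_smul]
  | zero => exact ⟨fun _ => 0, fun l hl => absurd rfl hl, by simp⟩
  | add x y _ _ hx hy =>
    obtain ⟨c, hc, rfl⟩ := hx
    obtain ⟨c', hc', rfl⟩ := hy
    refine ⟨fun l => c l + c' l, fun l hl => ?_, ?_⟩
    · by_cases h : c l = 0
      · refine hc' l fun h' => hl ?_
        beta_reduce
        rw [h, h', add_zero]
      · exact hc l h
    · simp only [add_smul, Finset.sum_add_distrib]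
  | smul r x _ hx =>
    obtain ⟨c, hc, rfl⟩ := hx
    refine ⟨fun l => r * c l, fun l hl => hc l (right_ne_zero_of_mul hl), ?_⟩
    rw [Finset.smul_sum]
    exact Finset.sum_congr rfl fun l _ => by rw [smul_smul]

/-- a common refinement inherits the destabilising property -/
theorem Dest.change {𝒮 : ∀ d : ℕ, Set (MultilinearMap M (fun _ : Fin d => V) M)} {g e : Fin n → V}
    {a b : Fin n → ℝ} (h : Dest 𝒮 g a) (he : LinearIndependent M e)
    (hs : Submodule.span M (Set.range e) = ⊤) (hab : ∑ j, b j = 0)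
    (hmem : ∀ j, e j ∈ (flag g a (b j) : Submodule M V)) : Dest 𝒮 e b := by
  classical
  refine ⟨he, hs, hab, fun d s hsd J hne => ?_⟩
  have h1 : ∀ j, ∃ c : Fin n → M, (∀ l, c l ≠ 0 → b j ≤ a l) ∧ ∑ l, c l • g l = e j :=
    fun j => flag_coord (hmem j)
  choose c hc hce using h1
  have h2 : s (fun k => e (J k)) = ∑ I : Fin d → Fin n, (∏ k, c (J k) (I k)) • s (fun k => g (I k)) := by
    have h3 : (fun k => e (J k)) = fun k => ∑ l, c (J k) l • g l := by
      funext k
      rw [hce]
    rw [h3, MultilinearMap.map_sum]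
    refine Finset.sum_congr rfl fun I _ => ?_
    exact s.map_smul_univ (fun k => c (J k) (I k)) (fun k => g (I k))
  rw [h2] at hne
  obtain ⟨I, _, hI⟩ := Finset.exists_ne_zero_of_sum_ne_zero hne
  have h3 : ∏ k, c (J k) (I k) ≠ 0 := fun h0 => hI (by rw [h0, zero_smul])
  have h4 : s (fun k => g (I k)) ≠ 0 := fun h0 => hI (by rw [h0, smul_zero])
  refine le_trans (Finset.sum_le_sum fun k _ => ?_) (h.2.2.2 d s hsd I h4)
  exact hc _ _ (Finset.prod_ne_zero_iff.1 h3 k (Finset.mem_univ k))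

theorem Dest.pos {𝒮 : ∀ d : ℕ, Set (MultilinearMap M (fun _ : Fin d => V) M)} {g : Fin n → V}
    {a : Fin n → ℝ} (_h : Dest 𝒮 g a) (hne : ∃ d, ∃ s ∈ 𝒮 d, s ≠ 0 ∧ 0 < d) : 0 < n := by
  obtain ⟨d, s, -, hs, hd⟩ := hne
  rcases Nat.eq_zero_or_pos n with h0 | h0
  · exfalso
    subst h0
    apply hs
    have h1 : ∀ x : V, x = 0 := by
      intro x
      have h2 : x ∈ Submodule.span M (Set.range g) := _h.2.1 ▸ Submodule.mem_top
      rw [Set.range_eq_empty, Submodule.span_empty] at h2
      exact (Submodule.mem_bot M).1 h2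
    ext x
    rw [_root_.zero_apply]
    exact s.map_coord_zero ⟨0, hd⟩ (h1 _)
  · exact h0

/-- **Uniqueness of optimal destabilising weighted flags.** -/
theorem flag_unique {𝒮 : ∀ d : ℕ, Set (MultilinearMap M (fun _ : Fin d => V) M)} (hn : 0 < n)
    {g g' : Fin n → V} {a a' : Fin n → ℝ} (h : Dest 𝒮 g a) (h' : Dest 𝒮 g' a')
    (hmin : ∀ (e : Fin n → V) (b : Fin n → ℝ), Dest 𝒮 e b → ∑ j, a j ^ 2 ≤ ∑ j, b j ^ 2)
    (heq : ∑ j, a' j ^ 2 = ∑ j, a j ^ 2) (t : ℝ) :
    (flag g a t : Submodule M V) = flag g' a' t := by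
  classical
  obtain ⟨e, u, u', he, he', hespan⟩ := split2 n _ _ _ _ _ _
    (split_nrm hn g h.1 h.2.1 a) (split_nrm hn g' h'.1 h'.2.1 a') (h.2.1.trans h'.2.1.symm)
  have hes : Submodule.span M (Set.range e) = ⊤ := hespan.trans h.2.1
  choose b hb using fun j => exists_W (he.1 j)
  choose b' hb' using fun j => exists_W (he'.1 j)
  have hu : u = fun j => W (b j) := funext hb
  have hu' : u' = fun j => W (b' j) := funext hb'
  rw [hu] at he
  rw [hu'] at he'
  have hli : LinearIndependent M e := by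
    rw [Fintype.linearIndependent_iff]
    intro c hc j
    exact he.indep hc j
  have hf : ∀ t, (flag g a t : Submodule M V) = flag e b t :=
    flag_eq_of_split (split_nrm hn g h.1 h.2.1 a) he h.2.1 hes
  have hf' : ∀ t, (flag g' a' t : Submodule M V) = flag e b' t :=
    flag_eq_of_split (split_nrm hn g' h'.1 h'.2.1 a') he' h'.2.1 hes
  have hs1 := sum_eq_of_flag h.1 hli hf
  have hs1' := sum_eq_of_flag h'.1 hli hf'
  have hb0 : ∑ j, b j = 0 := by
    have := hs1 id
    simp only [id] at this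
    rw [← this, h.2.2.1]
  have hb0' : ∑ j, b' j = 0 := by
    have := hs1' id
    simp only [id] at this
    rw [← this, h'.2.2.1]
  have hb2 : ∑ j, b j ^ 2 = ∑ j, a j ^ 2 := (hs1 (fun x => x ^ 2)).symm
  have hb2' : ∑ j, b' j ^ 2 = ∑ j, a j ^ 2 := (hs1' (fun x => x ^ 2)).symm.trans heq
  have hD : Dest 𝒮 e b := h.change hli hes hb0 fun j => by
    rw [hf]
    exact Submodule.subset_span ⟨j, le_refl (b j), rfl⟩
  have hD' : Dest 𝒮 e b' := h'.change hli hes hb0' fun j => by
    rw [hf']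
    exact Submodule.subset_span ⟨j, le_refl (b' j), rfl⟩
  have hmid : Dest 𝒮 e (fun j => (b j + b' j) / 2) := by
    refine ⟨hli, hes, ?_, fun d s hs J hne => ?_⟩
    · rw [← Finset.sum_div, Finset.sum_add_distrib, hb0, hb0']
      norm_num
    · have h1 := hD.2.2.2 d s hs J hne
      have h2 := hD'.2.2.2 d s hs J hne
      rw [← Finset.sum_div, Finset.sum_add_distrib]
      linarith
  have h3 := hmin e _ hmid
  have h4 : ∑ j, ((b j + b' j) / 2) ^ 2 + ∑ j, ((b j - b' j) / 2) ^ 2 =
      (∑ j, b j ^ 2 + ∑ j, b' j ^ 2) / 2 := by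
    rw [← Finset.sum_add_distrib, ← Finset.sum_add_distrib, Finset.sum_div]
    refine Finset.sum_congr rfl fun j _ => ?_
    ring
  rw [hb2, hb2'] at h4
  have h5 : ∑ j, ((b j - b' j) / 2) ^ 2 ≤ 0 := by linarith
  have h6 : ∀ j, b j = b' j := by
    intro j
    have h7 := (Finset.sum_eq_zero_iff_of_nonneg fun j _ => sq_nonneg ((b j - b' j) / 2)).1
      (le_antisymm h5 (Finset.sum_nonneg fun j _ => sq_nonneg _)) j (Finset.mem_univ j)
    have h8 := pow_eq_zero_iff (two_ne_zero) |>.1 h7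
    linarith
  have h7 : b = b' := funext h6
  rw [hf, hf', h7]

/-- existence of optimal destabilising weighted flags -/
theorem exists_min {𝒮 : ∀ d : ℕ, Set (MultilinearMap M (fun _ : Fin d => V) M)} {D : ℕ}
    (hD : ∀ d, ∀ s ∈ 𝒮 d, d ≤ D) {g : Fin n → V} {a : Fin n → ℝ} (h : Dest 𝒮 g a) :
    ∃ (e : Fin n → V) (b : Fin n → ℝ), Dest 𝒮 e b ∧
      ∀ (e' : Fin n → V) (b' : Fin n → ℝ), Dest 𝒮 e' b' → ∑ j, b j ^ 2 ≤ ∑ j, b' j ^ 2 := by
  classical
  let Sup := Σ d : Fin (D + 1), (Fin (d : ℕ) → Fin n)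
  let supp : (Fin n → V) → Set Sup := fun e => {x | ∃ s ∈ 𝒮 x.1, s (fun k => e (x.2 k)) ≠ 0}
  let P : Set Sup → Set (EuclideanSpace ℝ (Fin n)) := fun 𝒯 =>
    {b | ∑ j, b j = 0 ∧ ∀ x ∈ 𝒯, ∑ k, b (x.2 k) ≤ -1}
  have hPc : ∀ 𝒯, IsClosed (P 𝒯) := by
    intro 𝒯
    have h1 : P 𝒯 = {b | ∑ j, b j = 0} ∩ ⋂ x ∈ 𝒯, {b | ∑ k, b (x.2 k) ≤ -1} := by
      ext b
      simp [P]
    rw [h1]
    refine IsClosed.inter ?_ (isClosed_biInter fun x _ => ?_)
    · exact isClosed_eq (by fun_prop) (by fun_prop)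
    · exact isClosed_le (by fun_prop) (by fun_prop)
  have hDest : ∀ (e : Fin n → V) (b : Fin n → ℝ), Dest 𝒮 e b ↔ (LinearIndependent M e ∧
      Submodule.span M (Set.range e) = ⊤) ∧ (WithLp.toLp 2 b) ∈ P (supp e) := by
    intro e b
    constructor
    · intro hd
      refine ⟨⟨hd.1, hd.2.1⟩, hd.2.2.1, ?_⟩
      rintro x ⟨s, hs, hne⟩
      exact hd.2.2.2 _ s hs x.2 hne
    · rintro ⟨⟨h1, h2⟩, h3, h4⟩
      refine ⟨h1, h2, h3, fun d s hs J hne => ?_⟩
      have h5 := hD d s hs
      exact h4 ⟨⟨d, by omega⟩, J⟩ ⟨s, hs, hne⟩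
  let 𝒜 : Set (EuclideanSpace ℝ (Fin n)) := ⋃ 𝒯 : {𝒯 : Set Sup // ∃ e : Fin n → V,
    (LinearIndependent M e ∧ Submodule.span M (Set.range e) = ⊤) ∧ supp e = 𝒯}, P 𝒯
  have h𝒜 : IsClosed 𝒜 := isClosed_iUnion_of_finite fun 𝒯 => hPc _
  have hmem : ∀ (e : Fin n → V) (b : Fin n → ℝ), Dest 𝒮 e b → WithLp.toLp 2 b ∈ 𝒜 := by
    intro e b hd
    rw [hDest] at hd
    exact Set.mem_iUnion.2 ⟨⟨supp e, e, hd.1, rfl⟩, hd.2⟩
  obtain ⟨y, hy, hy2⟩ := h𝒜.exists_infDist_eq_dist ⟨_, hmem g a h⟩ 0
  obtain ⟨⟨𝒯, e, he, rfl⟩, hyP⟩ := Set.mem_iUnion.1 hy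
  refine ⟨e, fun j => y j, (hDest e _).2 ⟨he, hyP⟩, fun e' b' hd => ?_⟩
  have h1 := Metric.infDist_le_dist_of_mem (x := (0 : EuclideanSpace ℝ (Fin n))) (hmem e' b' hd)
  rw [hy2, dist_comm, dist_zero_right, dist_comm, dist_zero_right, EuclideanSpace.norm_eq,
    EuclideanSpace.norm_eq] at h1
  have h2 := (Real.sqrt_le_sqrt_iff (Finset.sum_nonneg fun j _ => by positivity)).1 h1
  simpa only [Real.norm_eq_abs, sq_abs] using h2

/-- optimal weighted flags are stable under semilinear automorphisms which preserve the set of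
tensors -/
theorem flag_stable {𝒮 : ∀ d : ℕ, Set (MultilinearMap M (fun _ : Fin d => V) M)} (hn : 0 < n)
    {g : Fin n → V} {a : Fin n → ℝ} (h : Dest 𝒮 g a)
    (hmin : ∀ (e : Fin n → V) (b : Fin n → ℝ), Dest 𝒮 e b → ∑ j, a j ^ 2 ≤ ∑ j, b j ^ 2)
    (σ : M ≃+* M) (τ : V ≃+ V) (hστ : ∀ (c : M) (x : V), τ (c • x) = σ c • τ x)
    (hτ : ∀ d, ∀ s ∈ 𝒮 d, ∃ s' ∈ 𝒮 d, ∀ x : Fin d → V, s (fun k => τ (x k)) ≠ 0 → s' x ≠ 0)
    (t : ℝ) {x : V} (hx : x ∈ (flag g a t : Submodule M V)) : τ x ∈ (flag g a t : Submodule M V) := by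
  have hsum : ∀ c : Fin n → M, τ (∑ l, c l • g l) = ∑ l, σ (c l) • τ (g l) := by
    intro c
    rw [map_sum]
    exact Finset.sum_congr rfl fun l _ => hστ _ _
  have hD : Dest 𝒮 (fun j => τ (g j)) a := by
    refine ⟨?_, ?_, h.2.2.1, fun d s hs J hne => ?_⟩
    · rw [Fintype.linearIndependent_iff]
      intro c hc j
      have h1 := hsum fun l => σ.symm (c l)
      simp only [RingEquiv.apply_symm_apply] at h1
      rw [hc] at h1
      have h2 : ∑ l, σ.symm (c l) • g l = 0 := by
        rw [← map_zero τ] at h1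
        exact τ.injective h1
      have h3 := Fintype.linearIndependent_iff.1 h.1 _ h2 j
      simpa using h3
    · rw [eq_top_iff]
      intro y _
      have h1 : τ.symm y ∈ Submodule.span M (Set.range g) := h.2.1 ▸ Submodule.mem_top
      obtain ⟨c, hc⟩ := mem_span_fam.1 h1
      have h2 := hsum c
      rw [hc, AddEquiv.apply_symm_apply] at h2
      rw [h2]
      exact Submodule.sum_mem _ fun l _ => Submodule.smul_mem _ _ (Submodule.subset_span ⟨l, rfl⟩)
    · obtain ⟨s', hs', hne'⟩ := hτ d s hs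
      exact h.2.2.2 d s' hs' J (hne' _ hne)
  rw [flag_unique hn h hD hmin rfl t]
  obtain ⟨c, hc, rfl⟩ := flag_coord hx
  rw [hsum]
  refine Submodule.sum_mem _ fun l _ => ?_
  by_cases h0 : c l = 0
  · rw [h0, map_zero, zero_smul]
    exact Submodule.zero_mem _
  · exact Submodule.smul_mem _ _ (Submodule.subset_span ⟨l, hc l h0, rfl⟩)

end

end Pool.Agent.Helper91.HM
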