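import Pool.Agent.Helper91.HM.Alg
import Pool.Agent.Helper91.HM.Kempf
import Pool.Agent.Helper12.BL.Desc

/-!
If all invariants vanish then the tensors are destabilised by a weighted flag over the ground
field.
-/

set_option autoImplicit false
set_option linter.unusedSectionVars false

namespace Pool.Agent.Helper91.HM

open Module Pool.Agent.Helper12.BL

section

variable {R : Type} [CommRing R] {n d : ℕ}

/-- the multilinear form on the coordinate space with the coefficients `T` -/
noncomputable def form (T : (Fin d → Fin n) → R) :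
    MultilinearMap R (fun _ : Fin d => (Fin n → R)) R :=
  ∑ I : Fin d → Fin n, T I • (MultilinearMap.mkPiAlgebra R (Fin d) R).compLinearMap
    (fun k => LinearMap.proj (I k))

theorem form_apply (T : (Fin d → Fin n) → R) (x : Fin d → Fin n → R) :
    form T x = ∑ I : Fin d → Fin n, T I * ∏ k, x k (I k) := by
  rw [form, sum_apply]
  refine Finset.sum_congr rfl fun I _ => ?_
  rw [smul_apply, MultilinearMap.compLinearMap_apply,
    MultilinearMap.mkPiAlgebra_apply, smul_eq_mul]
  rfl

theorem act_eq_form (g : Matrix (Fin n) (Fin n) R) (T : (Fin d → Fin n) → R) (J : Fin d → Fin n) :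
    act g T J = form T (fun k => g (J k)) := by
  rw [form_apply, act]
  exact Finset.sum_congr rfl fun I _ => mul_comm _ _

end

/-- linearly independent members of subspaces of growing dimensions -/
theorem greedy {K W : Type} [Field K] [AddCommGroup W] [Module K W] [FiniteDimensional K W]
    {n : ℕ} (U : Fin n → Submodule K W) (hU : ∀ j : Fin n, (j : ℕ) + 1 ≤ finrank K (U j)) :
    ∃ h : Fin n → W, LinearIndependent K h ∧ ∀ j, h j ∈ U j := by
  classical
  have key : ∀ k : ℕ, ∀ hk : k ≤ n, ∃ h : Fin k → W, LinearIndependent K h ∧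
      ∀ j : Fin k, h j ∈ U (Fin.castLE hk j) := by
    intro k
    induction k with
    | zero => exact fun _ => ⟨Fin.elim0, linearIndependent_empty_type, fun j => j.elim0⟩
    | succ k ih =>
      intro hk
      obtain ⟨h, hli, hm⟩ := ih (by omega)
      have h1 : finrank K (Submodule.span K (Set.range h)) = k := by
        rw [finrank_span_eq_card hli, Fintype.card_fin]
      obtain ⟨x, hx, hxn⟩ : ∃ x ∈ U ⟨k, hk⟩, x ∉ Submodule.span K (Set.range h) := by
        by_contra hcon
        push Not at hcon
        have h2 : U ⟨k, hk⟩ ≤ Submodule.span K (Set.range h) := hcon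
        have h3 := Submodule.finrank_mono h2
        have h4 := hU ⟨k, hk⟩
        rw [h1] at h3
        have h5 : k + 1 ≤ finrank K (U ⟨k, hk⟩) := h4
        omega
      refine ⟨Fin.snoc h x, linearIndependent_finSnoc.2 ⟨hli, hxn⟩, fun j => ?_⟩
      refine Fin.lastCases ?_ (fun j => ?_) j
      · rw [Fin.snoc_last]
        exact hx
      · rw [Fin.snoc_castSucc]
        exact hm j
  obtain ⟨h, h1, h2⟩ := key n le_rfl
  exact ⟨h, h1, fun j => h2 j⟩

/-- integral weights from real weights -/
theorem int_weights {n : ℕ} {ι : Type} {N : ι → ℕ} (S : Finset (Om n N)) (a : Fin n → ℝ)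
    (ha : ∑ j, a j = 0) (hn : 0 < n) (h : ∀ ω ∈ S, ∑ k, a (ω.2 k) < 0) :
    ∃ b : Fin n → ℤ, ∑ j, b j = 0 ∧ ∀ ω ∈ S, ∑ k, b (ω.2 k) < 0 := by
  classical
  have hcount : ∀ {R : Type} [CommRing R] (w : Fin n → R) (ω : Om n N), ∑ k, w (ω.2 k) =
      ∑ j, ((Finset.univ.filter fun k => ω.2 k = j).card : R) * w j := by
    intro R _ w ω
    rw [← Finset.sum_fiberwise_of_maps_to (g := ω.2) (t := Finset.univ)
      (fun _ _ => Finset.mem_univ _)]
    refine Finset.sum_congr rfl fun j _ => ?_
    rw [Finset.sum_congr rfl fun k hk => by rw [(Finset.mem_filter.1 hk).2],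
      Finset.sum_const, nsmul_eq_mul]
  obtain ⟨w, hw⟩ := gordan_int (Γ := Multiplicative ℝ) n (fun j => Multiplicative.ofAdd (-a j))
    (S.image fun ω j => ((n : ℤ) * (Finset.univ.filter fun k => ω.2 k = j).card - N ω.1)) (by
      intro c hc
      obtain ⟨ω, hω, rfl⟩ := Finset.mem_image.1 hc
      have h1 := h ω hω
      beta_reduce
      rw [← Multiplicative.toAdd_lt, toAdd_prod]
      simp only [toAdd_zpow, toAdd_ofAdd, zsmul_eq_mul, toAdd_one]
      have h2 : ∑ j, ((((n : ℤ) * (Finset.univ.filter fun k => ω.2 k = j).card - N ω.1 : ℤ)) : ℝ) *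
          (-a j) = -(n * ∑ k, a (ω.2 k)) + N ω.1 * ∑ j, a j := by
        rw [hcount a ω, Finset.mul_sum, Finset.mul_sum, ← Finset.sum_neg_distrib,
          ← Finset.sum_add_distrib]
        refine Finset.sum_congr rfl fun j _ => ?_
        push_cast
        ring
      rw [h2, ha, mul_zero, add_zero]
      have h3 : (0 : ℝ) < n := by exact_mod_cast hn
      nlinarith)
  refine ⟨fun j => ∑ l, w l - n * w j, ?_, fun ω hω => ?_⟩
  · rw [Finset.sum_sub_distrib, Finset.sum_const, Finset.card_univ, Fintype.card_fin,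
      ← Finset.mul_sum, nsmul_eq_mul, sub_self]
  · have h5 := hw _ (Finset.mem_image.2 ⟨ω, hω, rfl⟩)
    beta_reduce at h5
    have h6 : ∑ j, w j * ((n : ℤ) * (Finset.univ.filter fun k => ω.2 k = j).card - N ω.1) =
        n * ∑ k, w (ω.2 k) - N ω.1 * ∑ j, w j := by
      rw [hcount w ω, Finset.mul_sum, Finset.mul_sum, ← Finset.sum_sub_distrib]
      refine Finset.sum_congr rfl fun j _ => ?_
      ring
    rw [h6] at h5
    rw [Finset.sum_sub_distrib, Finset.sum_const, Finset.card_univ, Fintype.card_fin,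
      ← Finset.mul_sum, nsmul_eq_mul]
    linarith

/-- the set of tensors over an extension field given by a family of coordinates -/
def fam {K M : Type} [Field K] [Field M] [Algebra K M] {n : ℕ} {ι : Type} {N : ι → ℕ}
    (T : ∀ i, (Fin (N i) → Fin n) → K) (d : ℕ) :
    Set (MultilinearMap M (fun _ : Fin d => (Fin n → M)) M) :=
  {s | ∃ i, ∃ h : N i = d, ∀ x : Fin d → Fin n → M,
    s x = form (fun I => algebraMap K M (T i I)) (fun k => x (Fin.cast h k))}

theorem hmk {K : Type} [Field K] [Algebra ℝ K] {n : ℕ} {ι : Type} {N : ι → ℕ} (hn : 0 < n)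
    [Finite ι] (T : ∀ i, (Fin (N i) → Fin n) → K) (hT : NoInv T) :
    ∃ (g : Matrix (Fin n) (Fin n) K) (a : Fin n → ℤ), g.det ≠ 0 ∧ ∑ j, a j = 0 ∧
      ∀ i J, act g (T i) J ≠ 0 → ∑ k, a (J k) < 0 := by
  classical
  have hchar : CharZero K := charZero_of_injective_algebraMap (algebraMap ℝ K).injective
  obtain ⟨E, a0, hE, ha0, hact⟩ := alg_step hn T hT
  obtain ⟨M, hMdef⟩ : ∃ M, M = AlgebraicClosure K := ⟨_, rfl⟩
  let 𝒮 := fam (M := AlgebraicClosure K) T
  obtain ⟨D, hD⟩ : ∃ D, ∀ i, N i ≤ D := by
    obtain ⟨D, hD⟩ := (Set.finite_range N).bddAbove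
    exact ⟨D, fun i => hD ⟨i, rfl⟩⟩
  have h𝒮D : ∀ d, ∀ s ∈ 𝒮 d, d ≤ D := by
    rintro d s ⟨i, h, -⟩
    rw [← h]
    exact hD i
  -- the flag over the algebraic closure
  have hEli : LinearIndependent (AlgebraicClosure K) (fun j => E j) :=
    Matrix.linearIndependent_rows_iff_isUnit.2
      ((Matrix.isUnit_iff_isUnit_det _).2 (isUnit_iff_ne_zero.2 hE))
  have hDest0 : Dest 𝒮 (fun j => E j) (fun j => (a0 j : ℝ)) := by
    refine ⟨hEli, span_top_of_mul E (isUnit_iff_ne_zero.2 hE), ?_, ?_⟩
    · beta_reduce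
      exact_mod_cast ha0
    rintro d s ⟨i, h, hs⟩ J hne
    subst h
    rw [hs] at hne
    have h1 : act E (fun I => algebraMap K (AlgebraicClosure K) (T i I)) J ≠ 0 := by
      rw [act_eq_form]
      exact hne
    have h2 := hact i J h1
    have h3 : ∑ k, a0 (J k) ≤ -1 := by omega
    beta_reduce
    exact_mod_cast h3
  obtain ⟨g, a, hg, hmin⟩ := exists_min h𝒮D hDest0
  -- Galois invariance
  have hgal : ∀ (t : ℝ) (σ : AlgebraicClosure K ≃ₐ[K] AlgebraicClosure K),
      (flag g a t : Submodule (AlgebraicClosure K) (Fin n → AlgebraicClosure K)) ≤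
        tw σ (flag g a t) := by
    intro t σ x hx
    rw [mem_tw]
    refine flag_stable hn hg hmin (σ : AlgebraicClosure K ≃+* AlgebraicClosure K)
      (AddEquiv.piCongrRight fun _ => (σ : AlgebraicClosure K ≃+ AlgebraicClosure K))
      (fun c x => ?_) (fun d s hs => ⟨s, hs, fun x hne h0 => hne ?_⟩) t hx
    · funext i
      exact map_mul σ _ _
    · obtain ⟨i, h, hs⟩ := hs
      rw [hs] at h0 ⊢
      have h1 : form (fun I => algebraMap K (AlgebraicClosure K) (T i I)) (fun k =>
          (AddEquiv.piCongrRight fun _ => (σ : AlgebraicClosure K ≃+ AlgebraicClosure K))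
            (x (Fin.cast h k))) = σ (form (fun I => algebraMap K (AlgebraicClosure K) (T i I))
              (fun k => x (Fin.cast h k))) := by
        rw [form_apply, form_apply, map_sum]
        refine Finset.sum_congr rfl fun I _ => ?_
        rw [map_mul, map_prod, AlgEquiv.commutes]
        rfl
      rw [h1, h0, map_zero]
  have hdesc : ∀ t, finrank K (pts (K := K) (flag g a t : Submodule (AlgebraicClosure K)
      (Fin n → AlgebraicClosure K))) = (Finset.univ.filter fun j => t ≤ a j).card := by
    intro t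
    rw [← finrank_flag hg.1, ← finrank_ext (E := AlgebraicClosure K)]
    rw [le_antisymm (ext_pts_le _) (descent _ _ le_rfl (hgal t))]
  -- a rational basis
  obtain ⟨π, hπ⟩ : ∃ π : Equiv.Perm (Fin n), Antitone (a ∘ π) := by
    refine ⟨Tuple.sort (fun j => -a j), fun i j hij => ?_⟩
    have := Tuple.monotone_sort (fun j => -a j) hij
    simp only [Function.comp_apply] at this ⊢
    linarith
  obtain ⟨h, hli, hmem⟩ := greedy (K := K) (W := Fin n → K)
    (fun j => pts (K := K) (flag g a (a (π j)) : Submodule (AlgebraicClosure K)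
      (Fin n → AlgebraicClosure K))) (fun j => by
        rw [hdesc]
        have h1 : ((Finset.Iic j).map π.toEmbedding) ⊆
            Finset.univ.filter fun l => a (π j) ≤ a l := by
          intro l hl
          obtain ⟨i, hi, rfl⟩ := Finset.mem_map.1 hl
          exact Finset.mem_filter.2 ⟨Finset.mem_univ _, hπ (Finset.mem_Iic.1 hi)⟩
        have h2 := Finset.card_le_card h1
        rw [Finset.card_map, Fin.card_Iic] at h2
        exact h2)
  let h' : Fin n → Fin n → K := fun j => h (π.symm j)
  have hli' : LinearIndependent K h' := hli.comp _ π.symm.injective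
  have hmem' : ∀ j, algebraMap K (AlgebraicClosure K) ∘ h' j ∈
      (flag g a (a j) : Submodule (AlgebraicClosure K) (Fin n → AlgebraicClosure K)) := by
    intro j
    have h1 := hmem (π.symm j)
    rw [Equiv.apply_symm_apply] at h1
    exact h1
  have hliM : LinearIndependent (AlgebraicClosure K)
      (fun j => algebraMap K (AlgebraicClosure K) ∘ h' j) :=
    linearIndependent_algebraMap_comp_iff.2 hli'
  have hspM : Submodule.span (AlgebraicClosure K)
      (Set.range fun j => algebraMap K (AlgebraicClosure K) ∘ h' j) = ⊤ := by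
    apply Submodule.eq_top_of_finrank_eq
    rw [finrank_span_eq_card hliM]
    simp
  have hDest := hg.change hliM hspM hg.2.2.1 hmem'
  have hOm : Finite (Om n N) := inferInstance
  have hOmF : Fintype (Om n N) := Fintype.ofFinite _
  have hreal : ∀ i J, act (Matrix.of h') (T i) J ≠ 0 → ∑ k, a (J k) < 0 := by
    intro i J hne
    have h1 : form (fun I => algebraMap K (AlgebraicClosure K) (T i I))
        (fun k => algebraMap K (AlgebraicClosure K) ∘ h' (J k)) ≠ 0 := by
      have h2 := act_map (algebraMap K (AlgebraicClosure K)) (Matrix.of h') (T i) J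
      rw [act_eq_form] at h2
      intro h0
      apply hne
      apply (algebraMap K (AlgebraicClosure K)).injective
      rw [← h2, map_zero]
      exact h0
    have h3 := hDest.2.2.2 (N i) (form fun I => algebraMap K (AlgebraicClosure K) (T i I))
      ⟨i, rfl, fun x => rfl⟩ J h1
    linarith
  obtain ⟨b, hb0, hb⟩ := int_weights (Finset.univ.filter fun ω : Om n N =>
    act (Matrix.of h') (T ω.1) ω.2 ≠ 0) a hg.2.2.1 hn
      (fun ω hω => hreal ω.1 ω.2 (Finset.mem_filter.1 hω).2)
  refine ⟨Matrix.of h', b, ?_, hb0, fun i J hne =>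
    hb ⟨i, J⟩ (Finset.mem_filter.2 ⟨Finset.mem_univ _, hne⟩)⟩
  have h1 : IsUnit (Matrix.of h') := Matrix.linearIndependent_rows_iff_isUnit.1 hli'
  exact ((Matrix.isUnit_iff_isUnit_det _).1 h1).ne_zero

end Pool.Agent.Helper91.HM
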