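import Pool.Agent.Helper91.HM.Def
import Pool.Agent.Helper91.HM.Rat

/-!
Sections of multiples of the log canonical divisor from orbifold tensor differentials and
invariants.
-/

set_option autoImplicit false
set_option linter.unusedSectionVars false

namespace Pool.Agent.Helper91.HM

open Module FF Pool.Agent.W602.GT Pool.Agent.W603.LV Pool.Agent.TH143.GT Pool.Agent.Y220.OG
  Pool.Agent.Helper12.BL

section gr

variable {k K : Type} [Field k] [Field K] [Algebra k K]

/-- the order of `f` is at least the real number `c` -/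
def Gr (P : Place k K) (c : ℝ) (f : K) : Prop := f = 0 ∨ c ≤ (P.ord f : ℝ)

namespace Gr

variable {P : Place k K} {c c' : ℝ} {f g : K}

theorem zero : Gr P c 0 := Or.inl rfl

theorem mono (h : c' ≤ c) (hf : Gr P c f) : Gr P c' f := by
  rcases hf with hf | hf
  · exact Or.inl hf
  · exact Or.inr (h.trans hf)

theorem add (hf : Gr P c f) (hg : Gr P c g) : Gr P c (f + g) := by
  by_cases h1 : f = 0
  · rwa [h1, zero_add]
  by_cases h2 : g = 0
  · rwa [h2, add_zero]
  by_cases h3 : f + g = 0
  · exact Or.inl h3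
  · right
    have h4 := P.ord_add h1 h2 h3
    have h5 : ((min (P.ord f) (P.ord g) : ℤ) : ℝ) ≤ P.ord (f + g) := by exact_mod_cast h4
    have h6 : c ≤ ((min (P.ord f) (P.ord g) : ℤ) : ℝ) := by
      rw [Int.cast_min]
      exact le_min (hf.resolve_left h1) (hg.resolve_left h2)
    exact h6.trans h5

theorem mul (hf : Gr P c f) (hg : Gr P c' g) : Gr P (c + c') (f * g) := by
  by_cases h1 : f = 0
  · left; simp [h1]
  by_cases h2 : g = 0
  · left; simp [h2]
  right
  rw [P.ord_mul h1 h2]
  push_cast
  exact add_le_add (hf.resolve_left h1) (hg.resolve_left h2)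

theorem sum {ι : Type*} (s : Finset ι) (F : ι → K) (h : ∀ i ∈ s, Gr P c (F i)) :
    Gr P c (∑ i ∈ s, F i) := by
  classical
  induction s using Finset.induction_on with
  | empty => simpa using Gr.zero (P := P)
  | insert a s ha ih =>
    rw [Finset.sum_insert ha]
    exact (h a (Finset.mem_insert_self a s)).add (ih fun i hi => h i (Finset.mem_insert_of_mem hi))

theorem one : Gr P 0 (1 : K) := by
  right
  rw [P.ord_one]
  simp

theorem const (x : k) : Gr P 0 (algebraMap k K x) := by
  by_cases hx : x = 0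
  · left
    rw [hx, map_zero]
  · right
    rw [P.ord_const hx]
    simp

theorem prod {ι : Type*} (s : Finset ι) (F : ι → K) (n : ι → ℝ) (h : ∀ i ∈ s, Gr P (n i) (F i)) :
    Gr P (∑ i ∈ s, n i) (∏ i ∈ s, F i) := by
  classical
  induction s using Finset.induction_on with
  | empty => simpa using Gr.one (P := P)
  | insert a s ha ih =>
    rw [Finset.prod_insert ha, Finset.sum_insert ha]
    exact (h a (Finset.mem_insert_self a s)).mul (ih fun i hi => h i (Finset.mem_insert_of_mem hi))

theorem root {m : ℕ} (hm : 0 < m) (h : Gr P (m * c) (f ^ m)) : Gr P c f := by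
  by_cases h0 : f = 0
  · exact Or.inl h0
  · right
    have h1 := h.resolve_left (pow_ne_zero _ h0)
    rw [P.ord_pow] at h1
    push_cast at h1
    have h2 : (0 : ℝ) < m := by exact_mod_cast hm
    exact le_of_mul_le_mul_left h1 h2

end Gr

/-- regular vector fields can be changed, by a substitution of determinant one, such that they are
logarithmic, with one exception -/
theorem reg_change {n : ℕ} (hn : 0 < n) {P : Place k K} {D : Fin n → Derivation k K K}
    (hD : ∀ i, DerReg P (D i)) : ∃ (A : Matrix (Fin n) (Fin n) K) (i0 : Fin n), A.det = 1 ∧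
      (∀ i, DerReg P (∑ j, A i j • D j)) ∧ ∀ i, i ≠ i0 → DerLog P (∑ j, A i j • D j) := by
  classical
  obtain ⟨t, ht0, ht⟩ := P.surj
  have htr : P.Reg t := Or.inr (by rw [ht]; norm_num)
  by_cases hall : ∀ i, Ge P 1 (D i t)
  · have h1 : ∀ i, ∑ j, (1 : Matrix (Fin n) (Fin n) K) i j • D j = D i := by
      intro i
      rw [Finset.sum_eq_single i]
      · rw [Matrix.one_apply_eq, one_smul]
      · intro j _ hj
        rw [Matrix.one_apply_ne hj.symm, zero_smul]
      · simp
    refine ⟨1, ⟨0, hn⟩, Matrix.det_one, fun i => ?_, fun i _ => ?_⟩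
    · rw [h1]
      exact hD i
    · rw [h1]
      exact log_of_reg (hD i) ht0 ht (hall i)
  · push Not at hall
    obtain ⟨i0, hi0⟩ := hall
    have hne : D i0 t ≠ 0 := fun h => hi0 (Or.inl h)
    have ho : P.ord (D i0 t) = 0 := by
      have h1 := (hD i0 t htr).resolve_left hne
      have h2 : ¬ 1 ≤ P.ord (D i0 t) := fun h => hi0 (Or.inr h)
      omega
    obtain ⟨c, hc⟩ : ∃ c : Fin n → K, ∀ i, c i = D i t / D i0 t := ⟨_, fun _ => rfl⟩
    have hcr : ∀ i, P.Reg (c i) := by
      intro i
      rw [hc, reg_iff_ge]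
      have := ge_div hne (hD i t htr)
      rwa [ho, sub_zero] at this
    obtain ⟨M, hM⟩ : ∃ M : Matrix (Fin n) (Fin n) K,
      M = (1 : Matrix (Fin n) (Fin n) K).updateCol i0 fun i => if i = i0 then 1 else - c i :=
        ⟨_, rfl⟩
    have hsum : ∀ i, ∑ j, M i j • D j = if i = i0 then D i0 else D i - c i • D i0 := by
      intro i
      rw [← Finset.add_sum_erase _ _ (Finset.mem_univ i0), hM, Matrix.updateCol_self]
      have h1 : ∀ j ∈ Finset.univ.erase i0, (1 : Matrix (Fin n) (Fin n) K).updateCol i0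
          (fun i => if i = i0 then 1 else - c i) i j • D j =
            if i = j then D i else 0 := by
        intro j hj
        rw [Matrix.updateCol_ne (Finset.ne_of_mem_erase hj), Matrix.one_apply]
        split_ifs with h
        · rw [one_smul, h]
        · rw [zero_smul]
      rw [Finset.sum_congr rfl h1, Finset.sum_ite_eq]
      by_cases hi : i = i0
      · rw [if_pos hi, if_pos hi, if_neg (by rw [hi]; exact Finset.notMem_erase _ _), one_smul,
          add_zero]
      · rw [if_neg hi, if_neg hi, if_pos (Finset.mem_erase.mpr ⟨hi, Finset.mem_univ _⟩), neg_smul]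
        abel
    refine ⟨M, i0, ?_, fun i => ?_, fun i hi => ?_⟩
    · rw [hM]
      have h3 : ((1 : Matrix (Fin n) (Fin n) K).updateCol i0
          fun i => if i = i0 then 1 else - c i).det = (fun i => if i = i0 then (1 : K) else - c i) i0 := by
        rw [← Matrix.cramer_apply, Matrix.cramer_one]
        rfl
      rw [h3]
      exact if_pos rfl
    · rw [hsum]
      split_ifs with hi
      · exact hD i0
      · exact derReg_sub (hD i) (derReg_smul (hD i0) (hcr i))
    · rw [hsum, if_neg hi]
      refine log_of_reg (derReg_sub (hD i) (derReg_smul (hD i0) (hcr i))) ht0 ht (Or.inl ?_)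
      rw [Derivation.sub_apply, Derivation.smul_apply, smul_eq_mul, hc, div_mul_cancel₀ _ hne,
        sub_self]

end gr

section inv

variable {K : Type} [Field K] [Algebra ℂ K] [Algebra ℝ K] [IsScalarTower ℝ ℂ K] {n : ℕ} {ι : Type}
  {N : ι → ℕ}

/-- the coordinates of the tensors with respect to the vector fields `D` -/
def crd (s : ∀ i, MultilinearMap K (fun _ : Fin (N i) => Derivation ℂ K K) K)
    (D : Fin n → Derivation ℂ K K) : ∀ i, (Fin (N i) → Fin n) → K :=
  fun i I => s i (fun k => D (I k))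

theorem crd_act (s : ∀ i, MultilinearMap K (fun _ : Fin (N i) => Derivation ℂ K K) K)
    (D : Fin n → Derivation ℂ K K) (A : Matrix (Fin n) (Fin n) K) (i : ι) :
    crd s (fun i => ∑ j, A i j • D j) i = act A (crd s D i) := by
  funext J
  rw [crd, act, MultilinearMap.map_sum]
  refine Finset.sum_congr rfl fun I _ => ?_
  exact (s i).map_smul_univ (fun k => A (J k) (I k)) (fun k => D (I k))

/-- the form which is given by an invariant -/
noncomputable def invForm (s : ∀ i, MultilinearMap K (fun _ : Fin (N i) => Derivation ℂ K K) K)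
    {Q : Type} [Fintype Q] [DecidableEq Q] (ν : Q → ι) (p : ((Σ q, Fin (N (ν q))) → Fin n) → ℝ)
    (D : Fin n → Derivation ℂ K K) : K :=
  ∑ I, algebraMap ℝ K (p I) * wordT (crd s D) ν I

theorem invForm_pluri (s : ∀ i, MultilinearMap K (fun _ : Fin (N i) => Derivation ℂ K K) K)
    {Q : Type} [Fintype Q] [DecidableEq Q] (ν : Q → ι) {p : ((Σ q, Fin (N (ν q))) → Fin n) → ℝ}
    (hp : SLInv p) {m : ℕ} (hm : ∀ I', p I' ≠ 0 → ∀ i,
      (Finset.univ.filter fun k => I' k = i).card = m) :
    IsPluri m (invForm s ν p) := by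
  intro A D
  rw [invForm]
  have h1 : ∀ J, wordT (crd s (fun i => ∑ j, A i j • D j)) ν J = act A (wordT (crd s D) ν) J := by
    intro J
    rw [act_word, wordT]
    exact Finset.prod_congr rfl fun q _ => by rw [crd_act]
  simp only [h1, act]
  rw [invForm, Finset.mul_sum]
  simp only [Finset.mul_sum]
  rw [Finset.sum_comm]
  refine Finset.sum_congr rfl fun I _ => ?_
  rw [← mul_assoc, ← hp.semi hm A I, Finset.sum_mul]
  exact Finset.sum_congr rfl fun J _ => by ring

theorem invForm_section (hn : 0 < n) {X : Set (Place ℂ K)} {δ : Place ℂ K → ℝ}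
    (hδ : ∀ P ∈ X, 0 ≤ δ P)
    (s : ∀ i, MultilinearMap K (fun _ : Fin (N i) => Derivation ℂ K K) K)
    (hs : ∀ i, IsTensor n X δ (s i))
    {Q : Type} [Fintype Q] [DecidableEq Q] (ν : Q → ι) {p : ((Σ q, Fin (N (ν q))) → Fin n) → ℝ}
    (hp : SLInv p) {m : ℕ} (hm : ∀ I', p I' ≠ 0 → ∀ i,
      (Finset.univ.filter fun k => I' k = i).card = m) :
    IsSection n X δ m (invForm s ν p) := by
  classical
  refine ⟨invForm_pluri s ν hp hm, fun P hP hdiv D hD => ?_⟩
  obtain ⟨A, i0, hA, hreg, hlog⟩ := reg_change hn hD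
  have h1 := invForm_pluri s ν hp hm A D
  rw [hA, one_pow, one_mul] at h1
  rw [← h1]
  change Gr P _ _
  refine Gr.sum _ _ fun I _ => ?_
  by_cases hI : p I = 0
  · rw [hI, map_zero, zero_mul]
    exact Gr.zero
  have h2 : Gr P 0 (algebraMap ℝ K (p I)) := by
    rw [IsScalarTower.algebraMap_apply ℝ ℂ K]
    exact Gr.const _
  have h3 : ∀ q : Q, Gr P (-(((Finset.univ.filter fun l : Fin (N (ν q)) => I ⟨q, l⟩ = i0).card : ℝ) *
      δ P)) (crd s (fun i => ∑ j, A i j • D j) (ν q) (fun l => I ⟨q, l⟩)) := by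
    intro q
    have h4 := hs (ν q) P hP hdiv (fun l => ∑ j, A (I ⟨q, l⟩) j • D j) (fun l => hreg _)
    refine Gr.mono ?_ h4
    rw [neg_le_neg_iff]
    refine mul_le_mul_of_nonneg_right ?_ (hδ P hP)
    rw [Nat.card_eq_fintype_card, Fintype.card_subtype]
    have h5 : (Finset.univ.filter fun l : Fin (N (ν q)) => ¬ DerLog P (∑ j, A (I ⟨q, l⟩) j • D j)) ⊆
        Finset.univ.filter fun l : Fin (N (ν q)) => I ⟨q, l⟩ = i0 := by
      intro l hl
      rw [Finset.mem_filter] at hl ⊢
      refine ⟨hl.1, ?_⟩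
      by_contra hne
      exact hl.2 (hlog _ hne)
    exact_mod_cast Finset.card_le_card h5
  have h4 := h2.mul (Gr.prod Finset.univ _ _ fun q _ => h3 q)
  have h5 : (0 : ℝ) + ∑ q, -(((Finset.univ.filter fun l : Fin (N (ν q)) =>
      I ⟨q, l⟩ = i0).card : ℝ) * δ P) = -(m * δ P) := by
    rw [zero_add, Finset.sum_neg_distrib, ← Finset.sum_mul]
    congr 2
    have h6 := hm I hI i0
    rw [← h6, ← Nat.cast_sum]
    congr 1
    rw [Finset.card_filter, Fintype.sum_sigma]
    exact Finset.sum_congr rfl fun q _ => by rw [Finset.card_filter]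
  rw [h5] at h4
  exact h4

end inv

end Pool.Agent.Helper91.HM
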