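import Pool.Agent.Helper91.HM.Geo

/-!
Unstable tensors on pairs of negative Kodaira dimension.
-/

set_option autoImplicit false
set_option linter.unusedSectionVars false

namespace Pool.Agent.Helper91.HM

open Module FF Pool.Agent.W602.GT Pool.Agent.W603.LV Pool.Agent.TH143.GT Pool.Agent.Y220.OG
  Pool.Agent.Helper12.BL

section

variable {K : Type} [Field K] [Algebra ℂ K] {n : ℕ}

theorem exists_basis (hn : Algebra.trdeg ℂ K = n) : ∃ e : Fin n → Derivation ℂ K K,
    LinearIndependent K e ∧ Submodule.span K (Set.range e) = ⊤ := by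
  obtain ⟨y, hy⟩ := basis_of_trdeg hn
  obtain ⟨E, hE⟩ := exists_dual hy
  have hE' : ∀ i j, E i (y j) = if i = j then 1 else 0 := by
    intro i j
    have := congrFun (congrFun hE i) j
    rw [Matrix.of_apply, Matrix.one_apply] at this
    exact this
  have hD : Dual y E := ⟨hy, hE'⟩
  refine ⟨E, ?_, ?_⟩
  · rw [Fintype.linearIndependent_iff]
    intro c hc j
    have h1 : (∑ i, c i • E i) (y j) = (0 : Derivation ℂ K K) (y j) := by rw [hc]
    rw [Derivation.zero_apply, der_sum, Finset.sum_eq_single j] at h1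
    · rw [hE', if_pos rfl, smul_eq_mul, mul_one] at h1
      exact h1
    · intro i _ hi
      rw [hE', if_neg hi, smul_zero]
    · simp
  · rw [eq_top_iff]
    intro D _
    rw [hD.expand D]
    exact Submodule.sum_mem _ fun l _ => Submodule.smul_mem _ _ (Submodule.subset_span ⟨l, rfl⟩)

variable [Algebra ℝ K] [IsScalarTower ℝ ℂ K] {ι : Type} {N : ι → ℕ}

theorem invForm_smul (s : ∀ i, MultilinearMap K (fun _ : Fin (N i) => Derivation ℂ K K) K)
    {Q : Type} [Fintype Q] [DecidableEq Q] (ν : Q → ι) (c : Q → K)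
    (p : ((Σ q, Fin (N (ν q))) → Fin n) → ℝ) (D : Fin n → Derivation ℂ K K) :
    invForm (N := fun q => N (ν q)) (fun q => c q • s (ν q)) id p D =
      (∏ q, c q) * invForm s ν p D := by
  rw [invForm, invForm, Finset.mul_sum]
  refine Finset.sum_congr rfl fun I _ => ?_
  have h1 : wordT (N := fun q => N (ν q)) (crd (fun q => c q • s (ν q)) D) id I =
      (∏ q, c q) * wordT (crd s D) ν I := by
    rw [wordT, wordT, ← Finset.prod_mul_distrib]
    exact Finset.prod_congr rfl fun q _ => rfl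
  rw [h1]
  ring

theorem noInv (hn0 : 0 < n) {X : Set (Place ℂ K)} {δ : Place ℂ K → ℝ} (hδ : ∀ P ∈ X, 0 ≤ δ P)
    (hN : ∀ i, 0 < N i) (s : ∀ i, MultilinearMap K (fun _ : Fin (N i) => Derivation ℂ K K) K)
    {κ : ℕ} (hs : ∀ i, IsMovable n X δ κ (s i)) (hκ : ¬ KodairaGe n X δ κ)
    (D : Fin n → Derivation ℂ K K) : NoInv (crd s D) := by
  classical
  intro Q _ _ _ ν p hp
  by_contra hne
  apply hκ
  obtain ⟨I, -, hI⟩ := Finset.exists_ne_zero_of_sum_ne_zero hne
  have hI0 : p I ≠ 0 := fun h => hI (by rw [h, map_zero, zero_mul])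
  obtain ⟨m, hm1, hm2⟩ := hp.exists_m hn0 hI0
  obtain ⟨q0⟩ : Nonempty Q := inferInstance
  have hm0 : 0 < m := by
    rcases Nat.eq_zero_or_pos m with h | h
    · exfalso
      rw [h, mul_zero, Fintype.card_eq_zero_iff] at hm1
      exact hm1.elim ⟨q0, ⟨0, hN _⟩⟩
    · exact h
  obtain ⟨h0, f, hf, hfs⟩ := hs (ν q0)
  obtain ⟨F, hF0, hF⟩ : ∃ F : Fin (κ + 1) → K, F 0 = 1 ∧ ∀ j, F (Fin.succ j) = f j :=
    ⟨Fin.cons 1 f, rfl, fun _ => rfl⟩
  have hFs : ∀ j, IsTensor n X δ (F j • s (ν q0)) := by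
    intro j
    refine Fin.cases ?_ (fun j => ?_) j
    · rw [hF0, one_smul]
      exact h0
    · rw [hF]
      exact hfs j
  have hc : ∀ j, ∏ q, (if q = q0 then F j else 1) = F j := fun j => by
    rw [Finset.prod_ite_eq' Finset.univ q0 (fun _ => F j), if_pos (Finset.mem_univ _)]
  refine ⟨m, hm0, fun j => invForm (N := fun q => N (ν q))
    (fun q => (if q = q0 then F j else 1) • s (ν q)) id p, fun j => ?_, D, ?_, ?_⟩
  · refine invForm_section hn0 hδ (N := fun q => N (ν q))
      (fun q => (if q = q0 then F j else 1) • s (ν q)) (fun q => ?_) id hp hm2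
    split_ifs with hq
    · subst hq
      exact hFs j
    · rw [one_smul]
      exact (hs _).1
  · change invForm (N := fun q => N (ν q)) (fun q => (if q = q0 then F 0 else 1) • s (ν q))
      id p D ≠ 0
    rw [invForm_smul, hc, hF0, one_mul]
    exact hne
  · have h1 : (fun j : Fin κ => invForm (N := fun q => N (ν q))
        (fun q => (if q = q0 then F j.succ else 1) • s (ν q)) id p D /
        invForm (N := fun q => N (ν q)) (fun q => (if q = q0 then F 0 else 1) • s (ν q)) id p D) =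
          f := by
      funext j
      rw [invForm_smul, invForm_smul, hc, hc, hF0, one_mul, hF]
      exact mul_div_cancel_right₀ _ hne
    rw [h1]
    exact hf

end

theorem hm_main {K : Type} [Field K] [Algebra ℂ K] {n : ℕ} (hn : Algebra.trdeg ℂ K = n)
    (hn0 : 0 < n) {ι : Type} {N : ι → ℕ} [Finite ι] {X : Set (Place ℂ K)} {δ : Place ℂ K → ℝ}
    (hδ : ∀ P ∈ X, 0 ≤ δ P)
    (hN : ∀ i, 0 < N i) (s : ∀ i, MultilinearMap K (fun _ : Fin (N i) => Derivation ℂ K K) K)
    {κ : ℕ} (hs : ∀ i, IsMovable n X δ κ (s i)) (hκ : ¬ KodairaGe n X δ κ) :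
    ∃ (b : Fin n → Derivation ℂ K K) (a : Fin n → ℤ), LinearIndependent K b ∧
      Submodule.span K (Set.range b) = ⊤ ∧ ∑ j, a j = 0 ∧ ∀ i, Destabilises b a (s i) := by
  classical
  let _ : Algebra ℝ K := Algebra.compHom K (algebraMap ℝ ℂ)
  have _ : IsScalarTower ℝ ℂ K := IsScalarTower.of_algebraMap_eq fun _ => rfl
  obtain ⟨e, he, hes⟩ := exists_basis (K := K) hn
  obtain ⟨g, a, hg, ha, hact⟩ := hmk hn0 (crd s e) (noInv hn0 hδ hN s hs hκ e)
  have hcomb : ∀ (A : Matrix (Fin n) (Fin n) K) (i : Fin n) (B : Matrix (Fin n) (Fin n) K),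
      ∑ j, A i j • ∑ l, B j l • e l = ∑ l, (A * B) i l • e l := by
    intro A i B
    simp only [Finset.smul_sum, smul_smul]
    rw [Finset.sum_comm]
    refine Finset.sum_congr rfl fun l _ => ?_
    rw [← Finset.sum_smul, Matrix.mul_apply]
  have hgu : IsUnit g.det := isUnit_iff_ne_zero.2 hg
  refine ⟨fun i => ∑ j, g i j • e j, a, ?_, ?_, ha, fun i J hne => ?_⟩
  · rw [Fintype.linearIndependent_iff]
    intro c hc
    have h1 := hcomb (Matrix.of fun _ => c) ⟨0, hn0⟩ g
    simp only [Matrix.of_apply] at h1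
    rw [hc] at h1
    have h2 := Fintype.linearIndependent_iff.1 he _ h1.symm
    have h3 : Matrix.vecMul c g = 0 := by
      funext l
      have := h2 l
      rw [Matrix.mul_apply] at this
      rw [Matrix.vecMul, dotProduct]
      exact this
    have h4 : c = 0 := by
      have h5 : Matrix.vecMul (Matrix.vecMul c g) g⁻¹ = Matrix.vecMul 0 g⁻¹ := by rw [h3]
      rw [Matrix.vecMul_vecMul, Matrix.mul_nonsing_inv _ hgu, Matrix.vecMul_one,
        Matrix.zero_vecMul] at h5
      exact h5
    exact fun i => congrFun h4 i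
  · rw [eq_top_iff, ← hes, Submodule.span_le]
    rintro _ ⟨i, rfl⟩
    have h1 := hcomb g⁻¹ i g
    rw [Matrix.nonsing_inv_mul _ hgu] at h1
    have h2 : ∑ l, (1 : Matrix (Fin n) (Fin n) K) i l • e l = e i := by
      rw [Finset.sum_eq_single i]
      · rw [Matrix.one_apply_eq, one_smul]
      · intro j _ hj
        rw [Matrix.one_apply_ne hj.symm, zero_smul]
      · simp
    rw [h2] at h1
    rw [← h1]
    exact Submodule.sum_mem _ fun l _ => Submodule.smul_mem _ _ (Submodule.subset_span ⟨l, rfl⟩)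
  · apply hact i J
    rw [← crd_act]
    exact hne

end Pool.Agent.Helper91.HM
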