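import Mathlib

/-!
Positive elements of ordered abelian groups: integral weights (Gordan's theorem).
-/

set_option autoImplicit false

namespace Pool.Agent.Helper91.HM

theorem gordan {Γ : Type*} [CommGroup Γ] [LinearOrder Γ] [IsOrderedMonoid Γ] :
    ∀ (n : ℕ) (γ : Fin n → Γ) (A : Finset (Fin n → ℤ)), (∀ a ∈ A, 1 < ∏ j, γ j ^ a j) →
      ∃ w : Fin n → ℚ, ∀ a ∈ A, 0 < ∑ j, w j * a j := by
  classical
  intro n
  induction n with
  | zero =>
    intro γ A h
    refine ⟨fun _ => 0, fun a ha => ?_⟩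
    have := h a ha
    simp at this
  | succ n ih =>
    intro γ A h
    let ini : (Fin (n + 1) → ℤ) → (Fin n → ℤ) := fun a j => a j.castSucc
    let mix : (Fin (n + 1) → ℤ) → (Fin (n + 1) → ℤ) → (Fin n → ℤ) := fun a b j =>
      (-(b (Fin.last n))) * a j.castSucc + a (Fin.last n) * b j.castSucc
    let A0 := A.filter fun a => a (Fin.last n) = 0
    let Ap := A.filter fun a => 0 < a (Fin.last n)
    let Am := A.filter fun a => a (Fin.last n) < 0
    obtain ⟨w, hw⟩ := ih (fun j => γ j.castSucc)
      (A0.image ini ∪ (Ap ×ˢ Am).image fun q => mix q.1 q.2) (by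
        intro a ha
        rcases Finset.mem_union.1 ha with ha | ha
        · obtain ⟨a', ha', rfl⟩ := Finset.mem_image.1 ha
          obtain ⟨ha'', ha0⟩ := Finset.mem_filter.1 ha'
          have := h a' ha''
          rw [Fin.prod_univ_castSucc, ha0, zpow_zero, mul_one] at this
          exact this
        · obtain ⟨⟨a, b⟩, hq, rfl⟩ := Finset.mem_image.1 ha
          obtain ⟨hap, hbm⟩ := Finset.mem_product.1 hq
          obtain ⟨ha, ha0⟩ := Finset.mem_filter.1 hap
          obtain ⟨hb, hb0⟩ := Finset.mem_filter.1 hbm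
          dsimp only at ha ha0 hb hb0 ⊢
          have h1 := h a ha
          have h2 := h b hb
          have h3 : 1 < (∏ j, γ j ^ a j) ^ (-(b (Fin.last n))) :=
            one_lt_zpow h1 (by omega)
          have h4 : 1 < (∏ j, γ j ^ b j) ^ (a (Fin.last n)) := one_lt_zpow h2 ha0
          have h5 := one_lt_mul' h3 h4
          have h6 : (∏ j, γ j ^ a j) ^ (-(b (Fin.last n))) *
              (∏ j, γ j ^ b j) ^ (a (Fin.last n)) =
              ∏ j : Fin n, γ j.castSucc ^ mix a b j := by
            rw [Fin.prod_univ_castSucc, Fin.prod_univ_castSucc, mul_zpow, mul_zpow,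
              ← Finset.prod_zpow, ← Finset.prod_zpow, mul_mul_mul_comm,
              ← Finset.prod_mul_distrib]
            have h7 : (γ (Fin.last n) ^ a (Fin.last n)) ^ (-(b (Fin.last n))) *
                (γ (Fin.last n) ^ b (Fin.last n)) ^ (a (Fin.last n)) = 1 := by
              rw [← zpow_mul, ← zpow_mul, ← zpow_add]
              have : a (Fin.last n) * -(b (Fin.last n)) + b (Fin.last n) * a (Fin.last n) = 0 := by
                ring
              rw [this, zpow_zero]
            rw [h7, mul_one]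
            refine Finset.prod_congr rfl fun j _ => ?_
            rw [← zpow_mul, ← zpow_mul, ← zpow_add]
            congr 1
            simp only [mix]
            ring
          rwa [h6] at h5)
    obtain ⟨t, ht1, ht2⟩ := Order.exists_between_finsets
      (Ap.image fun a => -(∑ j : Fin n, w j * (a j.castSucc : ℚ)) / (a (Fin.last n) : ℚ))
      (Am.image fun b => (∑ j : Fin n, w j * (b j.castSucc : ℚ)) / (-(b (Fin.last n) : ℚ)))
      (by
        intro x hx y hy
        obtain ⟨a, ha, rfl⟩ := Finset.mem_image.1 hx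
        obtain ⟨b, hb, rfl⟩ := Finset.mem_image.1 hy
        have h1 := hw (mix a b) (Finset.mem_union_right _ (Finset.mem_image.2
          ⟨(a, b), Finset.mem_product.2 ⟨ha, hb⟩, rfl⟩))
        have ha0 : (0 : ℚ) < (a (Fin.last n) : ℚ) := by
          exact_mod_cast (Finset.mem_filter.1 ha).2
        have hb0 : (0 : ℚ) < -(b (Fin.last n) : ℚ) := by
          have : b (Fin.last n) < 0 := (Finset.mem_filter.1 hb).2
          have h2 : (b (Fin.last n) : ℚ) < 0 := by exact_mod_cast this
          linarith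
        rw [div_lt_div_iff₀ ha0 hb0]
        have h3 : ∑ j : Fin n, w j * ((mix a b j : ℤ) : ℚ) =
            (-(b (Fin.last n) : ℚ)) * (∑ j : Fin n, w j * (a j.castSucc : ℚ)) +
              (a (Fin.last n) : ℚ) * ∑ j : Fin n, w j * (b j.castSucc : ℚ) := by
          rw [Finset.mul_sum, Finset.mul_sum, ← Finset.sum_add_distrib]
          refine Finset.sum_congr rfl fun j _ => ?_
          simp only [mix]
          push_cast
          ring
        rw [h3] at h1
        linarith)
    refine ⟨Fin.snoc w t, fun a ha => ?_⟩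
    rw [Fin.sum_univ_castSucc]
    simp only [Fin.snoc_castSucc, Fin.snoc_last]
    rcases lt_trichotomy (a (Fin.last n)) 0 with h0 | h0 | h0
    · have h1 := ht2 _ (Finset.mem_image.2 ⟨a, Finset.mem_filter.2 ⟨ha, h0⟩, rfl⟩)
      have h2 : (a (Fin.last n) : ℚ) < 0 := by exact_mod_cast h0
      rw [lt_div_iff₀ (by linarith)] at h1
      linarith
    · have h1 := hw (ini a) (Finset.mem_union_left _ (Finset.mem_image.2
        ⟨a, Finset.mem_filter.2 ⟨ha, h0⟩, rfl⟩))
      rw [h0]
      simp only [ini] at h1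
      push_cast
      linarith
    · have h1 := ht1 _ (Finset.mem_image.2 ⟨a, Finset.mem_filter.2 ⟨ha, h0⟩, rfl⟩)
      have h2 : (0 : ℚ) < (a (Fin.last n) : ℚ) := by exact_mod_cast h0
      rw [div_lt_iff₀ h2] at h1
      linarith

/-- integral weights -/
theorem gordan_int {Γ : Type*} [CommGroup Γ] [LinearOrder Γ] [IsOrderedMonoid Γ]
    (n : ℕ) (γ : Fin n → Γ) (A : Finset (Fin n → ℤ)) (h : ∀ a ∈ A, 1 < ∏ j, γ j ^ a j) :
      ∃ w : Fin n → ℤ, ∀ a ∈ A, 0 < ∑ j, w j * a j := by
  classical
  obtain ⟨w, hw⟩ := gordan n γ A h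
  obtain ⟨d, hd0, hd⟩ : ∃ d : ℕ, 0 < d ∧ ∀ j, ∃ z : ℤ, (d : ℚ) * w j = z := by
    refine ⟨∏ j, (w j).den, Finset.prod_pos fun j _ => (w j).den_pos, fun j => ?_⟩
    obtain ⟨c, hc⟩ := Finset.dvd_prod_of_mem (fun j => (w j).den) (Finset.mem_univ j)
    refine ⟨c * (w j).num, ?_⟩
    rw [hc]
    push_cast
    have h1 : ((w j).den : ℚ) * w j = (w j).num := by
      rw [mul_comm]
      exact Rat.mul_den_eq_num _
    rw [mul_comm ((w j).den : ℚ) (c : ℚ), mul_assoc, h1]
  choose z hz using hd
  refine ⟨z, fun a ha => ?_⟩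
  have h1 := hw a ha
  have h2 : ((∑ j, z j * a j : ℤ) : ℚ) = d * ∑ j, w j * a j := by
    push_cast
    rw [Finset.mul_sum]
    refine Finset.sum_congr rfl fun j _ => ?_
    rw [← hz]
    ring
  have h3 : (0 : ℚ) < ((∑ j, z j * a j : ℤ) : ℚ) := by
    rw [h2]
    have : (0 : ℚ) < d := by exact_mod_cast hd0
    positivity
  exact_mod_cast h3

end Pool.Agent.Helper91.HM
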