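import Pool.Agent.Helper91.HM.Rey

/-!
Invariants from functions which are constant on an orbit, and their behaviour under all matrices.
-/

set_option autoImplicit false

namespace Pool.Agent.Helper91.HM

set_option linter.unusedSectionVars false

open Matrix

/-- the row vector `p` is invariant under the tensor powers of the real matrices of determinant
one -/
def SLInv {n : ℕ} {P : Type} [Fintype P] [DecidableEq P] (p : (P → Fin n) → ℝ) : Prop :=
  ∀ g : Matrix (Fin n) (Fin n) ℝ, g.det = 1 → ∀ I : P → Fin n,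
    ∑ I' : P → Fin n, p I' * ∏ k, g (I' k) (I k) = p I

theorem reynolds {n : ℕ} {Φ : Type} [Fintype Φ] (Q : Φ → Type) [∀ φ, Fintype (Q φ)]
    [∀ φ, DecidableEq (Q φ)]
    {K : Type} [Field K] [Algebra ℝ K] (T : ∀ φ, (Q φ → Fin n) → K) (J : ∀ φ, Q φ → Fin n)
    (c : Φ → K) (h : ∀ g : Matrix (Fin n) (Fin n) ℝ, g.det = 1 →
      ∑ φ, c φ * ∑ I : Q φ → Fin n, algebraMap ℝ K (∏ k, g (J φ k) (I k)) * T φ I = 1) :
    ∃ (φ : Φ) (p : (Q φ → Fin n) → ℝ), SLInv p ∧
      ∑ I, algebraMap ℝ K (p I) * T φ I ≠ 0 := by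
  classical
  let M : Matrix (Fin n) (Fin n) ℝ → Matrix (Unit ⊕ (Σ φ, (Q φ → Fin n)))
      (Unit ⊕ (Σ φ, (Q φ → Fin n))) ℝ := fun g =>
    fromBlocks 1 0 0 (blockDiagonal' fun φ => rho (Q φ) g)
  let S : Set (Matrix (Unit ⊕ (Σ φ, (Q φ → Fin n))) (Unit ⊕ (Σ φ, (Q φ → Fin n))) ℝ) :=
    {a | ∃ g, g.det = 1 ∧ a = M g}
  let Λ : Matrix (Unit ⊕ (Σ φ, (Q φ → Fin n))) (Unit ⊕ (Σ φ, (Q φ → Fin n))) ℝ → K := fun a =>
    ∑ φ, c φ * ∑ I : Q φ → Fin n,
      algebraMap ℝ K (a (Sum.inr ⟨φ, J φ⟩) (Sum.inr ⟨φ, I⟩)) * T φ I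
  obtain ⟨P, hP, hP1, hPS⟩ := rey S
    ⟨1, Matrix.det_one, by
      change (1 : Matrix _ _ ℝ) = fromBlocks 1 0 0 (blockDiagonal' fun φ => rho (Q φ) 1)
      have : (fun φ => rho (Q φ) (1 : Matrix (Fin n) (Fin n) ℝ)) = fun φ => 1 := by
        funext φ
        exact rho_one
      rw [this]
      have h2 : (blockDiagonal' fun φ => (1 : Matrix (Q φ → Fin n) (Q φ → Fin n) ℝ)) = 1 :=
        blockDiagonal'_one
      rw [h2, fromBlocks_one]⟩
    (by
      rintro _ ⟨g, hg, rfl⟩ _ ⟨g', hg', rfl⟩
      refine ⟨g * g', by rw [Matrix.det_mul, hg, hg', mul_one], ?_⟩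
      simp only [M, fromBlocks_multiply, Matrix.mul_zero, Matrix.zero_mul, add_zero,
        zero_add, mul_one]
      rw [← blockDiagonal'_mul]
      congr 2
      funext φ
      exact (rho_mul g g').symm)
    (by
      rintro _ ⟨g, hg, rfl⟩
      refine ⟨gᵀ, by rw [Matrix.det_transpose, hg], ?_⟩
      simp only [M, fromBlocks_transpose, Matrix.transpose_one, Matrix.transpose_zero]
      rw [blockDiagonal'_transpose]
      congr 2)
    (Sum.inl ())
    (by
      rintro _ ⟨g, hg, rfl⟩ j
      rcases j with j | j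
      · simp [M]
      · simp [M])
  have hΛ : ∀ a ∈ Submodule.span ℝ S, Λ a = algebraMap ℝ K (a (Sum.inl ()) (Sum.inl ())) := by
    intro a ha
    induction ha using Submodule.span_induction with
    | mem a ha =>
      obtain ⟨g, hg, rfl⟩ := ha
      have h1 : M g (Sum.inl ()) (Sum.inl ()) = 1 := by simp [M]
      rw [h1, map_one, ← h g hg]
      refine Finset.sum_congr rfl fun φ _ => ?_
      congr 1
      refine Finset.sum_congr rfl fun I _ => ?_
      have h2 : M g (Sum.inr ⟨φ, J φ⟩) (Sum.inr ⟨φ, I⟩) = rho (Q φ) g (J φ) I := by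
        simp only [M, fromBlocks_apply₂₂, blockDiagonal'_apply_eq]
      rw [h2]
      rfl
    | zero => simp [Λ]
    | add x y _ _ hx hy =>
      rw [Matrix.add_apply, map_add, ← hx, ← hy]
      simp only [Λ, Matrix.add_apply, map_add, add_mul, Finset.sum_add_distrib, mul_add]
    | smul r x _ hx =>
      rw [Matrix.smul_apply, smul_eq_mul, map_mul, ← hx]
      simp only [Λ, Matrix.smul_apply, smul_eq_mul, map_mul, Finset.mul_sum]
      refine Finset.sum_congr rfl fun φ _ => Finset.sum_congr rfl fun I _ => ?_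
      ring
  have h3 := hΛ P hP
  rw [hP1, map_one] at h3
  obtain ⟨φ, hφ⟩ : ∃ φ, ∑ I : Q φ → Fin n,
      algebraMap ℝ K (P (Sum.inr ⟨φ, J φ⟩) (Sum.inr ⟨φ, I⟩)) * T φ I ≠ 0 := by
    by_contra hcon
    push Not at hcon
    have h4 : Λ P = 0 := Finset.sum_eq_zero fun φ _ => by rw [hcon φ, mul_zero]
    rw [h4] at h3
    exact zero_ne_one h3
  refine ⟨φ, fun I => P (Sum.inr ⟨φ, J φ⟩) (Sum.inr ⟨φ, I⟩), fun g hg I => ?_, hφ⟩
  have h5 := congrFun (congrFun (hPS (M g) ⟨g, hg, rfl⟩) (Sum.inr ⟨φ, J φ⟩)) (Sum.inr ⟨φ, I⟩)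
  rw [Matrix.mul_apply, Fintype.sum_sum_type, Fintype.sum_sigma] at h5
  beta_reduce
  refine Eq.trans ?_ h5
  have h6 : ∀ x : Unit, P (Sum.inr ⟨φ, J φ⟩) (Sum.inl x) * M g (Sum.inl x) (Sum.inr ⟨φ, I⟩) = 0 := by
    intro x
    simp [M]
  rw [Finset.sum_congr rfl fun x _ => h6 x, Finset.sum_const_zero, zero_add,
    Finset.sum_eq_single φ]
  · refine Finset.sum_congr rfl fun I' _ => ?_
    congr 1
    simp only [M, fromBlocks_apply₂₂, blockDiagonal'_apply_eq]
    rfl
  · intro φ' _ hne
    refine Finset.sum_eq_zero fun I' _ => ?_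
    simp only [M, fromBlocks_apply₂₂]
    rw [blockDiagonal'_apply_ne _ _ _ hne, mul_zero]
  · simp

section

variable {n : ℕ} {P : Type} [Fintype P] [DecidableEq P] {p : (P → Fin n) → ℝ}

/-- invariant row vectors are supported on the balanced index functions -/
theorem SLInv.balanced (hp : SLInv p) {I : P → Fin n} (hI : p I ≠ 0) (i j : Fin n) :
    (Finset.univ.filter fun k => I k = i).card = (Finset.univ.filter fun k => I k = j).card := by
  classical
  by_cases hij : i = j
  · rw [hij]
  obtain ⟨d, hd⟩ : ∃ d : Fin n → ℝ, ∀ l, d l = if l = i then 2 else if l = j then 2⁻¹ else 1 :=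
    ⟨_, fun _ => rfl⟩
  have hdet : (Matrix.diagonal d).det = 1 := by
    rw [Matrix.det_diagonal]
    have h1 : ∀ l, d l = (if l = i then (2 : ℝ) else 1) * (if l = j then (2 : ℝ)⁻¹ else 1) := by
      intro l
      rw [hd]
      by_cases h1 : l = i
      · rw [if_pos h1, if_pos h1, if_neg (by rw [h1]; exact hij), mul_one]
      · rw [if_neg h1, if_neg h1, one_mul]
    rw [Finset.prod_congr rfl fun l _ => h1 l, Finset.prod_mul_distrib,
      Finset.prod_ite_eq' Finset.univ i (fun _ => (2 : ℝ)),
      Finset.prod_ite_eq' Finset.univ j (fun _ => (2 : ℝ)⁻¹)]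
    simp
  have h2 := hp _ hdet I
  rw [Finset.sum_eq_single I] at h2
  · have h3 : ∏ k, Matrix.diagonal d (I k) (I k) = 1 := by
      have := mul_left_cancel₀ hI (h2.trans (mul_one _).symm)
      exact this
    have h4 : ∏ k, Matrix.diagonal d (I k) (I k) =
        2 ^ (Finset.univ.filter fun k => I k = i).card *
          2⁻¹ ^ (Finset.univ.filter fun k => I k = j).card := by
      have h5 : ∀ k, Matrix.diagonal d (I k) (I k) =
          (if I k = i then (2 : ℝ) else 1) * (if I k = j then (2 : ℝ)⁻¹ else 1) := by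
        intro k
        rw [Matrix.diagonal_apply_eq, hd]
        by_cases h1 : I k = i
        · rw [if_pos h1, if_pos h1, if_neg (by rw [h1]; exact hij), mul_one]
        · rw [if_neg h1, if_neg h1, one_mul]
      rw [Finset.prod_congr rfl fun k _ => h5 k, Finset.prod_mul_distrib, Finset.prod_ite,
        Finset.prod_ite, Finset.prod_const, Finset.prod_const_one, Finset.prod_const,
        Finset.prod_const_one, mul_one, mul_one]
    rw [h4, inv_pow, ← div_eq_mul_inv, div_eq_one_iff_eq (by positivity)] at h3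
    exact Nat.pow_right_injective (le_refl 2) (by exact_mod_cast h3)
  · intro I' _ hne
    obtain ⟨k, hk⟩ := Function.ne_iff.1 hne
    have h0 : ∏ k, Matrix.diagonal d (I' k) (I k) = 0 :=
      Finset.prod_eq_zero (Finset.mem_univ k) (Matrix.diagonal_apply_ne d hk)
    rw [h0, mul_zero]
  · simp

theorem SLInv.exists_m (hp : SLInv p) (hn : 0 < n) {I : P → Fin n} (hI : p I ≠ 0) :
    ∃ m : ℕ, Fintype.card P = n * m ∧
      ∀ I', p I' ≠ 0 → ∀ i, (Finset.univ.filter fun k => I' k = i).card = m := by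
  classical
  have h1 : ∀ I', p I' ≠ 0 → ∀ i, n * (Finset.univ.filter fun k => I' k = i).card =
      Fintype.card P := by
    intro I' hI' i
    have h2 := Finset.card_eq_sum_card_fiberwise (f := I') (s := Finset.univ) (t := Finset.univ)
      (fun _ _ => Finset.mem_coe.2 (Finset.mem_univ _))
    rw [Finset.card_univ] at h2
    rw [h2, Finset.sum_congr rfl fun j _ => hp.balanced hI' j i, Finset.sum_const,
      Finset.card_univ, Fintype.card_fin, smul_eq_mul]
  refine ⟨(Finset.univ.filter fun k => I k = ⟨0, hn⟩).card, (h1 I hI _).symm, fun I' hI' i => ?_⟩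
  have h3 := (h1 I' hI' i).trans (h1 I hI ⟨0, hn⟩).symm
  exact Nat.eq_of_mul_eq_mul_left hn h3

variable {K : Type} [Field K] [Algebra ℝ K]

/-- `p` is invariant under transvections over all extension fields -/
theorem SLInv.transvection (hp : SLInv p) {i j : Fin n} (hij : i ≠ j) (x : K) (I : P → Fin n) :
    ∑ I' : P → Fin n, algebraMap ℝ K (p I') * ∏ k, Matrix.transvection i j x (I' k) (I k) =
      algebraMap ℝ K (p I) := by
  classical
  have h1 : ∑ I' : P → Fin n, Polynomial.C (p I') *
      ∏ k, Matrix.transvection i j (Polynomial.X : Polynomial ℝ) (I' k) (I k) =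
        Polynomial.C (p I) := by
    refine Polynomial.funext fun y => ?_
    rw [Polynomial.eval_finsetSum, Polynomial.eval_C]
    have h2 := hp (Matrix.transvection i j y) (Matrix.det_transvection_of_ne i j hij y) I
    rw [← h2]
    refine Finset.sum_congr rfl fun I' _ => ?_
    rw [Polynomial.eval_mul, Polynomial.eval_C, Polynomial.eval_prod]
    congr 1
    refine Finset.prod_congr rfl fun k _ => ?_
    simp only [Matrix.transvection, Matrix.add_apply, Matrix.one_apply, Matrix.single_apply,
      Polynomial.eval_add]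
    congr 1
    · split_ifs <;> simp
    · split_ifs <;> simp
  have h3 := congrArg (Polynomial.aeval x) h1
  rw [map_sum, Polynomial.aeval_C] at h3
  rw [← h3]
  refine Finset.sum_congr rfl fun I' _ => ?_
  rw [map_mul, Polynomial.aeval_C, map_prod]
  congr 1
  refine Finset.prod_congr rfl fun k _ => ?_
  simp only [Matrix.transvection, Matrix.add_apply, Matrix.one_apply, Matrix.single_apply,
    map_add]
  congr 1
  · split_ifs <;> simp
  · split_ifs <;> simp

/-- `p` is a semi-invariant of weight `det ^ m` under all matrices over all extension fields -/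
theorem SLInv.semi (hp : SLInv p) {m : ℕ} (hm : ∀ I', p I' ≠ 0 → ∀ i,
    (Finset.univ.filter fun k => I' k = i).card = m) (A : Matrix (Fin n) (Fin n) K) :
    ∀ I : P → Fin n, ∑ I' : P → Fin n, algebraMap ℝ K (p I') * ∏ k, A (I' k) (I k) =
      A.det ^ m * algebraMap ℝ K (p I) := by
  classical
  induction A using Matrix.diagonal_transvection_induction with
  | hdiag D hD =>
    intro I
    rw [Finset.sum_eq_single I]
    · by_cases hI : p I = 0
      · rw [hI, map_zero, zero_mul, mul_zero]
      · rw [mul_comm]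
        congr 1
        rw [Matrix.det_diagonal, ← Finset.prod_pow,
          Finset.prod_congr rfl fun k _ => Matrix.diagonal_apply_eq D (I k),
          ← Finset.prod_fiberwise_of_maps_to (g := I) (t := Finset.univ)
            (fun _ _ => Finset.mem_univ _)]
        refine Finset.prod_congr rfl fun i _ => ?_
        rw [Finset.prod_congr rfl fun k hk => by rw [(Finset.mem_filter.1 hk).2],
          Finset.prod_const, hm I hI i]
    · intro I' _ hne
      obtain ⟨k, hk⟩ := Function.ne_iff.1 hne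
      have h0 : ∏ k, Matrix.diagonal D (I' k) (I k) = 0 :=
        Finset.prod_eq_zero (Finset.mem_univ k) (Matrix.diagonal_apply_ne D hk)
      rw [h0, mul_zero]
    · simp
  | htransvec t =>
    intro I
    rw [Matrix.TransvectionStruct.det, one_pow, one_mul]
    exact hp.transvection t.hij t.c I
  | hmul A B hA hB =>
    intro I
    have h1 : ∀ I' : P → Fin n, ∏ k, (A * B) (I' k) (I k) =
        ∑ L : P → Fin n, (∏ k, A (I' k) (L k)) * ∏ k, B (L k) (I k) := by
      intro I'
      have := congrFun (congrFun (rho_mul (P := P) A B) I') I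
      rw [Matrix.mul_apply] at this
      exact this
    simp only [h1, Finset.mul_sum]
    rw [Finset.sum_comm]
    have h2 : ∀ L : P → Fin n, ∑ I' : P → Fin n, algebraMap ℝ K (p I') *
        ((∏ k, A (I' k) (L k)) * ∏ k, B (L k) (I k)) =
          A.det ^ m * (algebraMap ℝ K (p L) * ∏ k, B (L k) (I k)) := by
      intro L
      rw [← mul_assoc, ← hA L, Finset.sum_mul]
      refine Finset.sum_congr rfl fun I' _ => ?_
      ring
    rw [Finset.sum_congr rfl fun L _ => h2 L, ← Finset.mul_sum, hB I, Matrix.det_mul, mul_pow,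
      mul_assoc]

end

end Pool.Agent.Helper91.HM
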