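import Mathlib

/-!
Two split norms have a common splitting basis.
-/

set_option autoImplicit false

namespace Pool.Agent.Helper91.HM

section

variable {L Γ V : Type*} [Field L] [LinearOrderedCommGroupWithZero Γ] {v : Valuation L Γ}
  [AddCommGroup V] [Module L V]

/-- the family `b` splits the norm `ν` on its span, with the weights `w` -/
def Split (v : Valuation L Γ) (ν : V → Γ) {k : ℕ} (b : Fin k → V) (w : Fin k → Γ) : Prop :=
  (∀ i, w i ≠ 0) ∧
    ∀ (c : Fin k → L) (γ : Γ), ν (∑ i, c i • b i) ≤ γ ↔ ∀ i, v (c i) * w i ≤ γ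

variable {ν : V → Γ} {k : ℕ} {b : Fin k → V} {w : Fin k → Γ}

theorem mem_span_fam {x : V} : x ∈ Submodule.span L (Set.range b) ↔
    ∃ c : Fin k → L, ∑ i, c i • b i = x := by
  rw [Submodule.mem_span_range_iff_exists_fun]

theorem Split.coord_le (h : Split v ν b w) (c : Fin k → L) (i : Fin k) :
    v (c i) * w i ≤ ν (∑ i, c i • b i) := (h.2 c _).1 le_rfl i

theorem Split.zero (h : Split v ν b w) : ν 0 = 0 := by
  have h1 := (h.2 (fun _ => 0) 0).2 (fun i => by rw [map_zero, zero_mul])
  simp only [zero_smul, Finset.sum_const_zero] at h1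
  exact le_antisymm h1 zero_le

theorem Split.smul (h : Split v ν b w) {x : V} (hx : x ∈ Submodule.span L (Set.range b)) (a : L) :
    ν (a • x) = v a * ν x := by
  obtain ⟨c, rfl⟩ := mem_span_fam.1 hx
  by_cases ha : a = 0
  · rw [ha, zero_smul, map_zero, zero_mul, h.zero]
  have ha' : v a ≠ 0 := (Valuation.ne_zero_iff v).2 ha
  have h1 : a • ∑ i, c i • b i = ∑ i, (a * c i) • b i := by
    rw [Finset.smul_sum]
    exact Finset.sum_congr rfl fun i _ => by rw [smul_smul]
  rw [h1]
  apply le_antisymm
  · rw [h.2]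
    intro i
    rw [map_mul, mul_assoc]
    exact mul_le_mul_right (h.coord_le c i) _
  · have h2 : ν (∑ i, c i • b i) ≤ (v a)⁻¹ * ν (∑ i, (a * c i) • b i) := by
      rw [h.2]
      intro i
      have h3 := h.coord_le (fun i => a * c i) i
      beta_reduce at h3
      rw [map_mul, mul_assoc] at h3
      have h4 := mul_le_mul_right h3 (v a)⁻¹
      rwa [inv_mul_cancel_left₀ ha'] at h4
    have h5 := mul_le_mul_right h2 (v a)
    rwa [mul_inv_cancel_left₀ ha'] at h5

theorem Split.add_le (h : Split v ν b w) {x y : V} (hx : x ∈ Submodule.span L (Set.range b))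
    (hy : y ∈ Submodule.span L (Set.range b)) {γ : Γ} (h1 : ν x ≤ γ) (h2 : ν y ≤ γ) :
    ν (x + y) ≤ γ := by
  obtain ⟨c, rfl⟩ := mem_span_fam.1 hx
  obtain ⟨d, rfl⟩ := mem_span_fam.1 hy
  rw [← Finset.sum_add_distrib]
  simp only [← add_smul]
  rw [h.2] at h1 h2 ⊢
  intro i
  rcases le_total (v (c i)) (v (d i)) with h3 | h3
  · exact (mul_le_mul_left ((v.map_add _ _).trans (max_le h3 le_rfl)) _).trans (h2 i)
  · exact (mul_le_mul_left ((v.map_add _ _).trans (max_le le_rfl h3)) _).trans (h1 i)

theorem Split.sum_le (h : Split v ν b w) {ι : Type*} (s : Finset ι) (x : ι → V)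
    (hx : ∀ i ∈ s, x i ∈ Submodule.span L (Set.range b)) {γ : Γ} (h1 : ∀ i ∈ s, ν (x i) ≤ γ) :
    ν (∑ i ∈ s, x i) ≤ γ := by
  classical
  induction s using Finset.induction_on with
  | empty => rw [Finset.sum_empty, h.zero]; exact zero_le
  | insert a s ha ih =>
    rw [Finset.sum_insert ha]
    exact h.add_le (hx a (Finset.mem_insert_self _ _))
      (Submodule.sum_mem _ fun i hi => hx i (Finset.mem_insert_of_mem hi))
      (h1 a (Finset.mem_insert_self _ _))
      (ih (fun i hi => hx i (Finset.mem_insert_of_mem hi))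
        fun i hi => h1 i (Finset.mem_insert_of_mem hi))

theorem mem_fam (i : Fin k) : b i ∈ Submodule.span L (Set.range b) :=
  Submodule.subset_span ⟨i, rfl⟩

theorem Split.apply (h : Split v ν b w) (i : Fin k) : ν (b i) = w i := by
  classical
  have h0 : ∑ j, (if j = i then (1 : L) else 0) • b j = b i := by
    simp [ite_smul]
  apply le_antisymm
  · rw [← h0, h.2]
    intro j
    split_ifs with hj
    · rw [map_one, one_mul, hj]
    · rw [map_zero, zero_mul]
      exact zero_le
  · have h1 := h.coord_le (fun j => if j = i then (1 : L) else 0) i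
    rw [h0] at h1
    rwa [if_pos rfl, map_one, one_mul] at h1

theorem Split.indep (h : Split v ν b w) {c : Fin k → L} (hc : ∑ i, c i • b i = 0) (i : Fin k) :
    c i = 0 := by
  have h1 := h.coord_le c i
  rw [hc, h.zero] at h1
  have h2 : v (c i) * w i = 0 := le_antisymm h1 zero_le
  rcases mul_eq_zero.1 h2 with h3 | h3
  · exact (Valuation.zero_iff v).1 h3
  · exact absurd h3 (h.1 i)

theorem Split.indep' (h : Split v ν b w) {c d : Fin k → L}
    (hc : ∑ i, c i • b i = ∑ i, d i • b i) (i : Fin k) : c i = d i := by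
  have h1 : ∑ i, (c i - d i) • b i = 0 := by
    simp only [sub_smul, Finset.sum_sub_distrib, hc, sub_self]
  exact sub_eq_zero.1 (h.indep h1 i)

theorem split2 : ∀ (k : ℕ) (ν ν' : V → Γ) (b b' : Fin k → V) (w w' : Fin k → Γ),
    Split v ν b w → Split v ν' b' w' →
    Submodule.span L (Set.range b) = Submodule.span L (Set.range b') →
    ∃ (e : Fin k → V) (u u' : Fin k → Γ), Split v ν e u ∧ Split v ν' e u' ∧
      Submodule.span L (Set.range e) = Submodule.span L (Set.range b) := by
  classical
  intro k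
  induction k with
  | zero =>
    intro ν ν' b b' w w' h h' _
    have : b' = b := Subsingleton.elim _ _
    subst this
    exact ⟨b', w, w', h, h', rfl⟩
  | succ k ih =>
    intro ν ν' b b' w w' h h' hbb
    obtain ⟨i0, hi0⟩ := Finite.exists_max fun i => ν' (b i) * (w i)⁻¹
    obtain ⟨x, hx⟩ : ∃ x, x = b i0 := ⟨_, rfl⟩
    have hxb : x ∈ Submodule.span L (Set.range b) := by rw [hx]; exact mem_fam i0
    have hxb' : x ∈ Submodule.span L (Set.range b') := hbb ▸ hxb
    have hνx : ν x = w i0 := by rw [hx]; exact h.apply i0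
    obtain ⟨c, hc⟩ := mem_span_fam.1 hxb'
    obtain ⟨i1, hi1⟩ := Finite.exists_max fun i => v (c i) * w' i
    have hν'x : ν' x = v (c i1) * w' i1 := by
      rw [← hc]
      exact le_antisymm ((h'.2 c _).2 hi1) (h'.coord_le c i1)
    have hx0 : x ≠ 0 := by
      intro h0
      rw [h0, h.zero] at hνx
      exact h.1 i0 hνx.symm
    have hc1 : c i1 ≠ 0 := by
      intro h0
      rw [h0, map_zero, zero_mul] at hi1
      apply hx0
      rw [← hc]
      refine Finset.sum_eq_zero fun i _ => ?_
      have h2 : v (c i) * w' i = 0 := le_antisymm (hi1 i) zero_le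
      rcases mul_eq_zero.1 h2 with h3 | h3
      · rw [(Valuation.zero_iff v).1 h3, zero_smul]
      · exact absurd h3 (h'.1 i)
    have hν'x0 : ν' x ≠ 0 := by
      rw [hν'x]
      exact mul_ne_zero ((Valuation.ne_zero_iff v).2 hc1) (h'.1 i1)
    -- the complement
    obtain ⟨b'', hb''⟩ : ∃ b'' : Fin k → V, b'' = fun j => b' (i1.succAbove j) := ⟨_, rfl⟩
    obtain ⟨H, hH⟩ : ∃ H, H = Submodule.span L (Set.range b'') := ⟨_, rfl⟩
    have hHb' : ∀ y ∈ H, y ∈ Submodule.span L (Set.range b') := by
      intro y hy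
      rw [hH] at hy
      refine Submodule.span_mono ?_ hy
      rintro _ ⟨j, rfl⟩
      rw [hb'']
      exact ⟨_, rfl⟩
    have hHb : ∀ y ∈ H, y ∈ Submodule.span L (Set.range b) := fun y hy => hbb ▸ hHb' y hy
    have hHmem : ∀ d : Fin (k + 1) → L, d i1 = 0 → ∑ i, d i • b' i ∈ H := by
      intro d hd
      rw [Fin.sum_univ_succAbove _ i1, hd, zero_smul, zero_add, hH]
      refine Submodule.sum_mem _ fun j _ => Submodule.smul_mem _ _ ?_
      have := mem_fam (L := L) (b := b'') j
      rwa [hb''] at this ⊢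
    have hHcoord : ∀ y ∈ H, ∃ d : Fin (k + 1) → L, d i1 = 0 ∧ ∑ i, d i • b' i = y := by
      intro y hy
      rw [hH] at hy
      obtain ⟨f, hf⟩ := mem_span_fam.1 hy
      refine ⟨i1.insertNth 0 f, by simp, ?_⟩
      rw [Fin.sum_univ_succAbove _ i1, ← hf, hb'']
      simp
    -- orthogonality for `ν'`
    have horth' : ∀ (α : L), ∀ y ∈ H, ∀ γ, ν' (α • x + y) ≤ γ ↔ ν' (α • x) ≤ γ ∧ ν' y ≤ γ := by
      intro α y hy γ
      have hαx : α • x ∈ Submodule.span L (Set.range b') := Submodule.smul_mem _ _ hxb'
      refine ⟨fun h1 => ?_, fun h1 => h'.add_le hαx (hHb' y hy) h1.1 h1.2⟩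
      have h2 : ν' (α • x) ≤ γ := by
        refine le_trans ?_ h1
        obtain ⟨d, hd, rfl⟩ := hHcoord y hy
        rw [h'.smul hxb', hν'x]
        have h3 : α • x + ∑ i, d i • b' i = ∑ i, (α * c i + d i) • b' i := by
          rw [← hc, Finset.smul_sum, ← Finset.sum_add_distrib]
          refine Finset.sum_congr rfl fun i _ => ?_
          rw [add_smul, smul_smul]
        rw [h3]
        have h4 := h'.coord_le (fun i => α * c i + d i) i1
        beta_reduce at h4
        rwa [hd, add_zero, map_mul, mul_assoc] at h4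
      refine ⟨h2, ?_⟩
      have h3 : y = (α • x + y) + (-α) • x := by rw [neg_smul]; abel
      rw [h3]
      refine h'.add_le (Submodule.add_mem _ hαx (hHb' y hy)) (Submodule.smul_mem _ _ hxb') h1 ?_
      rwa [h'.smul hxb', Valuation.map_neg, ← h'.smul hxb']
    -- the maximality of `x`
    have hmax : ∀ z ∈ Submodule.span L (Set.range b), ν' z * w i0 ≤ ν' x * ν z := by
      intro z hz
      obtain ⟨d, rfl⟩ := mem_span_fam.1 hz
      have hw0 := h.1 i0
      have h1 : ν' (∑ i, d i • b i) ≤ ν' x * ν (∑ i, d i • b i) * (w i0)⁻¹ := by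
        refine h'.sum_le Finset.univ _ (fun i _ => ?_) fun i _ => ?_
        · exact Submodule.smul_mem _ _ (hbb ▸ mem_fam i)
        · rw [h'.smul (hbb ▸ mem_fam i)]
          have h2 := hi0 i
          beta_reduce at h2
          have h3 : ν' (b i) ≤ ν' x * (w i0)⁻¹ * w i := by
            rw [hx]
            have h4 := mul_le_mul_left h2 (w i)
            rwa [inv_mul_cancel_right₀ (h.1 i)] at h4
          calc v (d i) * ν' (b i) ≤ v (d i) * (ν' x * (w i0)⁻¹ * w i) :=
                mul_le_mul_right h3 _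
            _ = ν' x * (v (d i) * w i) * (w i0)⁻¹ := by
                rw [mul_left_comm, mul_assoc, mul_assoc, mul_assoc]
                congr 1
                rw [mul_comm (w i0)⁻¹, mul_assoc]
            _ ≤ ν' x * ν (∑ i, d i • b i) * (w i0)⁻¹ :=
                mul_le_mul_left (mul_le_mul_right (h.coord_le d i) _) _
      have h5 := mul_le_mul_left h1 (w i0)
      rwa [inv_mul_cancel_right₀ hw0] at h5
    -- orthogonality for `ν`
    have horth : ∀ (α : L), ∀ y ∈ H, ∀ γ, ν (α • x + y) ≤ γ ↔ ν (α • x) ≤ γ ∧ ν y ≤ γ := by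
      intro α y hy γ
      have hαx : α • x ∈ Submodule.span L (Set.range b) := Submodule.smul_mem _ _ hxb
      refine ⟨fun h1 => ?_, fun h1 => h.add_le hαx (hHb y hy) h1.1 h1.2⟩
      have h2 : ν (α • x) ≤ γ := by
        refine le_trans ?_ h1
        have h3 := hmax (α • x + y) (Submodule.add_mem _ hαx (hHb y hy))
        have h4 : ν' (α • x) ≤ ν' (α • x + y) := ((horth' α y hy _).1 le_rfl).1
        have h5 : ν' x * (v α * w i0) ≤ ν' x * ν (α • x + y) := by
          refine le_trans ?_ h3
          rw [h'.smul hxb'] at h4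
          calc ν' x * (v α * w i0) = v α * ν' x * w i0 := by
                rw [mul_left_comm, mul_assoc]
            _ ≤ ν' (α • x + y) * w i0 := mul_le_mul_left h4 _
        rw [h.smul hxb, hνx]
        have h6 := mul_le_mul_right h5 (ν' x)⁻¹
        rwa [inv_mul_cancel_left₀ hν'x0, inv_mul_cancel_left₀ hν'x0] at h6
      refine ⟨h2, ?_⟩
      have h3 : y = (α • x + y) + (-α) • x := by rw [neg_smul]; abel
      rw [h3]
      refine h.add_le (Submodule.add_mem _ hαx (hHb y hy)) (Submodule.smul_mem _ _ hxb) h1 ?_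
      rwa [h.smul hxb, Valuation.map_neg, ← h.smul hxb]
    -- the projections of the other members of `b`
    have hd : ∀ j : Fin k, ∃ d : Fin (k + 1) → L, ∑ i, d i • b' i = b (i0.succAbove j) :=
      fun j => mem_span_fam.1 (hbb ▸ mem_fam _)
    choose d hd using hd
    obtain ⟨lam, hlam⟩ : ∃ lam : Fin k → L, ∀ j, lam j = d j i1 / c i1 := ⟨_, fun _ => rfl⟩
    obtain ⟨h0, hh0⟩ : ∃ h0 : Fin k → V, ∀ j, h0 j = b (i0.succAbove j) - lam j • x :=
      ⟨_, fun _ => rfl⟩
    have hb0 : ∀ j, b (i0.succAbove j) = lam j • x + h0 j := fun j => by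
      rw [hh0]; abel
    have hh0H : ∀ j, h0 j ∈ H := by
      intro j
      have h1 : h0 j = ∑ i, (d j i - lam j * c i) • b' i := by
        rw [hh0, ← hd j, ← hc, Finset.smul_sum, ← Finset.sum_sub_distrib]
        refine Finset.sum_congr rfl fun i _ => ?_
        rw [sub_smul, smul_smul]
      rw [h1]
      refine hHmem _ ?_
      rw [hlam, div_mul_cancel₀ _ hc1, sub_self]
    have hxH : ∀ α : L, α • x ∈ H → α = 0 := by
      intro α hα
      obtain ⟨f, hf, hf'⟩ := hHcoord _ hα
      have h1 : ∑ i, f i • b' i = ∑ i, (α * c i) • b' i := by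
        rw [hf', ← hc, Finset.smul_sum]
        exact Finset.sum_congr rfl fun i _ => by rw [smul_smul]
      have h2 := h'.indep' h1 i1
      rw [hf] at h2
      rcases mul_eq_zero.1 h2.symm with h3 | h3
      · exact h3
      · exact absurd h3 hc1
    have hexp : ∀ e : Fin (k + 1) → L, ∑ i, e i • b i =
        (e i0 + ∑ j, e (i0.succAbove j) * lam j) • x + ∑ j, e (i0.succAbove j) • h0 j := by
      intro e
      rw [Fin.sum_univ_succAbove _ i0, ← hx, add_smul, add_assoc, Finset.sum_smul,
        ← Finset.sum_add_distrib]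
      congr 1
      refine Finset.sum_congr rfl fun j _ => ?_
      rw [hb0, smul_add, smul_smul]
    have hspan : Submodule.span L (Set.range h0) = H := by
      apply le_antisymm
      · rw [Submodule.span_le]
        rintro _ ⟨j, rfl⟩
        exact hh0H j
      · intro y hy
        obtain ⟨e, he⟩ := mem_span_fam.1 (hHb y hy)
        rw [hexp] at he
        have h1 : (e i0 + ∑ j, e (i0.succAbove j) * lam j) • x ∈ H := by
          have h2 : (e i0 + ∑ j, e (i0.succAbove j) * lam j) • x =
              y - ∑ j, e (i0.succAbove j) • h0 j := by rw [← he]; abel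
          rw [h2]
          exact H.sub_mem hy (Submodule.sum_mem _ fun j _ => H.smul_mem _ (hh0H j))
        rw [hxH _ h1, zero_smul, zero_add] at he
        rw [← he]
        exact Submodule.sum_mem _ fun j _ => Submodule.smul_mem _ _ (mem_fam j)
    have hS : Split v ν h0 (fun j => w (i0.succAbove j)) := by
      refine ⟨fun j => h.1 _, fun e γ => ⟨fun h1 j => ?_, fun h1 => ?_⟩⟩
      · refine le_trans ?_ h1
        have h2 := hexp (i0.insertNth (-∑ j, e j * lam j) e)
        simp only [Fin.insertNth_apply_same, Fin.insertNth_apply_succAbove, neg_add_cancel,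
          zero_smul, zero_add] at h2
        rw [← h2]
        have h3 := h.coord_le (i0.insertNth (-∑ j, e j * lam j) e) (i0.succAbove j)
        rwa [Fin.insertNth_apply_succAbove] at h3
      · refine h.sum_le Finset.univ _ (fun j _ => Submodule.smul_mem _ _ (hHb _ (hh0H j)))
          fun j _ => ?_
        rw [h.smul (hHb _ (hh0H j))]
        refine le_trans (mul_le_mul_right ?_ _) (h1 j)
        have h2 := (horth (lam j) (h0 j) (hh0H j) (ν (b (i0.succAbove j)))).1 (by rw [← hb0])
        have h3 := h2.2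
        rw [h.apply] at h3
        exact h3
    have hS' : Split v ν' b'' (fun j => w' (i1.succAbove j)) := by
      refine ⟨fun j => h'.1 _, fun f γ => ?_⟩
      have h2 : ∑ j, f j • b'' j = ∑ i, (i1.insertNth (0 : L) f : Fin (k + 1) → L) i • b' i := by
        rw [Fin.sum_univ_succAbove _ i1, hb'']
        simp
      rw [h2, h'.2]
      constructor
      · intro h3 j
        have := h3 (i1.succAbove j)
        rwa [Fin.insertNth_apply_succAbove] at this
      · intro h3 i
        rcases Fin.eq_self_or_eq_succAbove i1 i with hi | ⟨j, hi⟩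
        · rw [hi, Fin.insertNth_apply_same, map_zero, zero_mul]
          exact zero_le
        · rw [hi, Fin.insertNth_apply_succAbove]
          exact h3 j
    obtain ⟨e, u, u', he, he', hespan⟩ := ih ν ν' h0 b'' _ _ hS hS' (hspan.trans hH)
    rw [hspan] at hespan
    have heH : ∀ j, e j ∈ H := fun j => hespan ▸ mem_fam j
    have hcons : ∀ f : Fin (k + 1) → L, ∑ i, f i • (Fin.cons x e : Fin (k + 1) → V) i =
        f 0 • x + ∑ j : Fin k, f j.succ • e j := by
      intro f
      rw [Fin.sum_univ_succ]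
      simp
    have hfH : ∀ f : Fin (k + 1) → L, ∑ j : Fin k, f j.succ • e j ∈ H := fun f =>
      Submodule.sum_mem _ fun j _ => H.smul_mem _ (heH j)
    refine ⟨Fin.cons x e, Fin.cons (w i0) u, Fin.cons (ν' x) u', ⟨fun i => ?_, fun f γ => ?_⟩,
      ⟨fun i => ?_, fun f γ => ?_⟩, ?_⟩
    · refine Fin.cases ?_ (fun j => ?_) i
      · exact h.1 i0
      · exact he.1 j
    · rw [hcons, horth _ _ (hfH f), h.smul hxb, hνx, he.2 (fun j => f j.succ), Fin.forall_fin_succ]
      simp
    · refine Fin.cases ?_ (fun j => ?_) i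
      · exact hν'x0
      · exact he'.1 j
    · rw [hcons, horth' _ _ (hfH f), h'.smul hxb', he'.2 (fun j => f j.succ), Fin.forall_fin_succ]
      simp
    · apply le_antisymm
      · rw [Submodule.span_le]
        rintro _ ⟨i, rfl⟩
        refine Fin.cases ?_ (fun j => ?_) i
        · exact hxb
        · exact hHb _ (heH j)
      · rw [Submodule.span_le]
        rintro _ ⟨i, rfl⟩
        have hxe : x ∈ Submodule.span L (Set.range (Fin.cons x e : Fin (k + 1) → V)) :=
          Submodule.subset_span ⟨0, rfl⟩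
        have hHe : H ≤ Submodule.span L (Set.range (Fin.cons x e : Fin (k + 1) → V)) := by
          rw [← hespan, Submodule.span_le]
          rintro _ ⟨j, rfl⟩
          exact Submodule.subset_span ⟨j.succ, rfl⟩
        rcases Fin.eq_self_or_eq_succAbove i0 i with hi | ⟨j, hi⟩
        · rw [hi, ← hx]
          exact hxe
        · rw [hi, hb0]
          exact Submodule.add_mem _ (Submodule.smul_mem _ _ hxe) (hHe (hh0H j))

end

end Pool.Agent.Helper91.HM
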