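import Mathlib

/-!
Reynolds elements for groups of real matrices closed under transposition, and tensor powers of
matrices.
-/

set_option autoImplicit false

namespace Pool.Agent.Helper91.HM

open Matrix

set_option linter.unusedSectionVars false

section rep

variable {R : Type*} [CommRing R] {n : ℕ}

/-- the tensor power of a matrix, with the set `P` of factors -/
def rho (P : Type) [Fintype P] (g : Matrix (Fin n) (Fin n) R) :
    Matrix (P → Fin n) (P → Fin n) R :=
  fun J I => ∏ k, g (J k) (I k)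

variable {P : Type} [Fintype P] [DecidableEq P]

theorem rho_mul (g h : Matrix (Fin n) (Fin n) R) : rho P (g * h) = rho P g * rho P h := by
  ext J I
  simp only [rho, Matrix.mul_apply]
  rw [Finset.prod_univ_sum]
  simp only [Fintype.piFinset_univ, Finset.prod_mul_distrib]

theorem rho_one : rho P (1 : Matrix (Fin n) (Fin n) R) = 1 := by
  ext J I
  simp only [rho, Matrix.one_apply]
  by_cases h : J = I
  · subst h
    simp
  · rw [if_neg h]
    obtain ⟨k, hk⟩ := Function.ne_iff.1 h
    exact Finset.prod_eq_zero (Finset.mem_univ k) (if_neg hk)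

theorem rho_transpose (g : Matrix (Fin n) (Fin n) R) : rho P gᵀ = (rho P g)ᵀ := by
  ext J I
  simp [rho, Matrix.transpose_apply]

end rep

section rey

variable {ι : Type} [Fintype ι] [DecidableEq ι]

theorem rey (S : Set (Matrix ι ι ℝ)) (h1 : 1 ∈ S) (hm : ∀ a ∈ S, ∀ b ∈ S, a * b ∈ S)
    (ht : ∀ a ∈ S, aᵀ ∈ S) (o : ι) (ho : ∀ a ∈ S, ∀ j, a o j = if j = o then 1 else 0) :
    ∃ P ∈ Submodule.span ℝ S, P o o = 1 ∧ ∀ a ∈ S, P * a = P := by
  classical
  set A : Submodule ℝ (Matrix ι ι ℝ) := Submodule.span ℝ S with hA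
  have Amul : ∀ a ∈ A, ∀ b ∈ A, a * b ∈ A := by
    intro a ha b hb
    induction ha using Submodule.span_induction with
    | mem a ha =>
      induction hb using Submodule.span_induction with
      | mem b hb => exact Submodule.subset_span (hm a ha b hb)
      | zero => rw [mul_zero]; exact A.zero_mem
      | add x y _ _ hx hy => rw [mul_add]; exact A.add_mem hx hy
      | smul c x _ hx => rw [mul_smul_comm]; exact A.smul_mem c hx
    | zero => rw [zero_mul]; exact A.zero_mem
    | add x y _ _ hx hy => rw [add_mul]; exact A.add_mem hx hy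
    | smul c x _ hx => rw [smul_mul_assoc]; exact A.smul_mem c hx
  have At : ∀ a ∈ A, aᵀ ∈ A := by
    intro a ha
    induction ha using Submodule.span_induction with
    | mem a ha => exact Submodule.subset_span (ht a ha)
    | zero => rw [Matrix.transpose_zero]; exact A.zero_mem
    | add x y _ _ hx hy => rw [Matrix.transpose_add]; exact A.add_mem hx hy
    | smul c x _ hx => rw [Matrix.transpose_smul]; exact A.smul_mem c hx
  have A1 : (1 : Matrix ι ι ℝ) ∈ A := Submodule.subset_span h1
  have Ao : ∀ a ∈ A, ∀ j, j ≠ o → a o j = 0 := by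
    intro a ha j hj
    induction ha using Submodule.span_induction with
    | mem a ha => rw [ho a ha, if_neg hj]
    | zero => rfl
    | add x y _ _ hx hy => rw [Matrix.add_apply, hx, hy, add_zero]
    | smul c x _ hx => rw [Matrix.smul_apply, hx, smul_zero]
  have Aoo : ∀ a ∈ A, ∀ b : Matrix ι ι ℝ, (a * b) o o = a o o * b o o := by
    intro a ha b
    rw [Matrix.mul_apply, Finset.sum_eq_single o]
    · intro j _ hj
      rw [Ao a ha j hj, zero_mul]
    · simp
  -- the inner product
  let φ : Matrix ι ι ℝ ≃ₗ[ℝ] EuclideanSpace ℝ (ι × ι) :=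
    (LinearEquiv.curry ℝ ℝ ι ι).symm.trans (WithLp.linearEquiv 2 ℝ (ι × ι → ℝ)).symm
  have hφ : ∀ a b : Matrix ι ι ℝ, inner ℝ (φ a) (φ b) = (b * aᵀ).trace := by
    intro a b
    rw [PiLp.inner_apply, Fintype.sum_prod_type, Matrix.trace]
    refine Finset.sum_congr rfl fun i _ => ?_
    rw [Matrix.diag_apply, Matrix.mul_apply]
    refine Finset.sum_congr rfl fun j _ => ?_
    rw [Matrix.transpose_apply]
    rfl
  let I : Submodule ℝ (Matrix ι ι ℝ) :=
    { carrier := {a | a ∈ A ∧ a o o = 0}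
      zero_mem' := ⟨A.zero_mem, rfl⟩
      add_mem' := fun {a b} ha hb => ⟨A.add_mem ha.1 hb.1, by
        rw [Matrix.add_apply, ha.2, hb.2, add_zero]⟩
      smul_mem' := fun c a ha => ⟨A.smul_mem c ha.1, by
        rw [Matrix.smul_apply, ha.2, smul_zero]⟩ }
  have hI : ∀ a, a ∈ I ↔ a ∈ A ∧ a o o = 0 := fun a => Iff.rfl
  obtain ⟨y, hy, z, hz, hyz⟩ := (I.map (φ : Matrix ι ι ℝ →ₗ[ℝ] EuclideanSpace ℝ (ι × ι))
    ).exists_add_mem_mem_orthogonal (φ 1)
  obtain ⟨p, hp, rfl⟩ := hy
  obtain ⟨e, rfl⟩ : ∃ e, z = φ e := ⟨φ.symm z, by simp⟩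
  have he1 : (1 : Matrix ι ι ℝ) = p + e := φ.injective (by
    rw [hyz, map_add]
    rfl)
  have heA : e ∈ A := by
    have : e = 1 - p := by rw [he1, add_sub_cancel_left]
    rw [this]
    exact A.sub_mem A1 hp.1
  have heo : e o o = 1 := by
    have h2 := congrFun (congrFun he1 o) o
    rw [Matrix.one_apply_eq, Matrix.add_apply, hp.2, zero_add] at h2
    exact h2.symm
  have horth : ∀ u ∈ I, (u * eᵀ).trace = 0 := by
    intro u hu
    rw [← hφ, real_inner_comm]
    exact (Submodule.mem_orthogonal _ _).1 hz (φ u) ⟨u, hu, rfl⟩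
  refine ⟨e, heA, heo, fun a ha => ?_⟩
  -- `e * u = 0` for `u = a - 1`
  have hu : a - 1 ∈ I := ⟨A.sub_mem (Submodule.subset_span ha) A1, by
    rw [Matrix.sub_apply, ho a ha, if_pos rfl, Matrix.one_apply_eq, sub_self]⟩
  obtain ⟨u, hud⟩ : ∃ u, u = a - 1 := ⟨_, rfl⟩
  rw [← hud] at hu
  have heu : e * u ∈ A := Amul e heA u hu.1
  have h3 : (e * u) * uᵀ ∈ I := by
    refine ⟨Amul _ heu _ (At u hu.1), ?_⟩
    rw [Aoo _ heu, Matrix.transpose_apply, hu.2, mul_zero]
  have h4 := horth _ h3
  have h5 : ((e * u) * (e * u)ᵀ).trace = 0 := by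
    rw [Matrix.transpose_mul, ← Matrix.mul_assoc]
    exact h4
  have h6 : φ (e * u) = 0 := by
    rw [← inner_self_eq_zero (𝕜 := ℝ), hφ, h5]
  have h7 : e * u = 0 := by
    have := congrArg φ.symm h6
    simpa using this
  have h8 : a = u + 1 := by rw [hud, sub_add_cancel]
  rw [h8, mul_add, h7, mul_one, zero_add]

end rey

end Pool.Agent.Helper91.HM
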