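import Pool.Agent.Helper12.BL.Loc

/-!
Pairs, sections of multiples of the log canonical divisor, and orbifold tensor differentials with
values in multiples of the log canonical divisor.
-/

set_option autoImplicit false

namespace Pool.Agent.Helper91.HM.Tw

open Module FF Pool.Agent.W602.GT

variable {K : Type} [Field K] [Algebra ℂ K]

/-- `ω` is a section of `m (K_X + Δ)`, where `n` is the dimension of `X`, `X` is the set of places
of the function field `K` which belong to `X`, and `Δ` has the coefficient `δ P` at the prime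
divisor `P`: an `m`-canonical form whose pole at each prime divisor `P` in `X` has order at most
`m δ P`. -/
def IsSection (n : ℕ) (X : Set (Place ℂ K)) (δ : Place ℂ K → ℝ) (m : ℕ)
    (ω : (Fin n → Derivation ℂ K K) → K) : Prop :=
  IsPluri m ω ∧ ∀ P ∈ X, Divisorial n P → ∀ D : Fin n → Derivation ℂ K K,
    (∀ i, DerReg P (D i)) → ω D = 0 ∨ -(m * δ P) ≤ (P.ord (ω D) : ℝ)

/-- The Kodaira dimension of `(X, Δ)` is at least `κ`: for some `m > 0` there are sections of
`m (K_X + Δ)` whose quotients contain `κ` algebraically independent functions. -/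
def KodairaGe (n : ℕ) (X : Set (Place ℂ K)) (δ : Place ℂ K → ℝ) (κ : ℕ) : Prop :=
  ∃ m : ℕ, 0 < m ∧ ∃ ω : Fin (κ + 1) → (Fin n → Derivation ℂ K K) → K,
    (∀ j, IsSection n X δ m (ω j)) ∧
    ∃ D, ω 0 D ≠ 0 ∧ AlgebraicIndependent ℂ (fun i : Fin κ => ω i.succ D / ω 0 D)

/-- The vector fields `B i` are a basis, over the valuation ring of `P`, of the vector fields which
are regular at `P`. -/
def IsFrame {n : ℕ} (P : Place ℂ K) (B : Fin n → Derivation ℂ K K) : Prop :=
  (∀ i, DerReg P (B i)) ∧ ∀ D, DerReg P D →
    ∃ c : Fin n → K, (∀ i, P.Reg (c i)) ∧ D = ∑ i, c i • B i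

/-- `s` is an orbifold tensor differential of degree `N` on the pair `(X, Δ)` with values in
`a (K_X + Δ)`, where `a` is an integer: for each basis `B` of the rational vector fields (which is
used to trivialize the canonical bundle) a `K`-multilinear function `s B` of `N` rational vector
fields, no symmetry being required, which is multiplied by `det A ^ a` if `B` is replaced by its
linear transform under the matrix `A`, such that, for each prime divisor `P` of `X` and each basis
`B` of the vector fields which are regular at `P`, the value of `s B` on vector fields which are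
regular at `P` and of which `q` are not logarithmic at `P` has a pole of order at most
`(q + a) δ P`.  For `Δ = 0` this is a section of `(Ω¹) ^ ⊗ N ⊗ O (a K_X)`. -/
def IsTensor (n : ℕ) (X : Set (Place ℂ K)) (δ : Place ℂ K → ℝ) {N : ℕ} (a : ℤ)
    (s : (Fin n → Derivation ℂ K K) →
      MultilinearMap K (fun _ : Fin N => Derivation ℂ K K) K) : Prop :=
  (∀ (A : Matrix (Fin n) (Fin n) K) (B : Fin n → Derivation ℂ K K), LinearIndependent K B →
    A.det ≠ 0 → s (fun i => ∑ j, A i j • B j) = A.det ^ a • s B) ∧
  ∀ P ∈ X, Divisorial n P → ∀ B : Fin n → Derivation ℂ K K, IsFrame P B →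
    ∀ D : Fin N → Derivation ℂ K K, (∀ j, DerReg P (D j)) →
      s B D = 0 ∨
        -(((Nat.card {j : Fin N // ¬ DerLog P (D j)} : ℝ) + a) * δ P) ≤ (P.ord (s B D) : ℝ)

/-- The Iitaka dimension of the tensor `s` on the pair `(X, Δ)` is at least `κ`: there are
algebraically independent functions `f 1, ..., f κ` such that `s, f 1 s, ..., f κ s` are orbifold
tensor differentials on `(X, Δ)` with values in `a (K_X + Δ)`. -/
def IsMovable (n : ℕ) (X : Set (Place ℂ K)) (δ : Place ℂ K → ℝ) (κ : ℕ) {N : ℕ} (a : ℤ)
    (s : (Fin n → Derivation ℂ K K) →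
      MultilinearMap K (fun _ : Fin N => Derivation ℂ K K) K) : Prop :=
  IsTensor n X δ a s ∧ ∃ f : Fin κ → K, AlgebraicIndependent ℂ f ∧
    ∀ j, IsTensor n X δ a (fun B => f j • s B)

/-- The automorphism `φ` of the field `K`, which may act on the constants by an automorphism of the
field of complex numbers, preserves the pair `(X, Δ)`: it maps the places which belong to `X` to
such places with the same coefficients. -/
def Preserves (X : Set (Place ℂ K)) (δ : Place ℂ K → ℝ) (φ : K ≃+* K) : Prop :=
  (∃ τ : ℂ ≃+* ℂ, ∀ c, φ (algebraMap ℂ K c) = algebraMap ℂ K (τ c)) ∧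
    ∀ P ∈ X, ∀ P' : Place ℂ K, (∀ f, P'.ord (φ f) = P.ord f) → P' ∈ X ∧ δ P' = δ P

end Pool.Agent.Helper91.HM.Tw
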