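import Pool.Agent.Helper91.HM.TwDef
import Pool.Agent.Helper91.HM.Conj

/-!
Sections from twisted tensors and invariants.
-/

set_option autoImplicit false
set_option linter.unusedSectionVars false

namespace Pool.Agent.Helper91.HM.Tw

open Module FF Pool.Agent.W602.GT Pool.Agent.W603.LV Pool.Agent.TH143.GT Pool.Agent.Y220.OG
  Pool.Agent.Helper12.BL Pool.Agent.Helper91.HM

section lin

variable {K V : Type} [Field K] [AddCommGroup V] [Module K V] {n : ℕ}

/-- the linear transform of a family of vectors -/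
def lt (A : Matrix (Fin n) (Fin n) K) (B : Fin n → V) : Fin n → V := fun i => ∑ j, A i j • B j

theorem lt_lt (A C : Matrix (Fin n) (Fin n) K) (B : Fin n → V) :
    lt A (lt C B) = lt (A * C) B := by
  funext i
  simp only [lt, Finset.smul_sum, smul_smul]
  rw [Finset.sum_comm]
  refine Finset.sum_congr rfl fun l _ => ?_
  rw [← Finset.sum_smul, Matrix.mul_apply]

theorem lt_one (B : Fin n → V) : lt (1 : Matrix (Fin n) (Fin n) K) B = B := by
  funext i
  rw [lt, Finset.sum_eq_single i]
  · rw [Matrix.one_apply_eq, one_smul]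
  · intro j _ hj
    rw [Matrix.one_apply_ne hj.symm, zero_smul]
  · simp

theorem lt_li {A : Matrix (Fin n) (Fin n) K} {B : Fin n → V} :
    LinearIndependent K (lt A B) ↔ LinearIndependent K B ∧ A.det ≠ 0 := by
  constructor
  · intro h
    have h1 : A.det ≠ 0 := by
      intro h0
      obtain ⟨v, hv, hv0⟩ := Matrix.exists_vecMul_eq_zero_iff.2 h0
      apply hv
      funext i
      refine Fintype.linearIndependent_iff.1 h v ?_ i
      simp only [lt, Finset.smul_sum, smul_smul]
      rw [Finset.sum_comm]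
      refine Finset.sum_eq_zero fun l _ => ?_
      rw [← Finset.sum_smul]
      have h2 := congrFun hv0 l
      rw [Matrix.vecMul, dotProduct] at h2
      rw [h2]
      exact zero_smul _ _
    refine ⟨?_, h1⟩
    have h2 : finrank K (Submodule.span K (Set.range (lt A B))) = n := by
      rw [finrank_span_eq_card h, Fintype.card_fin]
    have h3 : Submodule.span K (Set.range (lt A B)) ≤ Submodule.span K (Set.range B) := by
      rw [Submodule.span_le]
      rintro _ ⟨i, rfl⟩
      exact Submodule.sum_mem _ fun j _ => Submodule.smul_mem _ _ (Submodule.subset_span ⟨j, rfl⟩)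
    have h4 : FiniteDimensional K (Submodule.span K (Set.range B)) :=
      FiniteDimensional.span_of_finite K (Set.finite_range B)
    have h5 := Submodule.finrank_mono h3
    rw [h2] at h5
    rw [linearIndependent_iff_card_le_finrank_span, Fintype.card_fin]
    exact h5
  · rintro ⟨h, h1⟩
    rw [Fintype.linearIndependent_iff]
    intro c hc
    have h2 : ∑ l, (Matrix.vecMul c A) l • B l = 0 := by
      rw [← hc]
      simp only [lt, Finset.smul_sum, smul_smul]
      rw [Finset.sum_comm]
      refine Finset.sum_congr rfl fun l _ => ?_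
      rw [← Finset.sum_smul]
      rfl
    have h3 := Fintype.linearIndependent_iff.1 h _ h2
    have h4 : Matrix.vecMul c A = 0 := funext h3
    have h5 := Matrix.eq_zero_of_vecMul_eq_zero h1 h4
    exact fun i => congrFun h5 i

theorem exists_lt {B D : Fin n → V} (h : Submodule.span K (Set.range B) = ⊤) :
    ∃ A : Matrix (Fin n) (Fin n) K, D = lt A B := by
  have h1 : ∀ i, ∃ c : Fin n → K, ∑ j, c j • B j = D i := fun i =>
    mem_span_fam.1 (h ▸ Submodule.mem_top : D i ∈ Submodule.span K (Set.range B))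
  choose c hc using h1
  exact ⟨Matrix.of c, funext fun i => (hc i).symm⟩

end lin

variable {K : Type} [Field K] [Algebra ℂ K] {n : ℕ}

theorem li_span (hn : Algebra.trdeg ℂ K = n) {B : Fin n → Derivation ℂ K K}
    (hB : LinearIndependent K B) : Submodule.span K (Set.range B) = ⊤ := by
  classical
  obtain ⟨e, he, hes⟩ := exists_basis (K := K) hn
  have hfin : Module.Finite K (Derivation ℂ K K) := ⟨⟨Finset.univ.image e, by
    rw [Finset.coe_image, Finset.coe_univ, Set.image_univ]
    exact hes⟩⟩
  apply Submodule.eq_top_of_finrank_eq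
  rw [finrank_span_eq_card hB, Fintype.card_fin,
    finrank_eq_card_basis (Basis.mk he hes.ge), Fintype.card_fin]

theorem exists_frame [Algebra.EssFiniteType ℂ K] (hn : Algebra.trdeg ℂ K = n) {P : Place ℂ K}
    (hP : Divisorial n P) : ∃ E : Fin n → Derivation ℂ K K, LinearIndependent K E ∧ IsFrame P E := by
  obtain ⟨y, E, i0, hb, hE, hi0, hyr, hpres⟩ := Pool.Agent.W240.PG.Frame.main
    Pool.Agent.W762.PG.main ℂ K n hn (fun y hy => fin_adjoin y hy) P hP
  have hDual : Dual y E := ⟨hb, hE⟩
  refine ⟨E, ?_, hpres, fun D hD => ⟨fun i => D (y i), fun i => hD _ (hyr i), hDual.expand D⟩⟩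
  rw [Fintype.linearIndependent_iff]
  intro c hc j
  have h1 : (∑ i, c i • E i) (y j) = (0 : Derivation ℂ K K) (y j) := by rw [hc]
  rw [Derivation.zero_apply, der_sum, Finset.sum_eq_single j] at h1
  · rw [hE, if_pos rfl, smul_eq_mul, mul_one] at h1
    exact h1
  · intro i _ hi
    rw [hE, if_neg hi, smul_zero]
  · simp

variable [Algebra ℝ K] [IsScalarTower ℝ ℂ K] {Q : Type} [Fintype Q] [DecidableEq Q] {M : Q → ℕ}

open Classical in
/-- the form which is given by an invariant of twisted tensors -/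
noncomputable def form (s : ∀ q, (Fin n → Derivation ℂ K K) →
      MultilinearMap K (fun _ : Fin (M q) => Derivation ℂ K K) K)
    (p : ((Σ q, Fin (M q)) → Fin n) → ℝ) (D : Fin n → Derivation ℂ K K) : K :=
  if LinearIndependent K D then
    invForm (ι := Q) (N := M) (fun q => s q D) id p D
  else 0

theorem prod_zpow' {d : K} (hd : d ≠ 0) {I : Type} (t : Finset I) (a : I → ℤ) :
    ∏ q ∈ t, d ^ a q = d ^ ∑ q ∈ t, a q := by
  classical
  induction t using Finset.induction_on with
  | empty => simp
  | insert q t hq ih => rw [Finset.prod_insert hq, Finset.sum_insert hq, ih, zpow_add₀ hd]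

theorem form_lt {X : Set (Place ℂ K)} {δ : Place ℂ K → ℝ} {s : ∀ q, (Fin n → Derivation ℂ K K) →
      MultilinearMap K (fun _ : Fin (M q) => Derivation ℂ K K) K} {a : Q → ℤ}
    (hs : ∀ q, IsTensor n X δ (a q) (s q))
    {p : ((Σ q, Fin (M q)) → Fin n) → ℝ} (hp : SLInv p) {m : ℕ} (hm : ∀ I', p I' ≠ 0 → ∀ i,
      (Finset.univ.filter fun k => I' k = i).card = m) {W : ℕ} (hW : 0 < W)
    (hWm : (W : ℤ) = m + ∑ q, a q) : IsPluri W (form s p) := by
  classical
  intro A D
  change form s p (lt A D) = _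
  by_cases h : LinearIndependent K (lt A D)
  · obtain ⟨h1, h2⟩ := lt_li.1 h
    rw [form, if_pos h, form, if_pos h1]
    have h3 : ∀ q, s q (lt A D) = A.det ^ a q • s q D := fun q => (hs q).1 A D h1 h2
    have h4 : (fun q => s q (lt A D)) = fun q => A.det ^ a q • s q D := funext h3
    rw [h4]
    refine (invForm_smul (fun q => s q D) id (fun q => A.det ^ a q) p (lt A D)).trans ?_
    have h5 := invForm_pluri (ι := Q) (N := M) (fun q => s q D) id hp hm A D
    change invForm (fun q => s q D) id p (lt A D) = _ at h5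
    rw [h5, ← mul_assoc]
    congr 1
    rw [prod_zpow' h2, ← zpow_natCast, ← zpow_add₀ h2, ← zpow_natCast, hWm]
    congr 1
    ring
  · rw [form, if_neg h]
    by_cases h1 : A.det = 0
    · rw [h1, zero_pow hW.ne', zero_mul]
    · rw [form, if_neg fun h2 => h (lt_li.2 ⟨h2, h1⟩), mul_zero]

theorem det_reg {P : Place ℂ K} {A : Matrix (Fin n) (Fin n) K} (h : ∀ i j, P.Reg (A i j)) :
    Gr P 0 A.det := by
  classical
  rw [Matrix.det_apply']
  refine Gr.sum _ _ fun σ _ => ?_
  have h4 : Gr P 0 (((Equiv.Perm.sign σ : ℤˣ) : ℤ) : K) := by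
    have := Gr.const (P := P) ((((Equiv.Perm.sign σ : ℤˣ) : ℤ) : ℂ))
    rwa [map_intCast] at this
  have h5 : ∀ i l, Gr P 0 (A i l) := by
    intro i l
    rcases h i l with h6 | h6
    · exact Or.inl h6
    · exact Or.inr (by exact_mod_cast h6)
  have h6 := h4.mul (Gr.prod Finset.univ (fun i => A (σ i) i) (fun _ => (0 : ℝ))
    fun i _ => h5 _ _)
  simpa using h6

theorem form_section [Algebra.EssFiniteType ℂ K] (hn : Algebra.trdeg ℂ K = n) (hn0 : 0 < n)
    {X : Set (Place ℂ K)} {δ : Place ℂ K → ℝ} (hδ : ∀ P ∈ X, 0 ≤ δ P)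
    {s : ∀ q, (Fin n → Derivation ℂ K K) →
      MultilinearMap K (fun _ : Fin (M q) => Derivation ℂ K K) K} {a : Q → ℤ}
    (hs : ∀ q, IsTensor n X δ (a q) (s q))
    {p : ((Σ q, Fin (M q)) → Fin n) → ℝ} (hp : SLInv p) {m : ℕ} (hm : ∀ I', p I' ≠ 0 → ∀ i,
      (Finset.univ.filter fun k => I' k = i).card = m) {W : ℕ} (hW : 0 < W)
    (hWm : (W : ℤ) = m + ∑ q, a q) : IsSection n X δ W (form s p) := by
  classical
  refine ⟨form_lt hs hp hm hW hWm, fun P hP hdiv D hD => ?_⟩
  change Gr P _ _
  by_cases hli : LinearIndependent K D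
  swap
  · rw [form, if_neg hli]
    exact Gr.zero
  obtain ⟨E, hE, hframe⟩ := exists_frame hn hdiv
  choose c hc hcD using fun i => hframe.2 (D i) (hD i)
  obtain ⟨A, hA⟩ : ∃ A : Matrix (Fin n) (Fin n) K, A = Matrix.of c := ⟨_, rfl⟩
  have hDA : D = fun i => ∑ j, A i j • E j := by
    funext i
    rw [hcD i, hA]
    rfl
  have hdet : Gr P 0 A.det := det_reg fun i j => by
    rw [hA]
    exact hc i j
  have hEest : Gr P (-(W * δ P)) (form s p E) := by
    obtain ⟨A', i0, hA', hreg, hlog⟩ := reg_change hn0 hframe.1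
    have h1 := form_lt hs hp hm hW hWm A' E
    rw [hA', one_pow, one_mul] at h1
    have hli' : LinearIndependent K (fun i => ∑ j, A' i j • E j) :=
      lt_li.2 ⟨hE, by rw [hA']; exact one_ne_zero⟩
    rw [← h1, form, if_pos hli']
    have h2 : ∀ q, s q (fun i => ∑ j, A' i j • E j) = s q E := fun q => by
      rw [(hs q).1 A' E hE (by rw [hA']; exact one_ne_zero), hA', one_zpow, one_smul]
    simp only [h2]
    refine Gr.sum _ _ fun I _ => ?_
    by_cases hI : p I = 0
    · rw [hI, map_zero, zero_mul]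
      exact Gr.zero
    have h3 : Gr P 0 (algebraMap ℝ K (p I)) := by
      rw [IsScalarTower.algebraMap_apply ℝ ℂ K]
      exact Gr.const _
    have h4 : ∀ q : Q, Gr P (-((((Finset.univ.filter fun l : Fin (M q) =>
        I ⟨q, l⟩ = i0).card : ℝ) + a q) * δ P))
        (s q E (fun l => ∑ j, A' (I ⟨q, l⟩) j • E j)) := by
      intro q
      have h4 := (hs q).2 P hP hdiv E hframe (fun l => ∑ j, A' (I ⟨q, l⟩) j • E j)
        (fun l => hreg _)
      refine Gr.mono ?_ h4
      rw [neg_le_neg_iff]
      refine mul_le_mul_of_nonneg_right ?_ (hδ P hP)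
      rw [Nat.card_eq_fintype_card, Fintype.card_subtype]
      have h5 : (Finset.univ.filter fun l : Fin (M q) =>
          ¬ DerLog P (∑ j, A' (I ⟨q, l⟩) j • E j)) ⊆
          Finset.univ.filter fun l : Fin (M q) => I ⟨q, l⟩ = i0 := by
        intro l hl
        rw [Finset.mem_filter] at hl ⊢
        refine ⟨hl.1, ?_⟩
        by_contra hne
        exact hl.2 (hlog _ hne)
      have h6 := Finset.card_le_card h5
      have h7 : ((Finset.univ.filter fun l : Fin (M q) =>
          ¬ DerLog P (∑ j, A' (I ⟨q, l⟩) j • E j)).card : ℝ) ≤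
          ((Finset.univ.filter fun l : Fin (M q) => I ⟨q, l⟩ = i0).card : ℝ) := by
        exact_mod_cast h6
      linarith
    have h5 := h3.mul (Gr.prod Finset.univ _ _ fun q _ => h4 q)
    have h6 : (0 : ℝ) + ∑ q, -((((Finset.univ.filter fun l : Fin (M q) =>
        I ⟨q, l⟩ = i0).card : ℝ) + a q) * δ P) = -(W * δ P) := by
      rw [zero_add, Finset.sum_neg_distrib, ← Finset.sum_mul, Finset.sum_add_distrib]
      congr 2
      have h7 := hm I hI i0
      have h8 : ∑ q, ((Finset.univ.filter fun l : Fin (M q) => I ⟨q, l⟩ = i0).card : ℝ) = m := by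
        rw [← h7, ← Nat.cast_sum]
        congr 1
        rw [Finset.card_filter, Fintype.sum_sigma]
        exact Finset.sum_congr rfl fun q _ => by rw [Finset.card_filter]
      rw [h8]
      exact_mod_cast hWm.symm
    rw [h6] at h5
    exact h5
  have h1 := form_lt hs hp hm hW hWm A E
  rw [← hDA] at h1
  rw [h1]
  have hpow : ∀ {c : ℝ} {f : K}, Gr P c f → Gr P (W * c) (f ^ W) := by
    intro c f hf
    have h := Gr.prod (P := P) (Finset.range W) (fun _ => f) (fun _ => c) fun _ _ => hf
    simpa using h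
  have h2 := (hpow hdet).mul hEest
  refine Gr.mono (le_of_eq ?_) h2
  ring

end Pool.Agent.Helper91.HM.Tw
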