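import Pool.Agent.Helper91.HM.TwInv
import Pool.Agent.Helper91.HM.Canon

/-!
Twisted tensors on pairs of small Kodaira dimension.
-/

set_option autoImplicit false
set_option linter.unusedSectionVars false

namespace Pool.Agent.Helper91.HM.Tw

open Module FF Pool.Agent.W602.GT Pool.Agent.W603.LV Pool.Agent.TH143.GT Pool.Agent.Y220.OG
  Pool.Agent.Helper12.BL Pool.Agent.Helper91.HM

section noinv

variable {K : Type} [Field K] [Algebra ℂ K] {n : ℕ} [Algebra ℝ K] [IsScalarTower ℝ ℂ K]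
  {ι : Type} {N : ι → ℕ}

theorem noInv [Algebra.EssFiniteType ℂ K] (hn : Algebra.trdeg ℂ K = n) (hn0 : 0 < n)
    {X : Set (Place ℂ K)} {δ : Place ℂ K → ℝ} (hδ : ∀ P ∈ X, 0 ≤ δ P) {a : ι → ℤ}
    (hN : ∀ i, 0 < (N i : ℤ) + n * a i)
    (s : ∀ i, (Fin n → Derivation ℂ K K) →
      MultilinearMap K (fun _ : Fin (N i) => Derivation ℂ K K) K)
    {κ : ℕ} (hs : ∀ i, IsMovable n X δ κ (a i) (s i)) (hκ : ¬ KodairaGe n X δ κ)
    {D : Fin n → Derivation ℂ K K} (hD : LinearIndependent K D) :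
    NoInv (crd (fun i => s i D) D) := by
  classical
  intro Q _ _ _ ν p hp
  by_contra hne
  apply hκ
  obtain ⟨I, -, hI⟩ := Finset.exists_ne_zero_of_sum_ne_zero hne
  have hI0 : p I ≠ 0 := fun h => hI (by rw [h, map_zero, zero_mul])
  obtain ⟨m, hm1, hm2⟩ := hp.exists_m hn0 hI0
  obtain ⟨q0⟩ : Nonempty Q := inferInstance
  have hW0 : 0 < (m : ℤ) + ∑ q, a (ν q) := by
    have h1 : 0 < ∑ q, ((N (ν q) : ℤ) + n * a (ν q)) :=
      Finset.sum_pos (fun q _ => hN _) ⟨q0, Finset.mem_univ _⟩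
    rw [Finset.sum_add_distrib, ← Finset.mul_sum] at h1
    have h2 : ∑ q, (N (ν q) : ℤ) = n * m := by
      rw [Fintype.card_sigma] at hm1
      simp only [Fintype.card_fin] at hm1
      exact_mod_cast hm1
    rw [h2, ← mul_add] at h1
    exact pos_of_mul_pos_right h1 (Int.natCast_nonneg n)
  obtain ⟨W, hW⟩ : ∃ W : ℕ, (W : ℤ) = m + ∑ q, a (ν q) := ⟨_, Int.toNat_of_nonneg hW0.le⟩
  have hWpos : 0 < W := by
    rw [← hW] at hW0
    exact_mod_cast hW0
  obtain ⟨h0, f, hf, hfs⟩ := hs (ν q0)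
  obtain ⟨F, hF0, hF⟩ : ∃ F : Fin (κ + 1) → K, F 0 = 1 ∧ ∀ j, F (Fin.succ j) = f j :=
    ⟨Fin.cons 1 f, rfl, fun _ => rfl⟩
  have hFs : ∀ j, IsTensor n X δ (a (ν q0)) (fun B => F j • s (ν q0) B) := by
    intro j
    refine Fin.cases ?_ (fun j => ?_) j
    · have h1 : (fun B => F 0 • s (ν q0) B) = s (ν q0) := by
        funext B
        rw [hF0, one_smul]
      rw [h1]
      exact h0
    · rw [hF]
      exact hfs j
  have hc : ∀ j, ∏ q, (if q = q0 then F j else 1) = F j := fun j => by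
    rw [Finset.prod_ite_eq' Finset.univ q0 (fun _ => F j), if_pos (Finset.mem_univ _)]
  let ω : Fin (κ + 1) → (Fin n → Derivation ℂ K K) → K := fun j =>
    form (M := fun q => N (ν q)) (fun q B => (if q = q0 then F j else 1) • s (ν q) B) p
  have hval : ∀ j, ω j D = F j * invForm (fun i => s i D) ν p D := by
    intro j
    change form (M := fun q => N (ν q)) (fun q B => (if q = q0 then F j else 1) • s (ν q) B) p D = _
    rw [form, if_pos hD]
    refine (invForm_smul (fun i => s i D) ν (fun q => if q = q0 then F j else 1) p D).trans ?_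
    rw [hc]
  refine ⟨W, hWpos, ω, fun j => ?_, D, ?_, ?_⟩
  · refine form_section hn hn0 hδ (a := fun q => a (ν q)) (fun q => ?_) hp hm2 hWpos hW
    by_cases hq : q = q0
    · subst hq
      simp only [if_true]
      exact hFs j
    · simp only [if_neg hq, one_smul]
      exact (hs _).1
  · rw [hval, hF0, one_mul]
    exact hne
  · have h1 : (fun j : Fin κ => ω j.succ D / ω 0 D) = f := by
      funext j
      rw [hval, hval, hF0, one_mul, hF]
      exact mul_div_cancel_right₀ _ hne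
    rw [h1]
    exact hf

end noinv

theorem hm_main {K : Type} [Field K] [Algebra ℂ K] [Algebra.EssFiniteType ℂ K] {n : ℕ}
    (hn : Algebra.trdeg ℂ K = n) (hn0 : 0 < n) {ι : Type} {N : ι → ℕ} [Finite ι]
    {X : Set (Place ℂ K)} {δ : Place ℂ K → ℝ} (hδ : ∀ P ∈ X, 0 ≤ δ P) {a : ι → ℤ}
    (hN : ∀ i, 0 < (N i : ℤ) + n * a i)
    (s : ∀ i, (Fin n → Derivation ℂ K K) →
      MultilinearMap K (fun _ : Fin (N i) => Derivation ℂ K K) K)
    {κ : ℕ} (hs : ∀ i, IsMovable n X δ κ (a i) (s i)) (hκ : ¬ KodairaGe n X δ κ)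
    {e : Fin n → Derivation ℂ K K} (he : LinearIndependent K e) :
    ∃ (b : Fin n → Derivation ℂ K K) (w : Fin n → ℤ), LinearIndependent K b ∧
      ∑ j, w j = 0 ∧ ∀ (i : ι) (J : Fin (N i) → Fin n),
        s i e (fun k => b (J k)) ≠ 0 → ∑ k, w (J k) < 0 := by
  classical
  let _ : Algebra ℝ K := Algebra.compHom K (algebraMap ℝ ℂ)
  have _ : IsScalarTower ℝ ℂ K := IsScalarTower.of_algebraMap_eq fun _ => rfl
  obtain ⟨g, w, hg, hw, hact⟩ := hmk hn0 (crd (fun i => s i e) e)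
    (noInv hn hn0 hδ hN s hs hκ he)
  refine ⟨lt g e, w, lt_li.2 ⟨he, hg⟩, hw, fun i J hne => ?_⟩
  apply hact i J
  rw [← crd_act]
  exact hne

/-- the set of the values of the twisted tensors in a basis -/
def vals {K : Type} [Field K] [Algebra ℂ K] (n : ℕ) (X : Set (Place ℂ K)) (δ : Place ℂ K → ℝ)
    (κ : ℕ) (e : Fin n → Derivation ℂ K K) (N : ℕ) :
    Set (MultilinearMap K (fun _ : Fin N => Derivation ℂ K K) K) :=
  {t | ∃ (a : ℤ) (s : (Fin n → Derivation ℂ K K) →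
    MultilinearMap K (fun _ : Fin N => Derivation ℂ K K) K), 0 < (N : ℤ) + n * a ∧
      IsMovable n X δ κ a s ∧ t = s e}

theorem bounded {K : Type} [Field K] [Algebra ℂ K] [Algebra.EssFiniteType ℂ K] {n : ℕ}
    (hn : Algebra.trdeg ℂ K = n) (hn0 : 0 < n) {X : Set (Place ℂ K)} {δ : Place ℂ K → ℝ}
    (hδ : ∀ P ∈ X, 0 ≤ δ P)
    {κ : ℕ} (hκ : ¬ KodairaGe n X δ κ) {e : Fin n → Derivation ℂ K K}
    (he : LinearIndependent K e) (d : ℕ) :
    ∃ (b : Fin n → Derivation ℂ K K) (w : Fin n → ℤ), LinearIndependent K b ∧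
      ∑ j, w j = 0 ∧ ∀ N, N ≤ d → ∀ t ∈ vals n X δ κ e N, ∀ J : Fin N → Fin n,
        t (fun k => b (J k)) ≠ 0 → ∑ k, w (J k) < 0 := by
  classical
  have hes := li_span hn he
  have hfin : Module.Finite K (Derivation ℂ K K) := ⟨⟨Finset.univ.image e, by
    rw [Finset.coe_image, Finset.coe_univ, Set.image_univ]
    exact hes⟩⟩
  have h1 : ∀ N : ℕ, ∃ F : Finset (MultilinearMap K (fun _ : Fin N => Derivation ℂ K K) K),
      (∀ t ∈ F, t ∈ vals n X δ κ e N) ∧
      ∀ t ∈ vals n X δ κ e N, t ∈ Submodule.span K (F : Set _) := by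
    intro N
    obtain ⟨F, hF1, hF2⟩ := (Submodule.fg_span_iff_fg_span_finset_subset (R := K)
      (vals n X δ κ e N)).1 (IsNoetherian.noetherian _)
    refine ⟨F, fun s hs => hF1 hs, fun s hs => ?_⟩
    rw [← hF2]
    exact Submodule.subset_span hs
  choose F hF1 hF2 using h1
  have h2 : ∀ i : (Σ N : Fin (d + 1), {x // x ∈ F N}), ∃ (a : ℤ)
      (s : (Fin n → Derivation ℂ K K) →
        MultilinearMap K (fun _ : Fin i.1 => Derivation ℂ K K) K), 0 < ((i.1 : ℕ) : ℤ) + n * a ∧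
      IsMovable n X δ κ a s ∧ i.2.1 = s e := fun i => hF1 _ _ i.2.2
  choose a s ha hs hse using h2
  obtain ⟨b, w, hb, hw, hdes⟩ := hm_main hn hn0 (ι := Σ N : Fin (d + 1), {x // x ∈ F N})
    (N := fun i => i.1) hδ ha s hs hκ he
  refine ⟨b, w, hb, hw, fun N hNd t ht J hne => ?_⟩
  by_contra hlt
  apply hne
  have h2 := hF2 _ t ht
  clear ht hne
  induction h2 using Submodule.span_induction with
  | mem t ht =>
    by_contra hne'
    have h3 := hse ⟨⟨N, by omega⟩, ⟨t, ht⟩⟩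
    have h4 : t = s ⟨⟨N, by omega⟩, ⟨t, ht⟩⟩ e := h3
    rw [h4] at hne'
    exact hlt (hdes ⟨⟨N, by omega⟩, ⟨t, ht⟩⟩ J hne')
  | zero => rfl
  | add t u _ _ ht hu => rw [add_apply, ht, hu, add_zero]
  | smul c t _ ht => rw [smul_apply, ht, smul_zero]

section pull

variable {K : Type} [Field K] [Algebra ℂ K] {n : ℕ} {φ : K ≃+* K} {τ : ℂ ≃+* ℂ}
  (h : ∀ c, φ (algebraMap ℂ K c) = algebraMap ℂ K (τ c))

theorem cj_sum {m : ℕ} (c : Fin m → K) (B : Fin m → Derivation ℂ K K) :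
    cj h (∑ i, c i • B i) = ∑ i, φ (c i) • cj h (B i) := by
  have h1 : cj h (∑ i, c i • B i) = (cjE h) (∑ i, c i • B i) := rfl
  rw [h1, map_sum]
  exact Finset.sum_congr rfl fun i _ => cj_smul h _ _

theorem cj_li {m : ℕ} {B : Fin m → Derivation ℂ K K} (hB : LinearIndependent K B) :
    LinearIndependent K (fun i => cj h (B i)) := by
  rw [Fintype.linearIndependent_iff] at hB ⊢
  intro c hc i
  have h1 := cj_sum h (fun i => φ.symm (c i)) B
  simp only [RingEquiv.apply_symm_apply] at h1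
  rw [hc] at h1
  have h2 : cjE h (∑ i, φ.symm (c i) • B i) = 0 := h1
  have h3 := hB _ ((map_eq_zero_iff (cjE h) (cjE h).injective).1 h2) i
  exact (map_eq_zero_iff φ.symm φ.symm.injective).1 h3

theorem isFrame_map {P : Place ℂ K} {B : Fin n → Derivation ℂ K K} (hB : IsFrame P B) :
    IsFrame (mapPlace h P) (fun i => cj h (B i)) := by
  refine ⟨fun i => derReg_map h (hB.1 i), fun D' hD' => ?_⟩
  obtain ⟨D, rfl⟩ : ∃ D, D' = cj h D := ⟨(cjE h).symm D', ((cjE h).apply_symm_apply D').symm⟩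
  have hD : DerReg P D := by
    intro f hf
    have h1 : (mapPlace h P).Reg (φ f) := by
      rw [reg_map, RingEquiv.symm_apply_apply]
      exact hf
    have h2 := hD' _ h1
    rw [reg_map, cj_apply, RingEquiv.symm_apply_apply, RingEquiv.symm_apply_apply] at h2
    exact h2
  obtain ⟨c, hc, hcD⟩ := hB.2 D hD
  refine ⟨fun i => φ (c i), fun i => ?_, ?_⟩
  · rw [reg_map, RingEquiv.symm_apply_apply]
    exact hc i
  · conv_lhs => rw [hcD]
    exact cj_sum h c B

/-- the pull-back of a twisted tensor -/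
def pullS {N : ℕ} (s : (Fin n → Derivation ℂ K K) →
      MultilinearMap K (fun _ : Fin N => Derivation ℂ K K) K) :
    (Fin n → Derivation ℂ K K) → MultilinearMap K (fun _ : Fin N => Derivation ℂ K K) K :=
  fun B => pullT h (s fun i => cj h (B i))

theorem isTensor_pullS {X : Set (Place ℂ K)} {δ : Place ℂ K → ℝ}
    (hX : ∀ P ∈ X, ∀ P' : Place ℂ K, (∀ f, P'.ord (φ f) = P.ord f) → P' ∈ X ∧ δ P' = δ P)
    (hδ : ∀ P ∈ X, 0 ≤ δ P) {N : ℕ} {a : ℤ}
    {s : (Fin n → Derivation ℂ K K) →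
      MultilinearMap K (fun _ : Fin N => Derivation ℂ K K) K} (hs : IsTensor n X δ a s) :
    IsTensor n X δ a (pullS h s) := by
  refine ⟨fun A B hB hA => ?_, fun P hP hdiv B hB D hD => ?_⟩
  · ext x
    rw [smul_apply, pullS, pullT_apply]
    have h1 : (fun i => cj h (∑ j, A i j • B j)) =
        fun i => ∑ j, (A.map φ) i j • cj h (B j) := by
      funext i
      rw [cj_sum]
      rfl
    have h2 : (A.map φ).det = φ A.det := (RingHom.map_det (φ : K →+* K) A).symm
    rw [h1, hs.1 (A.map φ) _ (cj_li h hB) (by rw [h2]; exact (map_ne_zero φ).2 hA), h2,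
      smul_apply, smul_eq_mul, map_mul, map_zpow₀, RingEquiv.symm_apply_apply, smul_eq_mul]
    rfl
  · obtain ⟨h1, h2⟩ := hX P hP (mapPlace h P) fun f => by
      rw [mapPlace_ord, RingEquiv.symm_apply_apply]
    have h3 := hs.2 (mapPlace h P) h1 (divisorial_map h hdiv) _ (isFrame_map h hB)
      (fun j => cj h (D j)) fun j => derReg_map h (hD j)
    change Gr P _ _
    have h4 : pullS h s B D = φ.symm (s (fun i => cj h (B i)) fun j => cj h (D j)) := rfl
    rw [h4]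
    rcases h3 with h3 | h3
    · left
      rw [h3, map_zero]
    · right
      rw [mapPlace_ord, h2] at h3
      refine le_trans ?_ h3
      rw [neg_le_neg_iff]
      refine mul_le_mul_of_nonneg_right ?_ (hδ P hP)
      have h4 : Nat.card {j : Fin N // ¬ DerLog (mapPlace h P) (cj h (D j))} ≤
          Nat.card {j : Fin N // ¬ DerLog P (D j)} := by
        refine Nat.card_le_card_of_injective
          (fun j => (⟨j.1, fun hlog => j.2 (derLog_map h hlog)⟩ :
            {j : Fin N // ¬ DerLog P (D j)}))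
          fun j j' hjj => ?_
        exact Subtype.ext (congrArg (fun x : {j : Fin N // ¬ DerLog P (D j)} => x.1) hjj)
      have h5 : (Nat.card {j : Fin N // ¬ DerLog (mapPlace h P) (cj h (D j))} : ℝ) ≤
          Nat.card {j : Fin N // ¬ DerLog P (D j)} := by exact_mod_cast h4
      linarith

theorem isMovable_pullS {X : Set (Place ℂ K)} {δ : Place ℂ K → ℝ}
    (hX : ∀ P ∈ X, ∀ P' : Place ℂ K, (∀ f, P'.ord (φ f) = P.ord f) → P' ∈ X ∧ δ P' = δ P)
    (hδ : ∀ P ∈ X, 0 ≤ δ P) {κ N : ℕ} {a : ℤ}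
    {s : (Fin n → Derivation ℂ K K) →
      MultilinearMap K (fun _ : Fin N => Derivation ℂ K K) K} (hs : IsMovable n X δ κ a s) :
    IsMovable n X δ κ a (pullS h s) := by
  obtain ⟨h1, f, hf, hfs⟩ := hs
  refine ⟨isTensor_pullS h hX hδ h1, fun j => φ.symm (f j), algInd_conj h hf, fun j => ?_⟩
  have h2 : (fun B => φ.symm (f j) • pullS h s B) = pullS h (fun B => f j • s B) := by
    funext B
    ext x
    rw [smul_apply, pullS, pullS, pullT_apply, pullT_apply, smul_apply, smul_eq_mul, smul_eq_mul,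
      map_mul]
  rw [h2]
  exact isTensor_pullS h hX hδ (hfs j)

end pull

/-- **The invariant distribution.** -/
theorem main {K : Type} [Field K] [Algebra ℂ K] [Algebra.EssFiniteType ℂ K] {n : ℕ}
    (hn : Algebra.trdeg ℂ K = n) (hn0 : 0 < n) (X : Set (Place ℂ K)) (δ : Place ℂ K → ℝ)
    (hδ : ∀ P ∈ X, 0 ≤ δ P) (κ : ℕ) (hκ : ¬ KodairaGe n X δ κ) :
    ∃ U : Submodule K (Derivation ℂ K K), U ≠ ⊥ ∧
      (∀ (N : ℕ) (a : ℤ), 0 < (N : ℤ) + n * a → ∀ s : (Fin n → Derivation ℂ K K) →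
        MultilinearMap K (fun _ : Fin N => Derivation ℂ K K) K, IsMovable n X δ κ a s →
        ∀ B : Fin n → Derivation ℂ K K, LinearIndependent K B → ∀ x : Fin N → Derivation ℂ K K,
          (n - 1) * N ≤ n * Nat.card {i : Fin N // x i ∈ U} → s B x = 0) ∧
      ∀ φ : K ≃+* K, Preserves X δ φ → ∀ D ∈ U, ∀ D' : Derivation ℂ K K,
        (∀ f, D' (φ f) = φ (D f)) → D' ∈ U := by
  classical
  obtain ⟨e, he, hes⟩ := exists_basis (K := K) hn
  let 𝒮 : ℕ → ∀ d : ℕ, Set (MultilinearMap K (fun _ : Fin d => Derivation ℂ K K) K) :=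
    fun m d => {t | d ≤ m ∧ t ∈ vals n X δ κ e d}
  have h1 : ∀ m : ℕ, ∃ U : Submodule K (Derivation ℂ K K), U ≠ ⊥ ∧
      (∀ N, N ≤ m → ∀ t ∈ vals n X δ κ e N, ∀ x : Fin N → Derivation ℂ K K,
          (n - 1) * N ≤ n * Nat.card {i : Fin N // x i ∈ U} → t x = 0) ∧
      ∀ φ : K ≃+* K, Preserves X δ φ → ∀ D ∈ U, ∀ D' : Derivation ℂ K K,
        (∀ f, D' (φ f) = φ (D f)) → D' ∈ U := by
    intro m
    obtain ⟨b, a, hb, ha, hdes⟩ := bounded hn hn0 hδ hκ he m
    have hDest : Dest (𝒮 m) b (fun j => (a j : ℝ)) := by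
      refine ⟨hb, li_span hn hb, ?_, ?_⟩
      · beta_reduce
        exact_mod_cast ha
      · rintro d s ⟨hdm, hs⟩ J hne
        have h2 := hdes d hdm s hs J hne
        have h3 : ∑ k, a (J k) ≤ -1 := by omega
        beta_reduce
        exact_mod_cast h3
    obtain ⟨g, w, hg, hmin⟩ := exists_min (D := m) (fun d s hs => hs.1) hDest
    obtain ⟨j0, -, hj0⟩ := Finset.exists_max_image Finset.univ w ⟨⟨0, hn0⟩, Finset.mem_univ _⟩
    refine ⟨flag g w (w j0), ?_, ?_, ?_⟩
    · intro h0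
      have h2 : g j0 ∈ (flag g w (w j0) : Submodule K (Derivation ℂ K K)) :=
        Submodule.subset_span ⟨j0, le_refl (w j0), rfl⟩
      rw [h0, Submodule.mem_bot] at h2
      exact hg.1.ne_zero j0 h2
    · rintro N hNm t ht x hx
      exact top_vanish hn0 hg (fun j => hj0 j (Finset.mem_univ _)) (s := t) ⟨hNm, ht⟩ x hx
    · rintro φ ⟨⟨τ, hτ⟩, hX⟩ D hD D' hD'
      have h2 : D' = cj hτ D := by
        ext y
        rw [cj_apply, ← hD', RingEquiv.apply_symm_apply]
      rw [h2]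
      refine flag_stable hn0 hg hmin φ (cjE hτ) (fun c x => cj_smul hτ c x) ?_ (w j0) hD
      rintro d t ⟨hdm, a', s, hpos, hs, rfl⟩
      refine ⟨pullS hτ s e, ⟨hdm, a', pullS hτ s, hpos, isMovable_pullS hτ hX hδ hs, rfl⟩,
        fun x hne => ?_⟩
      obtain ⟨A, hA⟩ := exists_lt (D := fun i => cj hτ (e i)) hes
      have h3 := cj_li hτ he
      rw [hA] at h3
      have h4 := (lt_li.1 h3).2
      rw [pullS, pullT_apply]
      have h5 : s (fun i => cj hτ (e i)) = A.det ^ a' • s e := by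
        rw [hA]
        exact hs.1.1 A e he h4
      rw [h5, smul_apply, smul_eq_mul]
      exact (map_ne_zero φ.symm).2 (mul_ne_zero (zpow_ne_zero _ h4) hne)
  choose U hU0 hU1 hU2 using h1
  obtain ⟨m, hm⟩ := stabilise (𝒯 := vals n X δ κ e) he hes U hU1
  refine ⟨U m, hU0 m, fun N a hpos s hs B hB x hx => ?_, hU2 m⟩
  obtain ⟨A, hA⟩ := exists_lt (D := B) hes
  have h3 := (lt_li.1 (hA ▸ hB)).2
  have h4 : s B = A.det ^ a • s e := by
    rw [hA]
    exact hs.1.1 A e he h3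
  rw [h4, smul_apply, hm N (s e) ⟨a, s, hpos, hs, rfl⟩ x hx, smul_zero]

end Pool.Agent.Helper91.HM.Tw
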