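import Pool.Agent.Helper91.HM.Gen
import Pool.Agent.Helper91.HM.Norm
import Pool.Agent.Helper91.HM.Gor

/-!
If all invariants vanish then the tensors are destabilised over some extension field.
-/

set_option autoImplicit false
set_option linter.unusedSectionVars false

namespace Pool.Agent.Helper91.HM

open MvPolynomial

section

variable {L Γ : Type*} [Field L] [LinearOrderedCommGroupWithZero Γ] (v : Valuation L Γ) {n : ℕ}
  (hn : 0 < n)

include hn in
theorem ne_univ : (Finset.univ : Finset (Fin n)).Nonempty := ⟨⟨0, hn⟩, Finset.mem_univ _⟩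

/-- the maximum norm -/
def supn (x : Fin n → L) : Γ :=
  Finset.univ.sup' (ne_univ hn) (fun i => v (x i))

theorem supn_le (x : Fin n → L) (γ : Γ) : supn v hn x ≤ γ ↔ ∀ i, v (x i) ≤ γ := by
  rw [supn, Finset.sup'_le_iff]
  simp

theorem exists_supn (x : Fin n → L) : ∃ i, supn v hn x = v (x i) := by
  obtain ⟨i, _, hi⟩ := Finset.exists_mem_eq_sup' (ne_univ hn) (fun i => v (x i))
  exact ⟨i, hi⟩

theorem split_std : Split v (supn v hn) (fun i => (Pi.single i 1 : Fin n → L)) (fun _ => 1) := by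
  classical
  refine ⟨fun _ => one_ne_zero, fun c γ => ?_⟩
  have h1 : ∑ i, c i • (Pi.single i 1 : Fin n → L) = c := by
    funext j
    rw [Finset.sum_apply]
    simp [Pi.single_apply]
  rw [h1, supn_le]
  simp

theorem split_rows (M : Matrix (Fin n) (Fin n) L) (hM : IsUnit M.det) :
    Split v (fun x => supn v hn (Matrix.vecMul x M⁻¹)) (fun i => M i) (fun _ => 1) := by
  classical
  refine ⟨fun _ => one_ne_zero, fun c γ => ?_⟩
  have h1 : ∑ i, c i • M i = Matrix.vecMul c M := by
    funext j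
    rw [Finset.sum_apply, Matrix.vecMul, dotProduct]
    rfl
  beta_reduce
  rw [h1, Matrix.vecMul_vecMul, Matrix.mul_nonsing_inv _ hM, Matrix.vecMul_one, supn_le]
  simp

theorem Split.rescale {V : Type*} [AddCommGroup V] [Module L V] {v : Valuation L Γ} {ν : V → Γ}
    {k : ℕ} {b : Fin k → V} {w : Fin k → Γ} (h : Split v ν b w) (a : Fin k → L)
    (ha : ∀ i, a i ≠ 0) : Split v ν (fun i => a i • b i) (fun i => v (a i) * w i) := by
  refine ⟨fun i => mul_ne_zero ((Valuation.ne_zero_iff v).2 (ha i)) (h.1 i), fun c γ => ?_⟩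
  have h1 : ∑ i, c i • (a i • b i) = ∑ i, (c i * a i) • b i :=
    Finset.sum_congr rfl fun i _ => by rw [smul_smul]
  rw [h1, h.2]
  simp only [map_mul, mul_assoc]

theorem val_det_le {G : Matrix (Fin n) (Fin n) L} {δ : Fin n → Γ} (hG : ∀ j i, v (G j i) ≤ δ i) :
    v G.det ≤ ∏ i, δ i := by
  rw [Matrix.det_apply']
  refine Valuation.map_sum_le v fun σ _ => ?_
  rw [map_mul, map_prod]
  have h1 : v (((Equiv.Perm.sign σ : ℤˣ) : ℤ) : L) ≤ 1 := by
    rcases Int.units_eq_one_or (Equiv.Perm.sign σ) with h | h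
    · rw [h]; simp
    · rw [h]; simp
  calc v (((Equiv.Perm.sign σ : ℤˣ) : ℤ) : L) * ∏ i, v (G (σ i) i)
      ≤ 1 * ∏ i, δ i := mul_le_mul' h1 (Finset.prod_le_prod' fun i _ => hG _ _)
    _ = ∏ i, δ i := one_mul _

end

theorem span_top_of_mul {L : Type*} [Field L] {n : ℕ} (M : Matrix (Fin n) (Fin n) L)
    (hM : IsUnit M.det) : Submodule.span L (Set.range fun i => M i) = ⊤ := by
  rw [eq_top_iff]
  intro x _
  rw [mem_span_fam]
  refine ⟨Matrix.vecMul x M⁻¹, ?_⟩
  have h1 : ∑ i, (Matrix.vecMul x M⁻¹) i • M i = Matrix.vecMul (Matrix.vecMul x M⁻¹) M := by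
    funext j
    rw [Finset.sum_apply, Matrix.vecMul, dotProduct]
    rfl
  rw [h1, Matrix.vecMul_vecMul, Matrix.nonsing_inv_mul _ hM, Matrix.vecMul_one]

section

variable {K : Type} [Field K] [Algebra ℝ K] {n : ℕ} {ι : Type} {N : ι → ℕ}

theorem val_step (hn : 0 < n) [Finite ι] (T : ∀ i, (Fin (N i) → Fin n) → K) (hT : NoInv T) :
    ∃ (κ : Type) (_ : Field κ) (f : K →+* κ) (E : Matrix (Fin n) (Fin n) κ) (a : Fin n → ℤ),
      E.det ≠ 0 ∧ ∑ j, a j = 0 ∧
        ∀ i J, act E (fun I => f (T i I)) J ≠ 0 → ∑ k, a (J k) < 0 := by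
  classical
  obtain ⟨B, hKB, hu⟩ := exists_valuation hn T hT
  obtain ⟨v, hv⟩ : ∃ v, v = B.valuation := ⟨_, rfl⟩
  rw [← hv] at hu
  have hmem : ∀ x, v x ≤ 1 ↔ x ∈ B := fun x => hv ▸ B.valuation_le_one_iff x
  obtain ⟨X, hX⟩ : ∃ X : Matrix (Fin n) (Fin n) (RF n K),
    X = (gen n K).map (algebraMap _ (RF n K)) := ⟨_, rfl⟩
  have hXdet : X.det = algebraMap _ (RF n K) (gen n K).det := by
    rw [hX, RingHom.map_det]
    rfl
  have hXu : IsUnit X.det := by
    rw [isUnit_iff_ne_zero, hXdet]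
    exact det_gen_ne'
  -- the two norms
  obtain ⟨e, u, u', he, he', hespan⟩ := split2 n (supn v hn)
    (fun x => supn v hn (Matrix.vecMul x X⁻¹)) _ _ _ _ (split_std v hn) (split_rows v hn X hXu)
    (by
      rw [span_top_of_mul X hXu, eq_top_iff]
      intro x _
      rw [mem_span_fam]
      refine ⟨x, ?_⟩
      funext j
      rw [Finset.sum_apply]
      simp [Pi.single_apply])
  have hstd : Submodule.span (RF n K) (Set.range fun i => (Pi.single i 1 : Fin n → RF n K)) = ⊤ := by
    rw [eq_top_iff]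
    intro x _
    rw [mem_span_fam]
    refine ⟨x, ?_⟩
    funext j
    rw [Finset.sum_apply]
    simp [Pi.single_apply]
  rw [hstd] at hespan
  choose jj hjj using fun i => exists_supn v hn (e i)
  have hej : ∀ i, v (e i (jj i)) = u i := fun i => by rw [← hjj, he.apply]
  have hej0 : ∀ i, e i (jj i) ≠ 0 := by
    intro i h0
    have := hej i
    rw [h0, map_zero] at this
    exact he.1 i this.symm
  obtain ⟨E, hEdef⟩ : ∃ E : Matrix (Fin n) (Fin n) (RF n K),
    ∀ i, E i = (e i (jj i))⁻¹ • e i := ⟨fun i => (e i (jj i))⁻¹ • e i, fun _ => rfl⟩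
  obtain ⟨γ, hγ⟩ : ∃ γ : Fin n → B.ValueGroup, ∀ i, γ i = v (e i (jj i))⁻¹ * u' i :=
    ⟨_, fun _ => rfl⟩
  have hE : Split v (supn v hn) (fun i => E i) (fun _ => 1) := by
    have h1 := he.rescale (fun i => (e i (jj i))⁻¹) (fun i => inv_ne_zero (hej0 i))
    have h2 : (fun i => v (e i (jj i))⁻¹ * u i) = fun _ => (1 : B.ValueGroup) := by
      funext i
      rw [map_inv₀, hej, inv_mul_cancel₀ (he.1 i)]
    rw [h2] at h1
    simpa only [hEdef] using h1
  have hE' : Split v (fun x => supn v hn (Matrix.vecMul x X⁻¹)) (fun i => E i) γ := by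
    have h1 := he'.rescale (fun i => (e i (jj i))⁻¹) (fun i => inv_ne_zero (hej0 i))
    have h2 : (fun i => v (e i (jj i))⁻¹ * u' i) = γ := (funext hγ).symm
    rw [h2] at h1
    simpa only [hEdef] using h1
  have hEspan : Submodule.span (RF n K) (Set.range fun i => E i) = ⊤ := by
    rw [eq_top_iff, ← hespan, Submodule.span_le]
    rintro _ ⟨i, rfl⟩
    have h1 : e i = (e i (jj i)) • E i := by
      rw [hEdef, smul_smul, mul_inv_cancel₀ (hej0 i), one_smul]
    rw [h1]
    exact Submodule.smul_mem _ _ (Submodule.subset_span ⟨i, rfl⟩)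
  have hrow : ∀ (c : Matrix (Fin n) (Fin n) (RF n K)) (M Z : Matrix (Fin n) (Fin n) (RF n K)),
      (∀ j, ∑ i, c j i • M i = Z j) → c * M = Z := by
    intro c M Z h
    ext j l
    rw [Matrix.mul_apply, ← h j, Finset.sum_apply]
    rfl
  -- the inverse of `E`
  have hF : ∀ j, ∃ c : Fin n → RF n K, ∑ i, c i • E i = Pi.single j 1 := fun j =>
    mem_span_fam.1 (hEspan ▸ Submodule.mem_top)
  obtain ⟨F, hF⟩ : ∃ F : Matrix (Fin n) (Fin n) (RF n K),
    ∀ j, ∑ i, F j i • E i = Pi.single j 1 :=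
    ⟨fun j => (hF j).choose, fun j => (hF j).choose_spec⟩
  have hFE : F * E = 1 := by
    refine hrow F E 1 fun j => ?_
    rw [hF j]
    funext l
    rw [Matrix.one_apply, Pi.single_apply]
    by_cases h : l = j
    · rw [if_pos h, if_pos h.symm]
    · rw [if_neg h, if_neg (Ne.symm h)]
  have hEint : ∀ i j, v (E i j) ≤ 1 := by
    intro i j
    have h1 := hE.apply i
    exact (supn_le v hn _ _).1 h1.le j
  have hFint : ∀ j i, v (F j i) ≤ 1 := by
    intro j i
    have h1 := hE.coord_le (F j) i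
    rw [hF j, mul_one] at h1
    refine h1.trans ((supn_le v hn _ _).2 fun l => ?_)
    rw [Pi.single_apply]
    split_ifs <;> simp
  -- `X` in terms of `E`
  have hG : ∀ j, ∃ c : Fin n → RF n K, ∑ i, c i • E i = X j := fun j =>
    mem_span_fam.1 (hEspan ▸ Submodule.mem_top)
  obtain ⟨G, hG⟩ : ∃ G : Matrix (Fin n) (Fin n) (RF n K), ∀ j, ∑ i, G j i • E i = X j :=
    ⟨fun j => (hG j).choose, fun j => (hG j).choose_spec⟩
  have hGE : G * E = X := hrow G E X hG
  have hX1 := split_rows v hn X hXu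
  have hγ0 : ∀ i, γ i ≠ 0 := hE'.1
  have hGv : ∀ j i, v (G j i) ≤ (γ i)⁻¹ := by
    intro j i
    have h1 := hE'.coord_le (G j) i
    rw [hG j] at h1
    have h2 := hX1.apply j
    beta_reduce at h1 h2
    rw [h2] at h1
    have h3 := mul_le_mul_left h1 (γ i)⁻¹
    rwa [mul_inv_cancel_right₀ (hγ0 i), one_mul] at h3
  have hdetE : v E.det ≤ 1 := by
    have h1 := val_det_le v (G := E) (δ := fun _ => 1) hEint
    rwa [Finset.prod_const_one] at h1
  have hdetX : v X.det ≤ ∏ i, (γ i)⁻¹ := by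
    rw [← hGE, Matrix.det_mul, map_mul]
    calc v G.det * v E.det ≤ (∏ i, (γ i)⁻¹) * 1 := mul_le_mul' (val_det_le v hGv) hdetE
      _ = _ := mul_one _
  -- `E` in terms of `X`
  have hC : ∀ j, ∃ c : Fin n → RF n K, ∑ i, c i • X i = E j := fun j =>
    mem_span_fam.1 ((span_top_of_mul X hXu) ▸ Submodule.mem_top)
  obtain ⟨C', hC⟩ : ∃ C' : Matrix (Fin n) (Fin n) (RF n K), ∀ j, ∑ i, C' j i • X i = E j :=
    ⟨fun j => (hC j).choose, fun j => (hC j).choose_spec⟩
  have hCX : C' * X = E := hrow C' X E hC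
  have hCv : ∀ j i, v (C' j i) ≤ γ j := by
    intro j i
    have h1 := hX1.coord_le (C' j) i
    rw [hC j, mul_one] at h1
    exact h1.trans (hE'.apply j).le
  -- the coordinates
  obtain ⟨TL, hTL⟩ : ∃ TL : ∀ i, (Fin (N i) → Fin n) → RF n K,
    ∀ i I, TL i I = algebraMap K (RF n K) (T i I) := ⟨_, fun _ _ => rfl⟩
  have hXv : ∀ i I, v (act X (TL i) I) ^ n < (∏ i, (γ i)⁻¹) ^ (N i) := by
    intro i I
    have h1 := hu ⟨i, I⟩
    have h2 : uco T ⟨i, I⟩ = act X (TL i) I ^ n / X.det ^ N i := by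
      rw [uco, hXdet]
      congr 2
      rw [fco, ← act_map (algebraMap _ (RF n K)), hX]
      congr 1
      funext I'
      rw [hTL, IsScalarTower.algebraMap_apply K (MvPolynomial (Fin n × Fin n) K) (RF n K)]
      rfl
    rw [h2, map_div₀, map_pow, map_pow] at h1
    have h3 : v X.det ^ N i ≠ 0 := pow_ne_zero _ ((Valuation.ne_zero_iff v).2 hXu.ne_zero)
    rw [div_lt_one₀ (zero_lt_iff.2 h3)] at h1
    exact h1.trans_le (pow_le_pow_left' hdetX _)
  have hkey : ∀ i J, 1 ≤ v (act E (TL i) J) →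
      1 < (∏ k, γ (J k)) ^ n * (∏ j, (γ j)⁻¹) ^ (N i) := by
    intro i J h1
    have h2 : act E (TL i) J = act C' (act X (TL i)) J := by rw [← hCX, act_mul]
    by_contra hcon
    have h3 : ∀ I, v ((∏ k, C' (J k) (I k)) * act X (TL i) I) < 1 := by
      intro I
      have h4 : v ((∏ k, C' (J k) (I k)) * act X (TL i) I) ≤
          (∏ k, γ (J k)) * v (act X (TL i) I) := by
        rw [map_mul, map_prod]
        exact mul_le_mul_left (Finset.prod_le_prod' fun k _ => hCv _ _) _
      refine lt_of_le_of_lt h4 ?_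
      have h5 : ((∏ k, γ (J k)) * v (act X (TL i) I)) ^ n < 1 ^ n := by
        rw [mul_pow, one_pow]
        refine lt_of_lt_of_le ?_ (not_lt.1 hcon)
        have h6 : (∏ k, γ (J k)) ^ n ≠ 0 := pow_ne_zero _ (Finset.prod_ne_zero_iff.2 fun k _ => hγ0 _)
        exact mul_lt_mul_of_pos_left (hXv i I) (zero_lt_iff.2 h6)
      exact lt_of_pow_lt_pow_left' n h5
    have h7 : v (act E (TL i) J) < 1 := by
      rw [h2]
      change v (∑ I, (∏ k, C' (J k) (I k)) * act X (TL i) I) < 1
      exact Valuation.map_sum_lt v one_ne_zero fun I _ => h3 I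
    exact absurd h1 (not_le.2 h7)
  -- integral weights
  obtain ⟨γu, hγu⟩ : ∃ γu : Fin n → (B.ValueGroup)ˣ, ∀ i, γu i = Units.mk0 (γ i) (hγ0 i) :=
    ⟨_, fun _ => rfl⟩
  have hOm : Finite (Om n N) := inferInstance
  have hOmF : Fintype (Om n N) := Fintype.ofFinite _
  obtain ⟨w, hw⟩ := gordan_int n γu
    ((Finset.univ.filter fun ω : Om n N => 1 ≤ v (act E (TL ω.1) ω.2)).image fun ω j =>
      ((n : ℤ) * (Finset.univ.filter fun k => ω.2 k = j).card - N ω.1)) (by
      intro a ha
      obtain ⟨ω, hω, rfl⟩ := Finset.mem_image.1 ha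
      have h1 := hkey ω.1 ω.2 (Finset.mem_filter.1 hω).2
      rw [← Units.val_lt_val]
      refine lt_of_lt_of_eq (lt_of_eq_of_lt Units.val_one h1) ?_
      rw [Units.coe_prod]
      have h2 : ∀ j, ((γu j ^ ((n : ℤ) * (Finset.univ.filter fun k => ω.2 k = j).card - N ω.1) :
          (B.ValueGroup)ˣ) : B.ValueGroup) =
            (γ j ^ (Finset.univ.filter fun k => ω.2 k = j).card) ^ n * ((γ j)⁻¹) ^ (N ω.1) := by
        intro j
        rw [zpow_sub, Units.val_mul, zpow_mul, hγu]
        simp only [zpow_natCast, Units.val_pow_eq_pow_val, Units.val_mk0, Units.val_inv_eq_inv_val,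
          inv_pow]
        rw [← pow_mul, ← pow_mul, mul_comm n]
      rw [Finset.prod_congr rfl fun j _ => h2 j, Finset.prod_mul_distrib, Finset.prod_pow,
        Finset.prod_pow]
      congr 2
      rw [← Finset.prod_fiberwise_of_maps_to (g := ω.2) (t := Finset.univ)
            (fun _ _ => Finset.mem_univ _)]
      refine Finset.prod_congr rfl fun j _ => ?_
      rw [Finset.prod_congr rfl fun k hk => by rw [(Finset.mem_filter.1 hk).2],
          Finset.prod_const])
  -- reduction modulo the maximal ideal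
  let toB : K →+* B := (algebraMap K (RF n K)).codRestrict B.toSubring hKB
  let res : B →+* IsLocalRing.ResidueField B := IsLocalRing.residue B
  obtain ⟨EB, hEB⟩ : ∃ EB : Matrix (Fin n) (Fin n) B, ∀ i j, (EB i j : RF n K) = E i j :=
    ⟨fun i j => ⟨E i j, (hmem _).1 (hEint i j)⟩, fun _ _ => rfl⟩
  obtain ⟨FB, hFB⟩ : ∃ FB : Matrix (Fin n) (Fin n) B, ∀ i j, (FB i j : RF n K) = F i j :=
    ⟨fun i j => ⟨F i j, (hmem _).1 (hFint i j)⟩, fun _ _ => rfl⟩
  have hFEB : FB * EB = 1 := by
    ext i j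
    have h1 := congrFun (congrFun hFE i) j
    rw [Matrix.mul_apply] at h1 ⊢
    push_cast
    simp only [hEB, hFB]
    rw [h1, Matrix.one_apply, Matrix.one_apply]
    split_ifs <;> simp
  refine ⟨IsLocalRing.ResidueField B, inferInstance, res.comp toB, EB.map res,
    fun j => ∑ l, w l - n * w j, ?_, ?_, fun i J hne => ?_⟩
  · intro h0
    have h1 : (FB.map res * EB.map res).det = 1 := by
      rw [← Matrix.map_mul, hFEB, Matrix.map_one _ (map_zero _) (map_one _), Matrix.det_one]
    rw [Matrix.det_mul, h0, mul_zero] at h1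
    exact zero_ne_one h1
  · rw [Finset.sum_sub_distrib, Finset.sum_const, Finset.card_univ, Fintype.card_fin,
      ← Finset.mul_sum, nsmul_eq_mul, sub_self]
  · have h1 : act (EB.map res) (fun I => (res.comp toB) (T i I)) J =
        res (act EB (fun I => toB (T i I)) J) := act_map res EB (fun I => toB (T i I)) J
    rw [h1] at hne
    have h2 : IsUnit (act EB (fun I => toB (T i I)) J) := by
      by_contra hnu
      exact hne ((IsLocalRing.residue_eq_zero_iff _).2 hnu)
    have h3 : ((act EB (fun I => toB (T i I)) J : B) : RF n K) = act E (TL i) J := by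
      have h4 := act_map B.subtype EB (fun I => toB (T i I)) J
      have h5 : EB.map B.subtype = E := by
        ext a b
        exact hEB a b
      rw [h5] at h4
      change B.subtype _ = _
      rw [← h4]
      congr 1
      funext I
      rw [hTL]
      rfl
    have h4 : v (act E (TL i) J) = 1 := by
      rw [← h3, hv]
      exact (B.valuation_eq_one_iff _).1 h2
    have h5 := hw _ (Finset.mem_image.2 ⟨⟨i, J⟩, Finset.mem_filter.2
      ⟨Finset.mem_univ _, h4.ge⟩, rfl⟩)
    beta_reduce at h5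
    have h6 : ∑ j, w j * ((n : ℤ) * (Finset.univ.filter fun k => J k = j).card - N i) =
        n * ∑ k, w (J k) - N i * ∑ j, w j := by
      have h7 : ∑ k, w (J k) = ∑ j, (Finset.univ.filter fun k => J k = j).card * w j := by
        rw [← Finset.sum_fiberwise_of_maps_to (g := J) (t := Finset.univ)
          (fun _ _ => Finset.mem_univ _)]
        refine Finset.sum_congr rfl fun j _ => ?_
        rw [Finset.sum_congr rfl fun k hk => by rw [(Finset.mem_filter.1 hk).2],
          Finset.sum_const, nsmul_eq_mul]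
      rw [h7, Finset.mul_sum, Finset.mul_sum, ← Finset.sum_sub_distrib]
      refine Finset.sum_congr rfl fun j _ => ?_
      ring
    rw [h6] at h5
    rw [Finset.sum_sub_distrib, Finset.sum_const, Finset.card_univ, Fintype.card_fin,
      ← Finset.mul_sum, nsmul_eq_mul]
    linarith

end

end Pool.Agent.Helper91.HM
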